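import Mathlib

set_option autoImplicit false

/-! Almost self-centered graphs: the deterministic part. -/

namespace Pool.Agent.Q259.ASC

open SimpleGraph

/-- `H` is an `r`-ASC graph: it is connected, has radius `r`, and exactly two of its vertices are
not central (have eccentricity different from the radius). -/
def IsASC {W : Type} (r : ℕ) (H : SimpleGraph W) : Prop :=
  H.Connected ∧ H.radius = (r : ℕ∞) ∧ {u : W | H.eccent u ≠ H.radius}.ncard = 2

/-- `θ_r(G)`: the least `k` such that some `r`-ASC graph with `|V(G)| + k` vertices contains `G` as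
an induced subgraph. -/
noncomputable def theta {V : Type} [Fintype V] (r : ℕ) (G : SimpleGraph V) : ℕ :=
  sInf {k : ℕ | ∃ (W : Type) (_ : Fintype W) (H : SimpleGraph W), IsASC r H ∧
    Fintype.card W = Fintype.card V + k ∧ Nonempty (G ↪g H)}

/-- The extension property for the pattern `(s1, s2, s3)`. -/
def Ext {V : Type} (G : SimpleGraph V) (s1 s2 s3 : Prop) : Prop :=
  ∀ a b c : V, a ≠ b → a ≠ c → b ≠ c → ∃ v, v ≠ a ∧ v ≠ b ∧ v ≠ c ∧
    (G.Adj v a ↔ s1) ∧ (G.Adj v b ↔ s2) ∧ (G.Adj v c ↔ s3)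

/-! ### distances -/

theorem edist_le_one {W : Type} {H : SimpleGraph W} {u v : W} (h : H.Adj u v) :
    H.edist u v ≤ 1 := by
  have := edist_le (G := H) (Walk.cons h Walk.nil)
  simpa using this

theorem edist_le_two {W : Type} {H : SimpleGraph W} {u v w : W} (h1 : H.Adj u v)
    (h2 : H.Adj v w) : H.edist u w ≤ 2 := by
  have := edist_le (G := H) (Walk.cons h1 (Walk.cons h2 Walk.nil))
  simpa using this

theorem edist_le_three {W : Type} {H : SimpleGraph W} {u v w x : W} (h1 : H.Adj u v)
    (h2 : H.Adj v w) (h3 : H.Adj w x) : H.edist u x ≤ 3 := by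
  have := edist_le (G := H) (Walk.cons h1 (Walk.cons h2 (Walk.cons h3 Walk.nil)))
  simpa using this

/-- a potential bounds distances from below -/
theorem le_edist {W : Type} {H : SimpleGraph W} (f : W → ℕ)
    (hf : ∀ u v, H.Adj u v → f u ≤ f v + 1) (u v : W) (k : ℕ) (h : f v + k ≤ f u) :
    (k : ℕ∞) ≤ H.edist u v := by
  by_cases hr : H.Reachable u v
  · obtain ⟨p, hp⟩ := hr.exists_walk_length_eq_edist
    have hw : ∀ {a b : W} (q : H.Walk a b), f a ≤ f b + q.length := by
      intro a b q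
      induction q with
      | nil => simp
      | cons h q ih =>
        have := hf _ _ h
        rw [Walk.length_cons]
        omega
    have := hw p
    rw [← hp]
    exact_mod_cast (by omega : k ≤ p.length)
  · rw [edist_eq_top_of_not_reachable hr]
    exact le_top

/-! ### the lower bound -/

theorem three_le_theta {V : Type} [Fintype V] (G : SimpleGraph V) [Nonempty V]
    (hG : ∀ a b : V, a ≠ b → ∃ v, G.Adj v a ∧ G.Adj v b) {k : ℕ}
    {W : Type} [Fintype W] {H : SimpleGraph W} (hH : IsASC 3 H)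
    (hcard : Fintype.card W = Fintype.card V + k) (φ : G ↪g H) : 3 ≤ k := by
  classical
  by_contra hk
  obtain ⟨hconn, hrad, -⟩ := hH
  have hecc : ∀ u : W, ∃ v, 3 ≤ H.edist u v := by
    intro u
    have : Nonempty W := ⟨u⟩
    obtain ⟨v, hv⟩ := exists_edist_eq_eccent_of_finite (G := H) u
    refine ⟨v, ?_⟩
    rw [hv]
    calc (3 : ℕ∞) = H.radius := by rw [hrad]; rfl
      _ ≤ _ := radius_le_eccent
  have hfar : ∀ u v : W, 3 ≤ H.edist u v → u ≠ v ∧ ¬ H.Adj u v ∧
      ∀ w, ¬ (H.Adj u w ∧ H.Adj w v) := by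
    intro u v h
    refine ⟨?_, ?_, ?_⟩
    · rintro rfl
      rw [edist_self] at h
      exact absurd h (by norm_num)
    · intro h1
      have := h.trans (edist_le_one h1)
      exact absurd this (by norm_num)
    · rintro w ⟨h1, h2⟩
      have := h.trans (edist_le_two h1 h2)
      exact absurd this (by norm_num)
  -- vertices of `G` are at distance at most two
  have hφ : ∀ a b : V, ¬ 3 ≤ H.edist (φ a) (φ b) := by
    intro a b h
    obtain ⟨h1, h2, h3⟩ := hfar _ _ h
    have hab : a ≠ b := fun h => h1 (by rw [h])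
    obtain ⟨v, hv1, hv2⟩ := hG a b hab
    exact h3 (φ v) ⟨(φ.map_adj_iff.mpr hv1).symm, φ.map_adj_iff.mpr hv2⟩
  set Z : Finset W := (Finset.univ.image φ)ᶜ with hZ
  have hZcard : Z.card = k := by
    rw [hZ, Finset.card_compl, Finset.card_image_of_injective _ φ.injective, Finset.card_univ,
      hcard]
    omega
  have hmem : ∀ u : W, u ∉ Z → ∃ a, φ a = u := by
    intro u hu
    rw [hZ, Finset.mem_compl, not_not, Finset.mem_image] at hu
    obtain ⟨a, -, ha⟩ := hu
    exact ⟨a, ha⟩
  have hnZ : ∀ a, φ a ∉ Z := by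
    intro a h
    rw [hZ, Finset.mem_compl] at h
    exact h (Finset.mem_image_of_mem _ (Finset.mem_univ a))
  -- every vertex of `G` has a far vertex in `Z`
  have hfarZ : ∀ a : V, ∃ z ∈ Z, 3 ≤ H.edist (φ a) z := by
    intro a
    obtain ⟨v, hv⟩ := hecc (φ a)
    by_cases hvZ : v ∈ Z
    · exact ⟨v, hvZ, hv⟩
    · obtain ⟨b, rfl⟩ := hmem v hvZ
      exact absurd hv (hφ a b)
  obtain ⟨a0⟩ := ‹Nonempty V›
  obtain ⟨z0, hz0, hz0d⟩ := hfarZ a0
  -- an edge between the range and `Z`
  have hedge : ∃ z ∈ Z, ∃ a, H.Adj z (φ a) := by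
    by_contra hcon
    push Not at hcon
    have : ∀ {u v : W} (p : H.Walk u v), u ∈ Z → v ∈ Z := by
      intro u v p
      induction p with
      | nil => exact id
      | cons h p ih =>
        intro hu
        apply ih
        by_contra hv
        obtain ⟨b, rfl⟩ := hmem _ hv
        exact hcon _ hu b h
    obtain ⟨p⟩ := hconn.preconnected z0 (φ a0)
    exact hnZ a0 (this p hz0)
  obtain ⟨z1, hz1, a1, h1⟩ := hedge
  obtain ⟨z2, hz2, hd2⟩ := hfarZ a1
  obtain ⟨-, f1, f2⟩ := hfar _ _ hd2
  have hz12 : z1 ≠ z2 := by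
    rintro rfl
    exact f1 h1.symm
  have hk2 : Z = {z1, z2} := by
    symm
    apply Finset.eq_of_subset_of_card_le
    · intro x hx
      rw [Finset.mem_insert, Finset.mem_singleton] at hx
      rcases hx with rfl | rfl <;> assumption
    · rw [hZcard, Finset.card_pair hz12]; omega
  have hn12 : ¬ H.Adj z1 z2 := fun h => f2 z1 ⟨h1.symm, h⟩
  -- `z2` has a neighbour in the range
  obtain ⟨a2, h2⟩ : ∃ a, H.Adj z2 (φ a) := by
    have : Nontrivial W := ⟨z1, z2, hz12⟩
    obtain ⟨w, hw⟩ := hconn.preconnected.exists_adj_of_nontrivial z2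
    by_cases hwZ : w ∈ Z
    · rw [hk2, Finset.mem_insert, Finset.mem_singleton] at hwZ
      rcases hwZ with rfl | rfl
      · exact absurd hw.symm hn12
      · exact absurd hw (H.irrefl)
    · obtain ⟨b, rfl⟩ := hmem w hwZ
      exact ⟨b, hw⟩
  have ha12 : a1 ≠ a2 := by
    rintro rfl
    exact f1 h2.symm
  obtain ⟨v, hv1, hv2⟩ := hG a1 a2 ha12
  obtain ⟨z, hz, hzd⟩ := hfarZ v
  obtain ⟨-, -, g3⟩ := hfar _ _ hzd
  rw [hk2, Finset.mem_insert, Finset.mem_singleton] at hz
  rcases hz with rfl | rfl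
  · exact g3 (φ a1) ⟨φ.map_adj_iff.mpr hv1, h1.symm⟩
  · exact g3 (φ a2) ⟨φ.map_adj_iff.mpr hv2, h2.symm⟩

/-! ### the upper bound -/

section upper

variable {V : Type} (G : SimpleGraph V) (w b : V)

/-- `X`: the vertices different from and not adjacent to `w` and `b`. -/
def XX (g : V) : Prop := g ≠ w ∧ g ≠ b ∧ ¬ G.Adj g w ∧ ¬ G.Adj g b

/-- The graph with three more vertices `x = inr 0`, `y = inr 1`, `z = inr 2`. -/
def big : SimpleGraph (V ⊕ Fin 3) where
  Adj u v := match u, v with
    | Sum.inl g, Sum.inl g' => G.Adj g g'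
    | Sum.inl g, Sum.inr i => (i = 0 ∧ XX G w b g) ∨ (i = 1 ∧ g = b)
    | Sum.inr i, Sum.inl g => (i = 0 ∧ XX G w b g) ∨ (i = 1 ∧ g = b)
    | Sum.inr i, Sum.inr j => (i = 2 ∧ j ≠ 2) ∨ (i ≠ 2 ∧ j = 2)
  symm := ⟨by
    rintro (g | i) (g' | j) h
    · exact SimpleGraph.Adj.symm (G := G) h
    · exact h
    · exact h
    · rcases h with h | h
      · exact Or.inr ⟨h.2, h.1⟩
      · exact Or.inl ⟨h.2, h.1⟩⟩
  loopless := ⟨by
    rintro (g | i) h
    · exact G.irrefl h
    · rcases h with h | h
      · exact h.2 h.1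
      · exact h.1 h.2⟩

variable {G w b}

theorem ax {g : V} (h : XX G w b g) : (big G w b).Adj (Sum.inl g) (Sum.inr 0) := Or.inl ⟨rfl, h⟩
theorem ay : (big G w b).Adj (Sum.inl b) (Sum.inr 1) := Or.inr ⟨rfl, rfl⟩
theorem axz : (big G w b).Adj (Sum.inr 0) (Sum.inr 2) := Or.inr ⟨by decide, rfl⟩
theorem ayz : (big G w b).Adj (Sum.inr 1) (Sum.inr 2) := Or.inr ⟨by decide, rfl⟩
theorem ag {g g' : V} (h : G.Adj g g') : (big G w b).Adj (Sum.inl g) (Sum.inl g') := h

theorem big_edist_le (hwb : w ≠ b) (hnwb : ¬ G.Adj w b)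
    (h2 : ∀ a c : V, a ≠ c → ∃ v, G.Adj v a ∧ G.Adj v c)
    (h3 : ∀ g, g ≠ w → g ≠ b → ∃ v, G.Adj v g ∧ XX G w b v)
    (hX : ∃ g, XX G w b g) (u v : V ⊕ Fin 3)
    (huv : ¬ (u = Sum.inl w ∧ v = Sum.inr 2)) (hvu : ¬ (u = Sum.inr 2 ∧ v = Sum.inl w)) :
    (big G w b).edist u v ≤ 3 := by
  classical
  -- helper facts
  have hgg : ∀ g g' : V, (big G w b).edist (Sum.inl g) (Sum.inl g') ≤ 2 := by
    intro g g'
    by_cases h : g = g'
    · rw [h, edist_self]; exact zero_le
    · obtain ⟨v, hv1, hv2⟩ := h2 g g' h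
      exact edist_le_two (ag hv1).symm (ag hv2)
  have hgx : ∀ g : V, (big G w b).edist (Sum.inl g) (Sum.inr 0) ≤ 3 := by
    intro g
    obtain ⟨x0, hx0⟩ := hX
    by_cases h : g = x0
    · rw [h]; exact (edist_le_one (ax hx0)).trans (by norm_num)
    · obtain ⟨v, hv1, hv2⟩ := h2 g x0 h
      exact edist_le_three (ag hv1).symm (ag hv2) (ax hx0)
  have hgy : ∀ g : V, (big G w b).edist (Sum.inl g) (Sum.inr 1) ≤ 3 := by
    intro g
    by_cases h : g = b
    · rw [h]; exact (edist_le_one ay).trans (by norm_num)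
    · obtain ⟨v, hv1, hv2⟩ := h2 g b h
      exact edist_le_three (ag hv1).symm (ag hv2) ay
  have hgz : ∀ g : V, g ≠ w → (big G w b).edist (Sum.inl g) (Sum.inr 2) ≤ 3 := by
    intro g hgw
    by_cases hgb : g = b
    · rw [hgb]; exact (edist_le_two ay ayz).trans (by norm_num)
    · obtain ⟨v, hv1, hv2⟩ := h3 g hgw hgb
      exact edist_le_three (ag hv1).symm (ax hv2) axz
  have hxy : (big G w b).edist (Sum.inr 0) (Sum.inr 1) ≤ 3 :=
    (edist_le_two axz ayz.symm).trans (by norm_num)
  rcases u with g | i <;> rcases v with g' | j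
  · exact (hgg g g').trans (by norm_num)
  · fin_cases j
    · exact hgx g
    · exact hgy g
    · refine hgz g fun h => huv ⟨by rw [h], rfl⟩
  · rw [edist_comm]
    fin_cases i
    · exact hgx g'
    · exact hgy g'
    · refine hgz g' fun h => hvu ⟨rfl, by rw [h]⟩
  · fin_cases i <;> fin_cases j
    · rw [edist_self]; exact zero_le
    · exact hxy
    · exact (edist_le_one axz).trans (by norm_num)
    · rw [edist_comm]; exact hxy
    · rw [edist_self]; exact zero_le
    · exact (edist_le_one ayz).trans (by norm_num)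
    · rw [edist_comm]; exact (edist_le_one axz).trans (by norm_num)
    · rw [edist_comm]; exact (edist_le_one ayz).trans (by norm_num)
    · rw [edist_self]; exact zero_le

open Classical in
/-- distance levels from `z` -/
noncomputable def fz (G : SimpleGraph V) (w b : V) : V ⊕ Fin 3 → ℕ
  | Sum.inl g => if g = w then 4 else if XX G w b g ∨ g = b then 2 else 3
  | Sum.inr i => if i = 2 then 0 else 1

open Classical in
/-- distance levels from `y` -/
noncomputable def fy (G : SimpleGraph V) (w b : V) : V ⊕ Fin 3 → ℕ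
  | Sum.inl g => if g = b then 1 else if G.Adj g b then 2 else 3
  | Sum.inr i => if i = 1 then 0 else if i = 2 then 1 else 2

open Classical in
/-- distance levels from `x` -/
noncomputable def fx (G : SimpleGraph V) (w b : V) : V ⊕ Fin 3 → ℕ
  | Sum.inl g => if XX G w b g then 1 else if ∃ v, XX G w b v ∧ G.Adj g v then 2 else 3
  | Sum.inr i => if i = 0 then 0 else if i = 2 then 1 else 2

theorem fz_lip (hwb : w ≠ b) (hnwb : ¬ G.Adj w b) (u v : V ⊕ Fin 3)
    (h : (big G w b).Adj u v) : fz G w b u ≤ fz G w b v + 1 := by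
  classical
  rcases u with g | i <;> rcases v with g' | j
  · have h' : G.Adj g g' := h
    by_cases hgw : g = w
    · subst hgw
      have h1 : g' ≠ g := h'.ne'
      have h2 : ¬ (XX G g b g' ∨ g' = b) := by
        rintro (h2 | h2)
        · exact h2.2.2.1 h'.symm
        · rw [h2] at h'; exact hnwb h'
      simp only [fz, if_neg h1, if_neg h2, if_true]
      norm_num
    · simp only [fz, if_neg hgw]
      split_ifs <;> omega
  · rcases h with ⟨rfl, h⟩ | ⟨rfl, h⟩
    · have : g ≠ w := h.1
      simp [fz, this, h]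
    · subst h
      simp [fz, Ne.symm hwb]
  · have h1 : fz G w b (Sum.inr i) ≤ 1 := by
      simp only [fz]; split_ifs <;> omega
    omega
  · have h1 : fz G w b (Sum.inr i) ≤ 1 := by
      simp only [fz]; split_ifs <;> omega
    omega

theorem fy_lip (u v : V ⊕ Fin 3)
    (h : (big G w b).Adj u v) : fy G w b u ≤ fy G w b v + 1 := by
  classical
  rcases u with g | i <;> rcases v with g' | j
  · have h' : G.Adj g g' := h
    by_cases hgb : g' = b
    · subst hgb
      simp only [fy, if_true, if_pos h']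
      split_ifs <;> omega
    · simp only [fy, if_neg hgb]
      split_ifs <;> omega
  · rcases h with ⟨rfl, h⟩ | ⟨rfl, h⟩
    · simp only [fy]
      split_ifs <;> first | omega | simp_all
    · subst h
      simp [fy]
  · rcases h with ⟨rfl, h⟩ | ⟨rfl, h⟩
    · simp only [fy]
      split_ifs <;> first | omega | simp_all
    · subst h
      simp [fy]
  · fin_cases i <;> fin_cases j <;> simp [big, fy] at h ⊢

theorem fx_lip (u v : V ⊕ Fin 3)
    (h : (big G w b).Adj u v) : fx G w b u ≤ fx G w b v + 1 := by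
  classical
  rcases u with g | i <;> rcases v with g' | j
  · have h' : G.Adj g g' := h
    by_cases hg' : XX G w b g'
    · have h2 : ∃ v, XX G w b v ∧ G.Adj g v := ⟨g', hg', h'⟩
      simp only [fx, if_pos hg', if_pos h2]
      split_ifs <;> omega
    · simp only [fx, if_neg hg']
      split_ifs <;> omega
  · rcases h with ⟨rfl, h⟩ | ⟨rfl, h⟩
    · simp [fx, h]
    · simp only [fx]
      split_ifs <;> first | omega | simp_all
  · rcases h with ⟨rfl, h⟩ | ⟨rfl, h⟩
    · simp [fx]
    · subst h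
      have h1 : ¬ XX G w g' g' := fun h => h.2.1 rfl
      simp only [fx, if_neg h1]
      split_ifs <;> first | omega | simp_all
  · fin_cases i <;> fin_cases j <;> simp [big, fx] at h ⊢

theorem big_isASC (hwb : w ≠ b) (hnwb : ¬ G.Adj w b)
    (h2 : ∀ a c : V, a ≠ c → ∃ v, G.Adj v a ∧ G.Adj v c)
    (h3 : ∀ g, g ≠ w → g ≠ b → ∃ v, G.Adj v g ∧ XX G w b v)
    (hX : ∃ g, XX G w b g) : IsASC 3 (big G w b) := by
  classical
  have hle := big_edist_le hwb hnwb h2 h3 hX
  have hz := le_edist (H := big G w b) (fz G w b) (fz_lip hwb hnwb)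
  have hy := le_edist (H := big G w b) (fy G w b) fy_lip
  have hx := le_edist (H := big G w b) (fx G w b) fx_lip
  have hXw : ¬ XX G w b w := fun h => h.1 rfl
  have hXb : ¬ XX G w b b := fun h => h.2.1 rfl
  -- eccentricities of `w` and `z` are at least four
  have hwz : (4 : ℕ∞) ≤ (big G w b).edist (Sum.inl w) (Sum.inr 2) := by
    have := hz (Sum.inl w) (Sum.inr 2) 4 (by simp [fz])
    exact_mod_cast this
  have ew : (4 : ℕ∞) ≤ (big G w b).eccent (Sum.inl w) := hwz.trans edist_le_eccent
  have ez : (4 : ℕ∞) ≤ (big G w b).eccent (Sum.inr 2) := by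
    rw [edist_comm] at hwz
    exact hwz.trans edist_le_eccent
  -- all the eccentricities are at least three
  have ege : ∀ u, (3 : ℕ∞) ≤ (big G w b).eccent u := by
    rintro (g | i)
    · by_cases hgb : g = b
      · subst hgb
        have h1 : ¬ ∃ v, XX G w g v ∧ G.Adj g v := by
          rintro ⟨v, hv1, hv2⟩
          exact hv1.2.2.2 hv2.symm
        have := hx (Sum.inl g) (Sum.inr 0) 3 (by simp only [fx, if_neg hXb, if_neg h1]; simp)
        exact le_trans (by exact_mod_cast this) edist_le_eccent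
      · by_cases hadj : G.Adj g b
        · have hgw : g ≠ w := by rintro rfl; exact hnwb hadj
          have h1 : ¬ (XX G w b g ∨ g = b) := by
            rintro (h | h)
            · exact h.2.2.2 hadj
            · exact hgb h
          have := hz (Sum.inl g) (Sum.inr 2) 3 (by simp only [fz, if_neg hgw, if_neg h1]; simp)
          exact le_trans (by exact_mod_cast this) edist_le_eccent
        · have := hy (Sum.inl g) (Sum.inr 1) 3 (by simp only [fy, if_neg hgb, if_neg hadj]; simp)
          exact le_trans (by exact_mod_cast this) edist_le_eccent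
    · fin_cases i
      · have h1 : ¬ ∃ v, XX G w b v ∧ G.Adj w v := by
          rintro ⟨v, hv1, hv2⟩
          exact hv1.2.2.1 hv2.symm
        have := hx (Sum.inl w) (Sum.inr 0) 3 (by simp only [fx, if_neg hXw, if_neg h1]; simp)
        rw [edist_comm] at this
        exact le_trans (by exact_mod_cast this) edist_le_eccent
      · have := hy (Sum.inl w) (Sum.inr 1) 3 (by simp only [fy, if_neg hwb, if_neg hnwb]; simp)
        rw [edist_comm] at this
        exact le_trans (by exact_mod_cast this) edist_le_eccent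
      · exact le_trans (by norm_num) ez
  have ele : ∀ u, u ≠ Sum.inl w → u ≠ Sum.inr 2 → (big G w b).eccent u = 3 := by
    intro u hu1 hu2
    apply le_antisymm
    · rw [eccent_le_iff]
      intro v
      exact hle u v (fun h => hu1 h.1) (fun h => hu2 h.1)
    · exact ege u
  have hrad : (big G w b).radius = 3 := by
    apply le_antisymm
    · have := ele (Sum.inr 0) (by simp) (by simp)
      rw [← this]
      exact radius_le_eccent
    · exact le_iInf ege
  refine ⟨?_, ?_, ?_⟩
  · have : Nonempty (V ⊕ Fin 3) := ⟨Sum.inr 0⟩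
    rw [SimpleGraph.connected_iff_exists_forall_reachable]
    refine ⟨Sum.inr 0, fun v => ?_⟩
    apply reachable_of_edist_ne_top
    intro htop
    have := hle (Sum.inr 0) v (by simp) (by simp)
    rw [htop] at this
    exact absurd this (by decide)
  · rw [hrad]; rfl
  · have : {u : V ⊕ Fin 3 | (big G w b).eccent u ≠ (big G w b).radius} =
        {Sum.inl w, Sum.inr 2} := by
      ext u
      rw [hrad]
      simp only [Set.mem_ofPred_eq, Set.mem_insert_iff, Set.mem_singleton_iff]
      constructor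
      · intro h
        by_contra hcon
        push Not at hcon
        exact h (ele u hcon.1 hcon.2)
      · rintro (rfl | rfl) h
        · rw [h] at ew; exact absurd ew (by decide)
        · rw [h] at ez; exact absurd ez (by decide)
    rw [this, Set.ncard_pair (by simp)]

end upper

/-- The extension properties give `θ_3 = 3`. -/
theorem theta_eq_three {V : Type} [Fintype V] (G : SimpleGraph V) (hcard : 3 ≤ Fintype.card V)
    (h1 : Ext G True False False) (h2 : Ext G True True False) : theta 3 G = 3 := by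
  classical
  -- three distinct vertices
  obtain ⟨a, b, c, hab, hac, hbc⟩ : ∃ a b c : V, a ≠ b ∧ a ≠ c ∧ b ≠ c :=
    Fintype.two_lt_card_iff.mp (by omega)
  have hthird : ∀ x y : V, ∃ z : V, z ≠ x ∧ z ≠ y := by
    intro x y
    by_contra hcon
    push Not at hcon
    have h : (Finset.univ : Finset V) ⊆ {x, y} := by
      intro z _
      rw [Finset.mem_insert, Finset.mem_singleton]
      by_cases hz : z = x
      · exact Or.inl hz
      · exact Or.inr (hcon z hz)
    have := Finset.card_le_card h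
    rw [Finset.card_univ] at this
    have := Finset.card_le_two (a := x) (b := y)
    omega
  have hcommon : ∀ x y : V, x ≠ y → ∃ v, G.Adj v x ∧ G.Adj v y := by
    intro x y hxy
    obtain ⟨z, hz1, hz2⟩ := hthird x y
    obtain ⟨v, -, -, -, hv1, hv2, -⟩ := h2 x y z hxy (Ne.symm hz1) (Ne.symm hz2)
    exact ⟨v, hv1.mpr trivial, hv2.mpr trivial⟩
  obtain ⟨w, -, hwb, -, -, hwb', -⟩ := h1 a b c hab hac hbc
  have hnwb : ¬ G.Adj w b := fun h => hwb'.mp h
  have h3 : ∀ g, g ≠ w → g ≠ b → ∃ v, G.Adj v g ∧ XX G w b v := by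
    intro g hgw hgb
    obtain ⟨v, -, hvw, hvb, hv1, hv2, hv3⟩ := h1 g w b hgw hgb hwb
    exact ⟨v, hv1.mpr trivial, hvw, hvb, fun h => hv2.mp h, fun h => hv3.mp h⟩
  have hX : ∃ g, XX G w b g := by
    obtain ⟨z, hz1, hz2⟩ := hthird w b
    obtain ⟨v, -, hv⟩ := h3 z hz1 hz2
    exact ⟨v, hv⟩
  have hmem : 3 ∈ {k : ℕ | ∃ (W : Type) (_ : Fintype W) (H : SimpleGraph W), IsASC 3 H ∧
      Fintype.card W = Fintype.card V + k ∧ Nonempty (G ↪g H)} := by
    refine ⟨V ⊕ Fin 3, inferInstance, big G w b, big_isASC hwb hnwb hcommon h3 hX, ?_, ⟨?_⟩⟩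
    · rw [Fintype.card_sum, Fintype.card_fin]
    · exact ⟨⟨Sum.inl, Sum.inl_injective⟩, Iff.rfl⟩
  apply le_antisymm
  · exact Nat.sInf_le hmem
  · refine le_csInf ⟨3, hmem⟩ ?_
    rintro k ⟨W, _, H, hH, hc, ⟨φ⟩⟩
    have : Nonempty V := ⟨a⟩
    exact three_le_theta G hcommon hH hc φ

end Pool.Agent.Q259.ASC
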