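import Mathlib

set_option autoImplicit false

/-! Asymptotic spectrum of (infinite) graphs: two spectral points which agree on finite graphs. -/

namespace Pool.Agent.Q259.AsymSpec

open Finset

/-- `G ≤ H`: there is a cohomomorphism, a map sending distinct non-adjacent vertices to distinct
non-adjacent vertices. -/
def CoLE {V W : Type} (G : SimpleGraph V) (H : SimpleGraph W) : Prop :=
  ∃ f : V → W, ∀ u v, u ≠ v → ¬ G.Adj u v → f u ≠ f v ∧ ¬ H.Adj (f u) (f v)

theorem CoLE.refl {V : Type} (G : SimpleGraph V) : CoLE G G := ⟨id, fun _ _ h1 h2 => ⟨h1, h2⟩⟩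

theorem CoLE.trans {V W U : Type} {G : SimpleGraph V} {H : SimpleGraph W} {K : SimpleGraph U}
    (h1 : CoLE G H) (h2 : CoLE H K) : CoLE G K := by
  obtain ⟨f, hf⟩ := h1
  obtain ⟨g, hg⟩ := h2
  refine ⟨g ∘ f, fun u v huv hn => ?_⟩
  obtain ⟨h3, h4⟩ := hf u v huv hn
  exact hg _ _ h3 h4

/-- disjoint union -/
def dsum {V W : Type} (G : SimpleGraph V) (H : SimpleGraph W) : SimpleGraph (V ⊕ W) where
  Adj a b := match a, b with
    | Sum.inl u, Sum.inl v => G.Adj u v
    | Sum.inr u, Sum.inr v => H.Adj u v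
    | _, _ => False
  symm := ⟨by
    rintro (u | u) (v | v) h
    · exact SimpleGraph.Adj.symm (G := G) h
    · exact h
    · exact h
    · exact SimpleGraph.Adj.symm (G := H) h⟩
  loopless := ⟨by
    rintro (u | u) h
    · exact G.irrefl h
    · exact H.irrefl h⟩

/-- strong product -/
def strong {V W : Type} (G : SimpleGraph V) (H : SimpleGraph W) : SimpleGraph (V × W) where
  Adj a b := a ≠ b ∧ (a.1 = b.1 ∨ G.Adj a.1 b.1) ∧ (a.2 = b.2 ∨ H.Adj a.2 b.2)
  symm := ⟨by
    rintro a b ⟨h1, h2, h3⟩
    refine ⟨h1.symm, ?_, ?_⟩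
    · rcases h2 with h | h
      · exact Or.inl h.symm
      · exact Or.inr h.symm
    · rcases h3 with h | h
      · exact Or.inl h.symm
      · exact Or.inr h.symm⟩
  loopless := ⟨by
    rintro a ⟨h, -⟩
    exact h rfl⟩

/-! ### fractional covers -/

/-- A `b`-fold cover with at most `a` colours: every vertex gets at least `b` colours, distinct
non-adjacent vertices get disjoint sets of colours. -/
def cov {V : Type} (G : SimpleGraph V) (a b : ℕ) : Prop :=
  ∃ (c : V → Finset ℕ) (C : Finset ℕ), C.card ≤ a ∧ (∀ v, c v ⊆ C) ∧ (∀ v, b ≤ (c v).card) ∧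
    ∀ u v, u ≠ v → ¬ G.Adj u v → Disjoint (c u) (c v)

theorem cov_of_encodable {V κ : Type} [Encodable κ] (G : SimpleGraph V)
    (a b : ℕ) (c : V → Finset κ) (C : Finset κ) (h1 : C.card ≤ a) (h2 : ∀ v, c v ⊆ C)
    (h3 : ∀ v, b ≤ (c v).card) (h4 : ∀ u v, u ≠ v → ¬ G.Adj u v → Disjoint (c u) (c v)) :
    cov G a b := by
  let e : κ ↪ ℕ := ⟨Encodable.encode, Encodable.encode_injective⟩
  refine ⟨fun v => (c v).map e, C.map e, ?_, ?_, ?_, ?_⟩
  · rw [Finset.card_map]; exact h1
  · intro v; exact Finset.map_subset_map.mpr (h2 v)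
  · intro v; rw [Finset.card_map]; exact h3 v
  · intro u v huv hn
    rw [Finset.disjoint_map]
    exact h4 u v huv hn

theorem cov_mono {V W : Type} {G : SimpleGraph V} {H : SimpleGraph W} (h : CoLE G H) {a b : ℕ}
    (hc : cov H a b) : cov G a b := by
  obtain ⟨f, hf⟩ := h
  obtain ⟨c, C, h1, h2, h3, h4⟩ := hc
  refine ⟨fun v => c (f v), C, h1, fun v => h2 _, fun v => h3 _, fun u v huv hn => ?_⟩
  obtain ⟨h5, h6⟩ := hf u v huv hn
  exact h4 _ _ h5 h6

/-- the values `a / b` of the covers -/
def vals {V : Type} (G : SimpleGraph V) : Set ℝ :=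
  {x | ∃ a b : ℕ, 1 ≤ b ∧ cov G a b ∧ x = (a : ℝ) / b}

/-- the upper spectral point -/
noncomputable def Fup {V : Type} (G : SimpleGraph V) : ℝ := sInf (vals G)

theorem vals_nonneg {V : Type} (G : SimpleGraph V) : ∀ x ∈ vals G, 0 ≤ x := by
  rintro x ⟨a, b, -, -, rfl⟩
  positivity

theorem vals_bdd {V : Type} (G : SimpleGraph V) : BddBelow (vals G) :=
  ⟨0, fun _ hx => vals_nonneg G _ hx⟩

/-- finite clique covering number -/
def FinCov {V : Type} (G : SimpleGraph V) : Prop :=
  ∃ n : ℕ, CoLE G (⊥ : SimpleGraph (Fin n))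

theorem cov_bot (n : ℕ) : cov (⊥ : SimpleGraph (Fin n)) n 1 := by
  refine ⟨fun v => {v.val}, Finset.range n, by simp, ?_, ?_, ?_⟩
  · intro v; simp
  · intro v; simp
  · intro u v huv _
    rw [Finset.disjoint_singleton]
    exact fun h => huv (Fin.ext h)

theorem vals_nonempty {V : Type} {G : SimpleGraph V} (h : FinCov G) : (vals G).Nonempty := by
  obtain ⟨n, hn⟩ := h
  exact ⟨_, n, 1, le_rfl, cov_mono hn (cov_bot n), rfl⟩

theorem Fup_nonneg {V : Type} (G : SimpleGraph V) : 0 ≤ Fup G :=
  Real.sInf_nonneg (vals_nonneg G)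

theorem Fup_le {V : Type} {G : SimpleGraph V} {a b : ℕ} (hb : 1 ≤ b) (h : cov G a b) :
    Fup G ≤ (a : ℝ) / b := csInf_le (vals_bdd G) ⟨a, b, hb, h, rfl⟩

theorem mul_Fup_le {V : Type} {G : SimpleGraph V} {a b : ℕ} (h : cov G a b) :
    (b : ℝ) * Fup G ≤ a := by
  rcases Nat.eq_zero_or_pos b with hb | hb
  · rw [hb]; simp
  · have := Fup_le hb h
    rw [le_div_iff₀ (by exact_mod_cast hb)] at this
    linarith

theorem Fup_mono {V W : Type} {G : SimpleGraph V} {H : SimpleGraph W} (h : CoLE G H)
    (hH : FinCov H) : Fup G ≤ Fup H := by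
  refine le_csInf (vals_nonempty hH) ?_
  rintro x ⟨a, b, hb, hc, rfl⟩
  exact Fup_le hb (cov_mono h hc)

theorem Fup_bot (n : ℕ) : Fup (⊥ : SimpleGraph (Fin n)) = n := by
  apply le_antisymm
  · have := Fup_le le_rfl (cov_bot n)
    simpa using this
  · refine le_csInf (vals_nonempty ⟨n, CoLE.refl _⟩) ?_
    rintro x ⟨a, b, hb, ⟨c, C, h1, h2, h3, h4⟩, rfl⟩
    rw [le_div_iff₀ (by exact_mod_cast hb)]
    have h5 : ∑ v : Fin n, (c v).card ≤ C.card := by
      rw [← Finset.card_biUnion]
      · exact Finset.card_le_card (Finset.biUnion_subset.mpr fun v _ => h2 v)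
      · intro u _ v _ huv
        exact h4 u v huv (by simp)
    have h6 : n * b ≤ ∑ v : Fin n, (c v).card := by
      calc n * b = ∑ _v : Fin n, b := by simp
        _ ≤ _ := Finset.sum_le_sum fun v _ => h3 v
    exact_mod_cast h6.trans (h5.trans h1)

/-! ### sums -/

theorem FinCov.sum {V W : Type} {G : SimpleGraph V} {H : SimpleGraph W} (hG : FinCov G)
    (hH : FinCov H) : FinCov (dsum G H) := by
  obtain ⟨n, f, hf⟩ := hG
  obtain ⟨m, g, hg⟩ := hH
  refine ⟨n + m, fun x => match x with
    | Sum.inl u => Fin.castAdd m (f u)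
    | Sum.inr v => Fin.natAdd n (g v), ?_⟩
  rintro (u | u) (v | v) huv hn
  · have huv' : u ≠ v := fun h => huv (by rw [h])
    refine ⟨fun h => (hf u v huv' hn).1 (Fin.castAdd_injective n m h), by simp⟩
  · refine ⟨fun h => ?_, by simp⟩
    have := congrArg Fin.val h
    simp only [Fin.val_castAdd, Fin.val_natAdd] at this
    have := (f u).isLt
    omega
  · refine ⟨fun h => ?_, by simp⟩
    have := congrArg Fin.val h
    simp only [Fin.val_castAdd, Fin.val_natAdd] at this
    have := (f v).isLt
    omega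
  · have huv' : u ≠ v := fun h => huv (by rw [h])
    refine ⟨fun h => (hg u v huv' hn).1 (Fin.natAdd_injective m n h), by simp⟩

theorem cov_sum {V W : Type} {G : SimpleGraph V} {H : SimpleGraph W} {a a' b : ℕ}
    (h : cov G a b) (h' : cov H a' b) : cov (dsum G H) (a + a') b := by
  obtain ⟨c, C, h1, h2, h3, h4⟩ := h
  obtain ⟨c', C', h1', h2', h3', h4'⟩ := h'
  refine cov_of_encodable (κ := ℕ ⊕ ℕ) _ _ _ (fun x => match x with
    | Sum.inl u => (c u).map ⟨Sum.inl, Sum.inl_injective⟩
    | Sum.inr v => (c' v).map ⟨Sum.inr, Sum.inr_injective⟩) (C.disjSum C') ?_ ?_ ?_ ?_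
  · rw [Finset.card_disjSum]; omega
  · rintro (u | u) x hx
    · rw [Finset.mem_map] at hx
      obtain ⟨y, hy, rfl⟩ := hx
      exact Finset.inl_mem_disjSum.mpr (h2 u hy)
    · rw [Finset.mem_map] at hx
      obtain ⟨y, hy, rfl⟩ := hx
      exact Finset.inr_mem_disjSum.mpr (h2' u hy)
  · rintro (u | u)
    · simpa using h3 u
    · simpa using h3' u
  · rintro (u | u) (v | v) huv hn
    · have huv' : u ≠ v := fun h => huv (by rw [h])
      simp only
      rw [Finset.disjoint_map]
      exact h4 u v huv' hn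
    · rw [Finset.disjoint_left]
      intro x hx hx'
      rw [Finset.mem_map] at hx hx'
      obtain ⟨y, -, rfl⟩ := hx
      obtain ⟨z, -, hz⟩ := hx'
      exact absurd hz (by simp)
    · rw [Finset.disjoint_left]
      intro x hx hx'
      rw [Finset.mem_map] at hx hx'
      obtain ⟨y, -, rfl⟩ := hx
      obtain ⟨z, -, hz⟩ := hx'
      exact absurd hz (by simp)
    · have huv' : u ≠ v := fun h => huv (by rw [h])
      simp only
      rw [Finset.disjoint_map]
      exact h4' u v huv' hn

/-- products of covers of the strong product -/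
theorem cov_prod {V W : Type} {G : SimpleGraph V} {H : SimpleGraph W} {a a' b b' : ℕ}
    (h : cov G a b) (h' : cov H a' b') : cov (strong G H) (a * a') (b * b') := by
  obtain ⟨c, C, h1, h2, h3, h4⟩ := h
  obtain ⟨c', C', h1', h2', h3', h4'⟩ := h'
  refine cov_of_encodable (κ := ℕ × ℕ) _ _ _ (fun x => c x.1 ×ˢ c' x.2) (C ×ˢ C') ?_ ?_ ?_ ?_
  · rw [Finset.card_product]; exact Nat.mul_le_mul h1 h1'
  · intro x; exact Finset.product_subset_product (h2 _) (h2' _)
  · intro x; rw [Finset.card_product]; exact Nat.mul_le_mul (h3 _) (h3' _)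
  · rintro ⟨u, u'⟩ ⟨v, v'⟩ huv hn
    have hcase : (u ≠ v ∧ ¬ G.Adj u v) ∨ (u' ≠ v' ∧ ¬ H.Adj u' v') := by
      by_contra hcon
      push Not at hcon
      apply hn
      refine ⟨huv, ?_, ?_⟩
      · by_cases h : u = v
        · exact Or.inl h
        · exact Or.inr (hcon.1 h)
      · by_cases h : u' = v'
        · exact Or.inl h
        · exact Or.inr (hcon.2 h)
    rw [Finset.disjoint_product]
    rcases hcase with ⟨h5, h6⟩ | ⟨h5, h6⟩
    · exact Or.inl (h4 _ _ h5 h6)
    · exact Or.inr (h4' _ _ h5 h6)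

/-- a cover remains a cover when it is repeated -/
theorem cov_mul {V : Type} {G : SimpleGraph V} {a b : ℕ} (h : cov G a b) (k : ℕ) :
    cov G (a * k) (b * k) := by
  obtain ⟨c, C, h1, h2, h3, h4⟩ := h
  refine cov_of_encodable (κ := ℕ × ℕ) _ _ _ (fun x => c x ×ˢ Finset.range k)
    (C ×ˢ Finset.range k) ?_ ?_ ?_ ?_
  · rw [Finset.card_product, Finset.card_range]; exact Nat.mul_le_mul_right k h1
  · intro x; exact Finset.product_subset_product (h2 _) (Finset.Subset.refl _)
  · intro x; rw [Finset.card_product, Finset.card_range]; exact Nat.mul_le_mul_right k (h3 x)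
  · intro u v huv hn
    rw [Finset.disjoint_product]
    exact Or.inl (h4 _ _ huv hn)

theorem Fup_sum {V W : Type} {G : SimpleGraph V} {H : SimpleGraph W} (hG : FinCov G)
    (hH : FinCov H) : Fup (dsum G H) = Fup G + Fup H := by
  apply le_antisymm
  · -- upper bound
    have h1 : ∀ x ∈ vals G, ∀ y ∈ vals H, Fup (dsum G H) ≤ x + y := by
      rintro x ⟨a, b, hb, hc, rfl⟩ y ⟨a', b', hb', hc', rfl⟩
      have h2 := cov_sum (cov_mul hc b') (by
        have := cov_mul hc' b
        rwa [Nat.mul_comm b' b] at this)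
      have hb0 : (0 : ℝ) < b := by exact_mod_cast hb
      have hb0' : (0 : ℝ) < b' := by exact_mod_cast hb'
      have h3 := Fup_le (Nat.mul_pos hb hb') h2
      refine h3.trans (le_of_eq ?_)
      push_cast
      field_simp
    have h2 : ∀ x ∈ vals G, Fup (dsum G H) - x ≤ Fup H := by
      intro x hx
      refine le_csInf (vals_nonempty hH) fun y hy => ?_
      have := h1 x hx y hy
      linarith
    have h3 : Fup (dsum G H) - Fup H ≤ Fup G := by
      refine le_csInf (vals_nonempty hG) fun x hx => ?_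
      have := h2 x hx
      linarith
    linarith
  · refine le_csInf (vals_nonempty (hG.sum hH)) ?_
    rintro x ⟨a, b, hb, ⟨c, C, h1, h2, h3, h4⟩, rfl⟩
    classical
    -- colours used on the two parts
    set A : Finset ℕ := C.filter fun x => ∃ u : V, x ∈ c (Sum.inl u) with hA
    set B : Finset ℕ := C.filter fun x => ∃ u : W, x ∈ c (Sum.inr u) with hB
    have hdisj : Disjoint A B := by
      rw [Finset.disjoint_left]
      intro x hx hx'
      rw [hA, Finset.mem_filter] at hx
      rw [hB, Finset.mem_filter] at hx'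
      obtain ⟨-, u, hu⟩ := hx
      obtain ⟨-, v, hv⟩ := hx'
      have := h4 (Sum.inl u) (Sum.inr v) (by simp) (fun h => h)
      exact (Finset.disjoint_left.mp this hu) hv
    have hcardAB : A.card + B.card ≤ a := by
      rw [← Finset.card_union_of_disjoint hdisj]
      refine le_trans (Finset.card_le_card ?_) h1
      exact Finset.union_subset (Finset.filter_subset _ _) (Finset.filter_subset _ _)
    have hcA : cov G A.card b := by
      refine ⟨fun u => c (Sum.inl u), A, le_rfl, fun u x hx => ?_, fun u => h3 _,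
        fun u v huv hn => ?_⟩
      · rw [hA, Finset.mem_filter]; exact ⟨h2 _ hx, u, hx⟩
      · exact h4 _ _ (fun h => huv (Sum.inl_injective h)) hn
    have hcB : cov H B.card b := by
      refine ⟨fun u => c (Sum.inr u), B, le_rfl, fun u x hx => ?_, fun u => h3 _,
        fun u v huv hn => ?_⟩
      · rw [hB, Finset.mem_filter]; exact ⟨h2 _ hx, u, hx⟩
      · exact h4 _ _ (fun h => huv (Sum.inr_injective h)) hn
    have hb0 : (0 : ℝ) < b := by exact_mod_cast hb
    rw [le_div_iff₀ hb0]
    have e1 := mul_Fup_le hcA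
    have e2 := mul_Fup_le hcB
    have e3 : (A.card : ℝ) + B.card ≤ a := by exact_mod_cast hcardAB
    nlinarith

/-! ### products -/

theorem FinCov.prod {V W : Type} {G : SimpleGraph V} {H : SimpleGraph W} (hG : FinCov G)
    (hH : FinCov H) : FinCov (strong G H) := by
  obtain ⟨n, f, hf⟩ := hG
  obtain ⟨m, g, hg⟩ := hH
  refine ⟨n * m, fun x => finProdFinEquiv (f x.1, g x.2), ?_⟩
  rintro ⟨u, u'⟩ ⟨v, v'⟩ huv hn
  have hcase : (u ≠ v ∧ ¬ G.Adj u v) ∨ (u' ≠ v' ∧ ¬ H.Adj u' v') := by
    by_contra hcon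
    push Not at hcon
    apply hn
    refine ⟨huv, ?_, ?_⟩
    · by_cases h : u = v
      · exact Or.inl h
      · exact Or.inr (hcon.1 h)
    · by_cases h : u' = v'
      · exact Or.inl h
      · exact Or.inr (hcon.2 h)
  refine ⟨fun h => ?_, by simp⟩
  have h1 := finProdFinEquiv.injective h
  rcases hcase with ⟨h5, h6⟩ | ⟨h5, h6⟩
  · exact (hf _ _ h5 h6).1 (congrArg Prod.fst h1)
  · exact (hg _ _ h5 h6).1 (congrArg Prod.snd h1)

theorem Fup_prod {V W : Type} {G : SimpleGraph V} {H : SimpleGraph W} (hG : FinCov G)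
    (hH : FinCov H) : Fup (strong G H) = Fup G * Fup H := by
  apply le_antisymm
  · have h1 : ∀ x ∈ vals G, ∀ y ∈ vals H, Fup (strong G H) ≤ x * y := by
      rintro x ⟨a, b, hb, hc, rfl⟩ y ⟨a', b', hb', hc', rfl⟩
      have h3 := Fup_le (Nat.mul_pos hb hb') (cov_prod hc hc')
      refine h3.trans (le_of_eq ?_)
      push_cast
      rw [mul_div_mul_comm]
    have h2 : ∀ x ∈ vals G, Fup (strong G H) ≤ x * Fup H := by
      intro x hx
      have hx0 := vals_nonneg G x hx
      rcases eq_or_lt_of_le hx0 with h | h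
      · obtain ⟨y, hy⟩ := vals_nonempty hH
        have := h1 x hx y hy
        rw [← h] at this ⊢
        simpa using this
      · have : Fup (strong G H) / x ≤ Fup H := by
          refine le_csInf (vals_nonempty hH) fun y hy => ?_
          rw [div_le_iff₀ h]
          have := h1 x hx y hy
          linarith
        rw [div_le_iff₀ h] at this
        linarith
    rcases eq_or_lt_of_le (Fup_nonneg H) with h | h
    · obtain ⟨x, hx⟩ := vals_nonempty hG
      have := h2 x hx
      rw [← h] at this ⊢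
      simpa using this
    · have : Fup (strong G H) / Fup H ≤ Fup G := by
        refine le_csInf (vals_nonempty hG) fun x hx => ?_
        rw [div_le_iff₀ h]
        exact h2 x hx
      rwa [div_le_iff₀ h] at this
  · refine le_csInf (vals_nonempty (hG.prod hH)) ?_
    rintro x ⟨a, b, hb, ⟨c, C, h1, h2, h3, h4⟩, rfl⟩
    classical
    set D : V → Finset ℕ := fun g => C.filter fun x => ∃ h : W, x ∈ c (g, h) with hD
    have hDcov : ∀ g, cov H (D g).card b := by
      intro g
      refine ⟨fun h => c (g, h), D g, le_rfl, fun h x hx => ?_, fun h => h3 _,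
        fun u v huv hn => ?_⟩
      · rw [hD, Finset.mem_filter]; exact ⟨h2 _ hx, h, hx⟩
      · refine h4 _ _ (fun h => huv (congrArg Prod.snd h)) ?_
        rintro ⟨-, -, h⟩
        rcases h with h | h
        · exact huv h
        · exact hn h
    set m : ℕ := ⌈(b : ℝ) * Fup H⌉₊ with hm
    have hDm : ∀ g, m ≤ (D g).card := by
      intro g
      rw [hm, Nat.ceil_le]
      exact mul_Fup_le (hDcov g)
    have hcov : cov G a m := by
      refine ⟨D, C, h1, fun v => Finset.filter_subset _ _, hDm, fun u v huv hn => ?_⟩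
      rw [Finset.disjoint_left]
      intro x hx hx'
      rw [hD, Finset.mem_filter] at hx hx'
      obtain ⟨-, h, hh⟩ := hx
      obtain ⟨-, h', hh'⟩ := hx'
      have := h4 (u, h) (v, h') (fun e => huv (congrArg Prod.fst e)) (by
        rintro ⟨-, e, -⟩
        rcases e with e | e
        · exact huv e
        · exact hn e)
      exact (Finset.disjoint_left.mp this hh) hh'
    have hb0 : (0 : ℝ) < b := by exact_mod_cast hb
    rw [le_div_iff₀ hb0]
    have e1 := mul_Fup_le hcov
    have e2 : (b : ℝ) * Fup H ≤ m := Nat.le_ceil _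
    have e3 := Fup_nonneg G
    nlinarith

/-! ### the lower spectral point -/

/-- the values of `Fup` at the finite induced subgraphs -/
def lvals {V : Type} (G : SimpleGraph V) : Set ℝ :=
  {x | ∃ s : Set V, s.Finite ∧ x = Fup (G.induce s)}

/-- the lower spectral point -/
noncomputable def Flow {V : Type} (G : SimpleGraph V) : ℝ := sSup (lvals G)

theorem induce_le {V : Type} (G : SimpleGraph V) (s : Set V) : CoLE (G.induce s) G :=
  ⟨Subtype.val, fun u v huv hn => ⟨fun h => huv (Subtype.ext h), hn⟩⟩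

theorem FinCov.mono {V W : Type} {G : SimpleGraph V} {H : SimpleGraph W} (h : CoLE G H)
    (hH : FinCov H) : FinCov G := by
  obtain ⟨n, hn⟩ := hH
  exact ⟨n, h.trans hn⟩

theorem lvals_le {V : Type} {G : SimpleGraph V} (hG : FinCov G) : ∀ x ∈ lvals G, x ≤ Fup G := by
  rintro x ⟨s, -, rfl⟩
  exact Fup_mono (induce_le G s) hG

theorem lvals_bdd {V : Type} {G : SimpleGraph V} (hG : FinCov G) : BddAbove (lvals G) :=
  ⟨Fup G, fun _ hx => lvals_le hG _ hx⟩

theorem lvals_nonempty {V : Type} (G : SimpleGraph V) : (lvals G).Nonempty :=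
  ⟨_, ∅, Set.finite_empty, rfl⟩

theorem le_Flow {V : Type} {G : SimpleGraph V} (hG : FinCov G) {s : Set V} (hs : s.Finite) :
    Fup (G.induce s) ≤ Flow G := le_csSup (lvals_bdd hG) ⟨s, hs, rfl⟩

theorem Flow_nonneg {V : Type} {G : SimpleGraph V} (hG : FinCov G) : 0 ≤ Flow G :=
  (Fup_nonneg _).trans (le_Flow hG Set.finite_empty)

theorem Flow_le_of {V : Type} {G : SimpleGraph V} {x : ℝ}
    (h : ∀ s : Set V, s.Finite → Fup (G.induce s) ≤ x) : Flow G ≤ x := by
  refine csSup_le (lvals_nonempty G) ?_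
  rintro y ⟨s, hs, rfl⟩
  exact h s hs

theorem Flow_mono {V W : Type} {G : SimpleGraph V} {H : SimpleGraph W} (h : CoLE G H)
    (hH : FinCov H) : Flow G ≤ Flow H := by
  refine Flow_le_of fun s hs => ?_
  obtain ⟨f, hf⟩ := h
  refine le_trans (Fup_mono (H := H.induce (f '' s)) ?_ (hH.mono (induce_le _ _)))
    (le_Flow hH (hs.image f))
  refine ⟨fun u => ⟨f u.1, Set.mem_image_of_mem f u.2⟩, fun u v huv hn => ?_⟩
  obtain ⟨h1, h2⟩ := hf u.1 v.1 (fun h => huv (Subtype.ext h)) hn
  exact ⟨fun h => h1 (congrArg Subtype.val h), h2⟩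

/-- on finite graphs the two points agree -/
theorem Flow_eq_of_finite {V : Type} [Finite V] {G : SimpleGraph V} (hG : FinCov G) :
    Flow G = Fup G := by
  apply le_antisymm
  · exact Flow_le_of fun s _ => Fup_mono (induce_le G s) hG
  · refine le_trans (Fup_mono (H := G.induce Set.univ) ?_ (hG.mono (induce_le _ _)))
      (le_Flow hG Set.finite_univ)
    exact ⟨fun u => ⟨u, Set.mem_univ u⟩, fun u v huv hn =>
      ⟨fun h => huv (congrArg Subtype.val h), hn⟩⟩

theorem finCov_bot (n : ℕ) : FinCov (⊥ : SimpleGraph (Fin n)) := ⟨n, CoLE.refl _⟩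

theorem Flow_bot (n : ℕ) : Flow (⊥ : SimpleGraph (Fin n)) = n := by
  rw [Flow_eq_of_finite (finCov_bot n), Fup_bot]

theorem Flow_sum {V W : Type} {G : SimpleGraph V} {H : SimpleGraph W} (hG : FinCov G)
    (hH : FinCov H) : Flow (dsum G H) = Flow G + Flow H := by
  apply le_antisymm
  · refine Flow_le_of fun r hr => ?_
    set s : Set V := Sum.inl ⁻¹' r with hs
    set t : Set W := Sum.inr ⁻¹' r with ht
    have hsf : s.Finite := hr.preimage Sum.inl_injective.injOn
    have htf : t.Finite := hr.preimage Sum.inr_injective.injOn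
    have h1 : CoLE ((dsum G H).induce r) (dsum (G.induce s) (H.induce t)) := by
      refine ⟨fun x => match x with
        | ⟨Sum.inl u, hu⟩ => Sum.inl ⟨u, hu⟩
        | ⟨Sum.inr u, hu⟩ => Sum.inr ⟨u, hu⟩, ?_⟩
      rintro ⟨u | u, hu⟩ ⟨v | v, hv⟩ huv hn
      · refine ⟨fun h => huv ?_, hn⟩
        have h2 : (⟨u, hu⟩ : s) = ⟨v, hv⟩ := Sum.inl_injective h
        have h3 : u = v := congrArg Subtype.val h2
        exact Subtype.ext (congrArg Sum.inl h3)
      · exact ⟨by simp, fun h => h⟩
      · exact ⟨by simp, fun h => h⟩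
      · refine ⟨fun h => huv ?_, hn⟩
        have h2 : (⟨u, hu⟩ : t) = ⟨v, hv⟩ := Sum.inr_injective h
        have h3 : u = v := congrArg Subtype.val h2
        exact Subtype.ext (congrArg Sum.inr h3)
    have hGs := hG.mono (induce_le G s)
    have hHt := hH.mono (induce_le H t)
    refine (Fup_mono h1 (hGs.sum hHt)).trans ?_
    rw [Fup_sum hGs hHt]
    exact add_le_add (le_Flow hG hsf) (le_Flow hH htf)
  · have key : ∀ s : Set V, s.Finite → ∀ t : Set W, t.Finite →
        Fup (G.induce s) + Fup (H.induce t) ≤ Flow (dsum G H) := by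
      intro s hs t ht
      have hGs := hG.mono (induce_le G s)
      have hHt := hH.mono (induce_le H t)
      rw [← Fup_sum hGs hHt]
      refine le_trans (Fup_mono (H := (dsum G H).induce (Sum.inl '' s ∪ Sum.inr '' t)) ?_
        ((hG.sum hH).mono (induce_le _ _))) (le_Flow (hG.sum hH)
          ((hs.image _).union (ht.image _)))
      refine ⟨fun x => match x with
        | Sum.inl u => ⟨Sum.inl u.1, Or.inl (Set.mem_image_of_mem _ u.2)⟩
        | Sum.inr u => ⟨Sum.inr u.1, Or.inr (Set.mem_image_of_mem _ u.2)⟩, ?_⟩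
      rintro (u | u) (v | v) huv hn
      · refine ⟨fun h => huv ?_, hn⟩
        have h2 := congrArg Subtype.val h
        exact congrArg Sum.inl (Subtype.ext (Sum.inl_injective h2))
      · refine ⟨fun h => ?_, fun h => h⟩
        have h2 := congrArg Subtype.val h
        exact absurd h2 (by simp)
      · refine ⟨fun h => ?_, fun h => h⟩
        have h2 := congrArg Subtype.val h
        exact absurd h2 (by simp)
      · refine ⟨fun h => huv ?_, hn⟩
        have h2 := congrArg Subtype.val h
        exact congrArg Sum.inr (Subtype.ext (Sum.inr_injective h2))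
    have h2 : ∀ t : Set W, t.Finite → Flow G ≤ Flow (dsum G H) - Fup (H.induce t) := by
      intro t ht
      refine Flow_le_of fun s hs => ?_
      have := key s hs t ht
      linarith
    have h3 : Flow H ≤ Flow (dsum G H) - Flow G := by
      refine Flow_le_of fun t ht => ?_
      have := h2 t ht
      linarith
    linarith

theorem Flow_prod {V W : Type} {G : SimpleGraph V} {H : SimpleGraph W} (hG : FinCov G)
    (hH : FinCov H) : Flow (strong G H) = Flow G * Flow H := by
  apply le_antisymm
  · refine Flow_le_of fun r hr => ?_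
    set s : Set V := Prod.fst '' r with hs
    set t : Set W := Prod.snd '' r with ht
    have hsf : s.Finite := hr.image _
    have htf : t.Finite := hr.image _
    have h1 : CoLE ((strong G H).induce r) (strong (G.induce s) (H.induce t)) := by
      refine ⟨fun x => (⟨x.1.1, Set.mem_image_of_mem _ x.2⟩, ⟨x.1.2, Set.mem_image_of_mem _ x.2⟩),
        fun u v huv hn => ⟨fun h => huv ?_, fun h => hn ?_⟩⟩
      · have h2 := congrArg (fun z => (z.1 : V)) h
        have h3 := congrArg (fun z => (z.2 : W)) h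
        exact Subtype.ext (Prod.ext h2 h3)
      · obtain ⟨-, h2, h3⟩ := h
        refine ⟨fun e => huv (Subtype.ext e), ?_, ?_⟩
        · rcases h2 with h | h
          · exact Or.inl (congrArg Subtype.val h)
          · exact Or.inr h
        · rcases h3 with h | h
          · exact Or.inl (congrArg Subtype.val h)
          · exact Or.inr h
    have hGs := hG.mono (induce_le G s)
    have hHt := hH.mono (induce_le H t)
    refine (Fup_mono h1 (hGs.prod hHt)).trans ?_
    rw [Fup_prod hGs hHt]
    exact mul_le_mul (le_Flow hG hsf) (le_Flow hH htf) (Fup_nonneg _) (Flow_nonneg hG)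
  · have key : ∀ s : Set V, s.Finite → ∀ t : Set W, t.Finite →
        Fup (G.induce s) * Fup (H.induce t) ≤ Flow (strong G H) := by
      intro s hs t ht
      have hGs := hG.mono (induce_le G s)
      have hHt := hH.mono (induce_le H t)
      rw [← Fup_prod hGs hHt]
      refine le_trans (Fup_mono (H := (strong G H).induce (s ×ˢ t)) ?_
        ((hG.prod hH).mono (induce_le _ _))) (le_Flow (hG.prod hH) (hs.prod ht))
      refine ⟨fun x => ⟨(x.1.1, x.2.1), ⟨x.1.2, x.2.2⟩⟩,
        fun u v huv hn => ⟨fun h => huv ?_, fun h => hn ?_⟩⟩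
      · have h2 := congrArg (fun z => z.1.1) h
        have h3 := congrArg (fun z => z.1.2) h
        exact Prod.ext (Subtype.ext h2) (Subtype.ext h3)
      · obtain ⟨-, h2, h3⟩ := h
        refine ⟨huv, ?_, ?_⟩
        · rcases h2 with h | h
          · exact Or.inl (Subtype.ext h)
          · exact Or.inr h
        · rcases h3 with h | h
          · exact Or.inl (Subtype.ext h)
          · exact Or.inr h
    have h2 : ∀ t : Set W, t.Finite → Flow G * Fup (H.induce t) ≤ Flow (strong G H) := by
      intro t ht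
      rcases eq_or_lt_of_le (Fup_nonneg (H.induce t)) with h | h
      · rw [← h, mul_zero]; exact Flow_nonneg (hG.prod hH)
      · rw [← le_div_iff₀ h]
        refine Flow_le_of fun s hs => ?_
        rw [le_div_iff₀ h]
        exact key s hs t ht
    rcases eq_or_lt_of_le (Flow_nonneg hG) with h | h
    · rw [← h, zero_mul]; exact Flow_nonneg (hG.prod hH)
    · rw [mul_comm, ← le_div_iff₀ h]
      refine Flow_le_of fun t ht => ?_
      rw [le_div_iff₀ h, mul_comm]
      exact h2 t ht

end Pool.Agent.Q259.AsymSpec
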