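import Mathlib.Combinatorics.SimpleGraph.Walk.Decomp
import Mathlib.Data.Real.Basic
import Mathlib.Tactic
import Mathlib.Combinatorics.SimpleGraph.DegreeSum
import Mathlib.Combinatorics.SimpleGraph.Paths
import Mathlib.Combinatorics.SimpleGraph.Connectivity.Connected
import Mathlib.Algebra.BigOperators.Group.List.Basic

set_option autoImplicit false

namespace Pool.Agent.Q259.EulerTour

open SimpleGraph Finset

variable {V : Type*} [Fintype V] [DecidableEq V] (G : SimpleGraph V) [DecidableRel G.Adj]

/-- In a connected graph there is a closed walk at `r` traversing every dart exactly once. -/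
theorem exists_tour (hG : G.Connected) (r : V) :
    ∃ p : G.Walk r r, p.darts.Nodup ∧ ∀ d : G.Dart, d ∈ p.darts := by
  classical
  let P : ℕ → Prop := fun k => ∃ p : G.Walk r r, p.darts.Nodup ∧
    (∀ d ∈ p.darts, d.symm ∈ p.darts) ∧ p.length = k
  have hP0 : P 0 := ⟨Walk.nil, by simp, by simp, rfl⟩
  have hbd : ∀ k, P k → k ≤ Fintype.card G.Dart := by
    rintro k ⟨p, h1, -, rfl⟩
    rw [← Walk.length_darts]
    exact h1.length_le_card
  have hmax : ∃ k, P k ∧ ∀ l, P l → l ≤ k := by
    obtain ⟨k, hk, hk2⟩ := Nat.findGreatest_spec (P := P) (m := 0) (n := Fintype.card G.Dart)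
      (Nat.zero_le _) hP0 |> fun h => (⟨_, h, fun l hl => Nat.le_findGreatest (hbd l hl) hl⟩ :
        ∃ k, P k ∧ ∀ l, P l → l ≤ k)
    exact ⟨k, hk, hk2⟩
  obtain ⟨k, ⟨p, h1, h2, rfl⟩, hk⟩ := hmax
  refine ⟨p, h1, ?_⟩
  by_contra hcon
  push Not at hcon
  obtain ⟨d, hd⟩ := hcon
  have hex : ∃ e : G.Dart, e.fst ∈ p.support ∧ e ∉ p.darts := by
    by_contra hno
    push Not at hno
    have hcl : ∀ u ∈ p.support, ∀ w, G.Adj u w → w ∈ p.support := by
      intro u hu w huw
      have h3 := hno ⟨(u, w), huw⟩ hu
      exact p.dart_snd_mem_support_of_mem_darts h3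
    have hall : ∀ w, w ∈ p.support := by
      intro w
      obtain ⟨q⟩ := hG.preconnected r w
      have : ∀ (a b : V) (q : G.Walk a b), a ∈ p.support → b ∈ p.support := by
        intro a b q
        induction q with
        | nil => exact id
        | cons h _ ih => exact fun ha => ih (hcl _ ha _ h)
      exact this r w q p.start_mem_support
    exact hd (hno d (hall _))
  obtain ⟨e, he1, he2⟩ := hex
  have he3 : e.symm ∉ p.darts := fun h => he2 (by simpa using h2 _ h)
  let q : G.Walk r r := (p.takeUntil e.fst he1).append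
    ((Walk.cons e.adj (Walk.cons e.adj.symm (p.dropUntil e.fst he1))))
  have hqd : q.darts = (p.takeUntil e.fst he1).darts ++ (e :: e.symm ::
      (p.dropUntil e.fst he1).darts) := by
    simp only [q, Walk.darts_append, Walk.darts_cons]
    rfl
  have hpd : p.darts = (p.takeUntil e.fst he1).darts ++ (p.dropUntil e.fst he1).darts := by
    rw [← Walk.darts_append, Walk.take_spec]
  have hne : e ≠ e.symm := by
    intro h
    have := congrArg (fun x : G.Dart => x.fst) h
    exact e.adj.ne this
  have hperm : q.darts.Perm (e :: e.symm :: p.darts) := by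
    rw [hqd, hpd]
    refine (List.perm_middle).trans (List.Perm.cons _ ?_)
    exact List.perm_middle
  have hq : P q.length := by
    refine ⟨q, ?_, ?_, rfl⟩
    · rw [hperm.nodup_iff]
      simp only [List.nodup_cons, List.mem_cons, not_or]
      exact ⟨⟨hne, he2⟩, he3, h1⟩
    · intro x hx
      rw [hperm.mem_iff] at hx ⊢
      simp only [List.mem_cons] at hx ⊢
      rcases hx with rfl | rfl | hx
      · right; left; rfl
      · left; simp
      · right; right; exact h2 x hx
  have hlen : q.length = p.length + 2 := by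
    rw [← Walk.length_darts, ← Walk.length_darts, hperm.length_eq]
    rfl
  have := hk _ hq
  omega

/-- sums along a walk -/
theorem sum_range_getVert {M : Type*} [AddCommMonoid M] (H : V → V → M) :
    ∀ {a b : V} (p : G.Walk a b),
      ∑ i ∈ range p.length, H (p.getVert i) (p.getVert (i + 1)) =
        (p.darts.map fun d => H d.fst d.snd).sum := by
  intro a b p
  induction p with
  | nil => simp
  | cons h p ih =>
    rw [Walk.length_cons, Finset.sum_range_succ', Walk.darts_cons, List.map_cons, List.sum_cons,
      ← ih, add_comm]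
    simp

/-- sum over all darts of a function of the first vertex -/
theorem sum_darts_fst (F : V → ℝ) :
    ∑ d : G.Dart, F d.fst = ∑ v, (G.degree v : ℝ) * F v := by
  classical
  have h1 : ∑ d : G.Dart, F d.fst = ∑ v : V, ∑ d ∈ (univ.filter fun d : G.Dart => d.fst = v), F d.fst := by
    rw [Finset.sum_fiberwise]
  rw [h1]
  refine Finset.sum_congr rfl fun v _ => ?_
  have h2 : ∑ d ∈ (univ.filter fun d : G.Dart => d.fst = v), F d.fst =
      ∑ d ∈ (univ.filter fun d : G.Dart => d.fst = v), F v := by
    refine Finset.sum_congr rfl fun d hd => ?_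
    rw [(Finset.mem_filter.mp hd).2]
  rw [h2, Finset.sum_const, nsmul_eq_mul, G.dart_fst_fiber_card_eq_degree]

/-- sum over all darts as a double sum -/
theorem sum_darts_double (H : V → V → ℝ) :
    ∑ d : G.Dart, H d.fst d.snd = ∑ u, ∑ v, if G.Adj u v then H u v else 0 := by
  classical
  rw [← Finset.sum_product', ← Finset.sum_filter]
  symm
  refine Finset.sum_bij' (fun x hx => (⟨(x.1, x.2), (Finset.mem_filter.mp hx).2⟩ : G.Dart))
    (fun d _ => (d.fst, d.snd)) ?_ ?_ ?_ ?_ ?_
  · intro x hx; exact Finset.mem_univ _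
  · intro d _
    simp only [Finset.mem_filter, Finset.mem_product, Finset.mem_univ, true_and]
    exact d.adj
  · intro x hx; rfl
  · intro d _; rfl
  · intro x hx; rfl

end Pool.Agent.Q259.EulerTour
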