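import Mathlib
import Pool.Agent.Helper353.PST.Tree3

/-! Fractional revival: phase relations and consequences. -/

set_option autoImplicit false

open Finset Polynomial Pool.Agent.Helper353.PST

namespace Pool.Agent.Q259.FR

variable {V : Type} [Fintype V] [DecidableEq V] {A : Matrix V V ℝ}

/-- The phase relation for fractional revival in the eigenbasis. -/
theorem phase2 (S : SD A) (hsym : A.transpose = A) (a b : V) (t : ℝ) (α β : ℂ)
    (h : (NormedSpace.exp ((Complex.I * (t : ℂ)) • A.map (fun x : ℝ => (x : ℂ)))).mulVec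
      (Pi.single a 1) = α • Pi.single a 1 + β • Pi.single b 1) (j : V) :
    Complex.exp (Complex.I * t * S.lam j) * S.U j a = α * S.U j a + β * S.U j b := by
  set N : Matrix V V ℂ := (Complex.I * (t : ℂ)) • A.map (fun x : ℝ => (x : ℂ)) with hN
  have hNt : N.transpose = N := by
    rw [hN, Matrix.transpose_smul, ← Matrix.transpose_map, hsym]
  have hMt : (NormedSpace.exp N).transpose = NormedSpace.exp N := by
    rw [← Matrix.exp_transpose, hNt]
  have hU : N.mulVec (fun z => (S.U j z : ℂ)) =
      (Complex.I * t * S.lam j) • (fun z => (S.U j z : ℂ)) := by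
    rw [hN, Matrix.smul_mulVec]
    funext z
    have h1 := congrFun (S.eig j) z
    simp only [Matrix.mulVec, dotProduct, Pi.smul_apply, smul_eq_mul] at h1
    have h1' : ∑ x, ((A z x : ℝ) : ℂ) * (S.U j x : ℂ) = (S.lam j : ℂ) * (S.U j z : ℂ) := by
      rw [← Complex.ofReal_mul, ← h1]
      push_cast
      rfl
    simp only [Matrix.mulVec, dotProduct, Pi.smul_apply, smul_eq_mul, Matrix.map_apply]
    linear_combination (Complex.I * t) * h1'
  have hM := exp_mulVec_of_eigen N _ _ hU
  have h2 : dotProduct (fun z => (S.U j z : ℂ)) ((NormedSpace.exp N).mulVec (Pi.single a 1)) =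
      dotProduct ((NormedSpace.exp N).mulVec (fun z => (S.U j z : ℂ))) (Pi.single a 1) := by
    rw [Matrix.dotProduct_mulVec]
    congr 1
    rw [← Matrix.mulVec_transpose, hMt]
  rw [h, hM] at h2
  simp only [dotProduct_smul, smul_dotProduct, dotProduct_single, smul_eq_mul, mul_one,
    dotProduct_add] at h2
  exact h2.symm

/-- `F(A)`, entrywise -/
noncomputable def Fn (S : SD A) (F : ℝ → ℝ) (z w : V) : ℝ :=
  ∑ j, F (S.lam j) * (S.U j z * S.U j w)

theorem Fn_comm (S : SD A) (F : ℝ → ℝ) (z w : V) : Fn S F z w = Fn S F w z := by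
  unfold Fn
  exact Finset.sum_congr rfl fun j _ => by ring

/-- If all the entries `F(A)_{zw}` for fixed `z` vanish then `F(λ_j) U_j(z) = 0` for all `j`. -/
theorem eq_zero_of_Fn (S : SD A) (F : ℝ → ℝ) (z : V) (h : ∀ w, Fn S F z w = 0) (j : V) :
    F (S.lam j) * S.U j z = 0 := by
  have h1 : ∑ w, Fn S F z w * S.U j w = F (S.lam j) * S.U j z := by
    unfold Fn
    simp only [Finset.sum_mul]
    rw [Finset.sum_comm]
    have h2 : ∀ k, ∑ w, F (S.lam k) * (S.U k z * S.U k w) * S.U j w =
        F (S.lam k) * S.U k z * (if k = j then 1 else 0) := by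
      intro k
      rw [← S.orth k j, Finset.mul_sum]
      exact Finset.sum_congr rfl fun w _ => by ring
    simp only [h2]
    simp
  rw [← h1]
  simp [h]

/-- entries of a rational polynomial of an integral matrix are rational -/
theorem Fn_rat (B : Matrix V V ℤ) (hB : A = B.map (Int.cast : ℤ → ℝ)) (S : SD A)
    (f : ℚ[X]) (z w : V) : ∃ q : ℚ, Fn S (fun x => (f.map (algebraMap ℚ ℝ)).eval x) z w = q := by
  induction f using Polynomial.induction_on' with
  | add p q hp hq =>
    obtain ⟨x, hx⟩ := hp
    obtain ⟨y, hy⟩ := hq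
    refine ⟨x + y, ?_⟩
    push_cast
    rw [← hx, ← hy]
    unfold Fn
    rw [← Finset.sum_add_distrib]
    refine Finset.sum_congr rfl fun j _ => ?_
    simp only [Polynomial.map_add, eval_add]
    ring
  | monomial n c =>
    refine ⟨c * ((B ^ n) z w : ℤ), ?_⟩
    have h1 : ((B ^ n) z w : ℝ) = (A ^ n) z w := by
      have : A = (Int.castRingHom ℝ).mapMatrix B := hB
      rw [this, ← map_pow]
      rfl
    push_cast
    rw [h1, S.pow_entry, Finset.mul_sum]
    unfold Fn
    refine Finset.sum_congr rfl fun j _ => ?_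
    simp only [Polynomial.map_monomial, eval_monomial, eq_ratCast]
    ring

section phases

variable (S : SD A) (a b : V) (hab : a ≠ b) (t : ℝ) (α β : ℂ) (hβ : β ≠ 0)
  (h : ∀ j, Complex.exp (Complex.I * t * S.lam j) * S.U j a = α * S.U j a + β * S.U j b)

theorem normSq_exp (x y : ℝ) : Complex.normSq (Complex.exp (Complex.I * x * y)) = 1 := by
  have : Complex.I * x * y = ((x * y : ℝ) : ℂ) * Complex.I := by push_cast; ring
  rw [this, Complex.normSq_eq_norm_sq, Complex.norm_exp_ofReal_mul_I]
  norm_num

include hab h in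
theorem norm_one : Complex.normSq α + Complex.normSq β = 1 := by
  have h1 : ∀ j, S.U j a * S.U j a = Complex.normSq α * (S.U j a * S.U j a) +
      Complex.normSq β * (S.U j b * S.U j b) +
      2 * (α.re * β.re + α.im * β.im) * (S.U j a * S.U j b) := by
    intro j
    have h2 := congrArg Complex.normSq (h j)
    rw [Complex.normSq_mul, normSq_exp, one_mul, Complex.normSq_ofReal] at h2
    refine h2.trans ?_
    simp only [Complex.normSq_apply, Complex.add_re, Complex.mul_re, Complex.add_im,
      Complex.mul_im, Complex.ofReal_re, Complex.ofReal_im]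
    ring
  have h2 : ∑ j, S.U j a * S.U j a = 1 := by rw [S.compl, if_pos rfl]
  have h3 : ∑ j, S.U j b * S.U j b = 1 := by rw [S.compl, if_pos rfl]
  have h4 : ∑ j, S.U j a * S.U j b = 0 := by rw [S.compl, if_neg hab]
  have h5 : ∑ j, S.U j a * S.U j a = ∑ j, (Complex.normSq α * (S.U j a * S.U j a) +
      Complex.normSq β * (S.U j b * S.U j b) +
      2 * (α.re * β.re + α.im * β.im) * (S.U j a * S.U j b)) :=
    Finset.sum_congr rfl fun j _ => h1 j
  rw [Finset.sum_add_distrib, Finset.sum_add_distrib, ← Finset.mul_sum, ← Finset.mul_sum,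
    ← Finset.mul_sum, h2, h3, h4] at h5
  linarith

include hab hβ h in
/-- the phase relation at `b` -/
theorem phase_b (j : V) :
    Complex.exp (Complex.I * t * S.lam j) * S.U j b =
      β * S.U j a - (starRingEnd ℂ α * β / starRingEnd ℂ β) * S.U j b := by
  have hn := norm_one S a b hab t α β h
  have hβ' : starRingEnd ℂ β ≠ 0 := by simpa using hβ
  have h1 := h j
  have h2 := congrArg (starRingEnd ℂ) h1
  simp only [map_mul, map_add, Complex.conj_ofReal] at h2
  have hE : Complex.exp (Complex.I * t * S.lam j) *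
      starRingEnd ℂ (Complex.exp (Complex.I * t * S.lam j)) = 1 := by
    rw [Complex.mul_conj, normSq_exp]; simp
  have hn' : α * starRingEnd ℂ α + β * starRingEnd ℂ β = 1 := by
    rw [Complex.mul_conj, Complex.mul_conj, ← Complex.ofReal_add, hn]; simp
  field_simp
  -- E * U_b * conj β = β * conj β * U_a - conj α * β * U_b
  have h3 : Complex.exp (Complex.I * t * S.lam j) * (starRingEnd ℂ β * S.U j b) =
      S.U j a - starRingEnd ℂ α * (Complex.exp (Complex.I * t * S.lam j) * S.U j a) := by
    linear_combination (-Complex.exp (Complex.I * t * S.lam j)) * h2 + (S.U j a : ℂ) * hE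
  rw [h1] at h3
  linear_combination h3 - (S.U j a : ℂ) * hn'

include hab hβ h in
/-- for every function `F`: `β (F_aa - F_bb) = (α - γ) F_ab`. -/
theorem moment_rel (F : ℝ → ℝ) :
    β * ((Fn S F a a : ℂ) - Fn S F b b) =
      (α + starRingEnd ℂ α * β / starRingEnd ℂ β) * Fn S F a b := by
  have h1 : ∀ j, α * ((F (S.lam j) * (S.U j a * S.U j b) : ℝ) : ℂ) +
      β * ((F (S.lam j) * (S.U j b * S.U j b) : ℝ) : ℂ) =
      β * ((F (S.lam j) * (S.U j a * S.U j a) : ℝ) : ℂ) -
      (starRingEnd ℂ α * β / starRingEnd ℂ β) * ((F (S.lam j) * (S.U j a * S.U j b) : ℝ) : ℂ) := by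
    intro j
    have h2 := h j
    have h3 := phase_b S a b hab t α β hβ h j
    push_cast
    linear_combination (F (S.lam j) * S.U j a : ℂ) * h3 - (F (S.lam j) * S.U j b : ℂ) * h2
  have h4 : ∑ j, (α * ((F (S.lam j) * (S.U j a * S.U j b) : ℝ) : ℂ) +
      β * ((F (S.lam j) * (S.U j b * S.U j b) : ℝ) : ℂ)) =
      ∑ j, (β * ((F (S.lam j) * (S.U j a * S.U j a) : ℝ) : ℂ) -
      (starRingEnd ℂ α * β / starRingEnd ℂ β) * ((F (S.lam j) * (S.U j a * S.U j b) : ℝ) : ℂ)) :=
    Finset.sum_congr rfl fun j _ => h1 j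
  rw [Finset.sum_add_distrib, Finset.sum_sub_distrib, ← Finset.mul_sum, ← Finset.mul_sum,
    ← Finset.mul_sum, ← Finset.mul_sum, ← Complex.ofReal_sum, ← Complex.ofReal_sum,
    ← Complex.ofReal_sum] at h4
  have e1 : Fn S F a b = ∑ j, F (S.lam j) * (S.U j a * S.U j b) := rfl
  have e2 : Fn S F a a = ∑ j, F (S.lam j) * (S.U j a * S.U j a) := rfl
  have e3 : Fn S F b b = ∑ j, F (S.lam j) * (S.U j b * S.U j b) := rfl
  rw [← e1, ← e2, ← e3] at h4
  linear_combination -h4

end phases

/-! ### Cospectral vertices -/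

/-- The determinant of `xI - A` with the `a`-th row and column deleted is `det (xI - A)` times
the `a`-th diagonal entry of the inverse. -/
theorem det_minor (M N : Matrix V V ℝ) (hMN : M * N = 1) (a : V) :
    (M.submatrix (Subtype.val : {v // v ≠ a} → V) Subtype.val).det = M.det * N a a := by
  have h1 : M.adjugate = M.det • N := by
    calc M.adjugate = M.adjugate * (M * N) := by rw [hMN, Matrix.mul_one]
      _ = (M.adjugate * M) * N := by rw [Matrix.mul_assoc]
      _ = M.det • N := by rw [Matrix.adjugate_mul, Matrix.smul_mul, Matrix.one_mul]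
  have h2 : M.adjugate a a = M.det * N a a := by
    rw [h1, Matrix.smul_apply, smul_eq_mul]
  rw [← h2, Matrix.adjugate_apply]
  rw [Matrix.twoBlockTriangular_det _ (fun v => v ≠ a)]
  · have h3 : ((M.updateRow a (Pi.single a 1)).toSquareBlockProp fun v => v ≠ a) =
        M.submatrix (Subtype.val : {v // v ≠ a} → V) Subtype.val := by
      ext i j
      change (M.updateRow a (Pi.single a 1)) i.1 j.1 = M i.1 j.1
      rw [Matrix.updateRow_ne i.2]
    have h4 : ((M.updateRow a (Pi.single a 1)).toSquareBlockProp fun v => ¬ v ≠ a).det = 1 := by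
      let _ : Unique {v // ¬ v ≠ a} :=
        ⟨⟨⟨a, by simp⟩⟩, fun x => Subtype.ext (not_not.mp x.2)⟩
      rw [Matrix.det_unique]
      have : ((default : {v // ¬ v ≠ a}) : V) = a := not_not.mp (default : {v // ¬ v ≠ a}).2
      simp [Matrix.toSquareBlockProp, this]
    rw [h3, h4, mul_one]
  · intro i hi j hj
    have : i = a := not_not.mp hi
    rw [this, Matrix.updateRow_self, Pi.single_apply, if_neg hj]

theorem charpoly_minor_eq (S : SD A) (a b : V)
    (h : ∀ F : ℝ → ℝ, Fn S F a a = Fn S F b b) :
    (A.submatrix (Subtype.val : {v // v ≠ a} → V) Subtype.val).charpoly =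
      (A.submatrix (Subtype.val : {v // v ≠ b} → V) Subtype.val).charpoly := by
  classical
  refine Polynomial.eq_of_infinite_eval_eq _ _ ?_
  have hinf : Set.Infinite ((Set.range S.lam)ᶜ : Set ℝ) :=
    (Set.finite_range S.lam).infinite_compl
  refine hinf.mono ?_
  intro x hx
  have hx' : ∀ j, x - S.lam j ≠ 0 := fun j hj => hx ⟨j, by linarith⟩
  set F : ℝ → ℝ := fun y => (x - y)⁻¹ with hF
  set N : Matrix V V ℝ := Matrix.of fun z w => Fn S F z w with hN
  set M : Matrix V V ℝ := Matrix.scalar V x - A with hM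
  have hMN : M * N = 1 := by
    ext z w
    rw [Matrix.mul_apply, Matrix.one_apply, ← S.compl z w]
    have h1 : ∀ y, M z y * N y w = ∑ j, (F (S.lam j) * S.U j w) * (M z y * S.U j y) := by
      intro y
      rw [hN, Matrix.of_apply, Fn, Finset.mul_sum]
      exact Finset.sum_congr rfl fun j _ => by ring
    simp only [h1]
    rw [Finset.sum_comm]
    refine Finset.sum_congr rfl fun j _ => ?_
    rw [← Finset.mul_sum]
    have h2 : ∑ y, M z y * S.U j y = (x - S.lam j) * S.U j z := by
      have h3 : ∑ y, M z y * S.U j y = (M.mulVec (S.U j)) z := rfl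
      rw [h3, hM, Matrix.sub_mulVec, S.eig, Pi.sub_apply]
      have h4 : ((Matrix.scalar V) x).mulVec (S.U j) = x • S.U j := by
        ext y
        simp [Matrix.scalar_apply, Matrix.mulVec_diagonal]
      rw [h4]
      simp only [Pi.smul_apply, smul_eq_mul]
      ring
    rw [h2, hF]
    have := hx' j
    field_simp
  have key : ∀ c : V, (A.submatrix (Subtype.val : {v // v ≠ c} → V) Subtype.val).charpoly.eval x =
      M.det * Fn S F c c := by
    intro c
    rw [Matrix.eval_charpoly]
    have h5 := det_minor M N hMN c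
    rw [hN, Matrix.of_apply] at h5
    rw [← h5]
    congr 1
    ext i j
    simp only [Matrix.sub_apply, Matrix.submatrix_apply, hM, Matrix.scalar_apply,
      Matrix.diagonal_apply]
    simp only [Subtype.ext_iff]
  show _ = _
  rw [key a, key b, h F]

end Pool.Agent.Q259.FR
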