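import Mathlib

/-!
Global flows: a bounded Lipschitz field has a global flow; a `C¹` field on the unit ball of `ℂ²` with
`Re ⟨h(u), u⟩ ≥ 0` has solutions of `v' = -h(v)` for all positive times, which stay in the ball.
-/

open Set Metric Filter Topology
open scoped NNReal

namespace Pool.Agent.Q259.Flow

section general

variable {E : Type*} [NormedAddCommGroup E] [NormedSpace ℝ E] [CompleteSpace E]

theorem flow_Ioo {g : E → E} {K L : ℝ≥0} (hl : LipschitzWith K g) (hb : ∀ x, ‖g x‖ ≤ L)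
    (x0 : E) (n : ℕ) : ∃ v : ℝ → E, v 0 = x0 ∧
      ∀ t ∈ Ioo (-((n : ℝ) + 1)) ((n : ℝ) + 1), HasDerivAt v (g (v t)) t := by
  have h0 : (0 : ℝ) ∈ Icc (-((n : ℝ) + 1)) ((n : ℝ) + 1) := by
    constructor <;> [linarith [n.cast_nonneg (α := ℝ)]; positivity]
  have hpl : IsPicardLindelof (fun _ : ℝ => g) (⟨0, h0⟩ : Icc (-((n : ℝ) + 1)) ((n : ℝ) + 1)) x0
      (L * (n + 1)) 0 L K := by
    apply IsPicardLindelof.of_time_independent
    · intro x _
      exact hb x
    · exact hl.lipschitzOnWith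
    · simp
  obtain ⟨v, hv0, hv⟩ := hpl.exists_eq_forall_mem_Icc_hasDerivWithinAt₀
  refine ⟨v, hv0, fun t ht => ?_⟩
  exact (hv t (Ioo_subset_Icc_self ht)).hasDerivAt (Icc_mem_nhds ht.1 ht.2)

theorem flow_global {g : E → E} {K L : ℝ≥0} (hl : LipschitzWith K g) (hb : ∀ x, ‖g x‖ ≤ L)
    (x0 : E) : ∃ v : ℝ → E, v 0 = x0 ∧ ∀ t, HasDerivAt v (g (v t)) t := by
  choose v hv0 hv using flow_Ioo hl hb x0
  have huniq : ∀ m n : ℕ, m ≤ n → EqOn (v m) (v n) (Ioo (-((m : ℝ) + 1)) ((m : ℝ) + 1)) := by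
    intro m n hmn
    have hmn' : (m : ℝ) ≤ n := by exact_mod_cast hmn
    refine ODE_solution_unique_of_mem_Ioo (v := fun _ => g) (s := fun _ => univ) (K := K)
      (t₀ := 0) (fun t _ => hl.lipschitzOnWith) ?_ (fun t ht => ⟨hv m t ht, mem_univ _⟩)
      (fun t ht => ⟨hv n t ⟨by linarith [ht.1], by linarith [ht.2]⟩, mem_univ _⟩) ?_
    · constructor <;> [linarith [m.cast_nonneg (α := ℝ)]; positivity]
    · rw [hv0, hv0]
  refine ⟨fun t => v (⌈|t|⌉₊ + 1) t, by simpa using hv0 _, fun t => ?_⟩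
  have hmem : t ∈ Ioo (-(((⌈|t|⌉₊ : ℕ) : ℝ) + 1)) (((⌈|t|⌉₊ : ℕ) : ℝ) + 1) := by
    have h1 : |t| ≤ ⌈|t|⌉₊ := Nat.le_ceil _
    constructor
    · linarith [neg_abs_le t]
    · linarith [le_abs_self t]
  have hkey : ∀ᶠ s in 𝓝 t, v (⌈|s|⌉₊ + 1) s = v (⌈|t|⌉₊ + 1) s := by
    filter_upwards [isOpen_Ioo.mem_nhds hmem] with s hs
    have hsm : s ∈ Ioo (-(((⌈|s|⌉₊ : ℕ) : ℝ) + 1)) (((⌈|s|⌉₊ : ℕ) : ℝ) + 1) := by
      have h1 : |s| ≤ ⌈|s|⌉₊ := Nat.le_ceil _
      constructor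
      · linarith [neg_abs_le s]
      · linarith [le_abs_self s]
    rcases le_total (⌈|s|⌉₊ + 1) (⌈|t|⌉₊ + 1) with h | h
    · refine huniq _ _ h ?_
      push_cast
      constructor <;> linarith [hsm.1, hsm.2]
    · refine (huniq _ _ h ?_).symm
      push_cast
      constructor <;> linarith [hs.1, hs.2]
  have hd : HasDerivAt (v (⌈|t|⌉₊ + 1)) (g (v (⌈|t|⌉₊ + 1) t)) t := by
    apply hv
    push_cast
    constructor <;> linarith [hmem.1, hmem.2]
  exact hd.congr_of_eventuallyEq hkey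

end general

abbrev E2 := EuclideanSpace ℂ (Fin 2)

theorem re_inner_eq (u w : E2) : (inner ℂ u w : ℂ).re =
    (u 0).re * (w 0).re + (u 0).im * (w 0).im + ((u 1).re * (w 1).re + (u 1).im * (w 1).im) := by
  rw [PiLp.inner_apply, Fin.sum_univ_two]
  simp only [RCLike.inner_apply, Complex.add_re, Complex.mul_re, Complex.conj_re, Complex.conj_im]
  ring

theorem norm_sq_eq (u : E2) : ‖u‖ ^ 2 =
    (u 0).re ^ 2 + (u 0).im ^ 2 + ((u 1).re ^ 2 + (u 1).im ^ 2) := by
  rw [EuclideanSpace.norm_sq_eq, Fin.sum_univ_two, Complex.sq_norm, Complex.sq_norm,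
    Complex.normSq_apply, Complex.normSq_apply]
  ring

theorem coord_hasDerivAt {v : ℝ → E2} {v' : E2} {t : ℝ} (hv : HasDerivAt v v' t) (i : Fin 2) :
    HasDerivAt (fun s => v s i) (v' i) t := by
  exact ((EuclideanSpace.proj i : E2 →L[ℂ] ℂ).restrictScalars ℝ).hasFDerivAt.comp_hasDerivAt t hv

theorem re_hasDerivAt {f : ℝ → ℂ} {f' : ℂ} {t : ℝ} (hf : HasDerivAt f f' t) :
    HasDerivAt (fun s => (f s).re) f'.re t := by
  exact Complex.reCLM.hasFDerivAt.comp_hasDerivAt t hf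

theorem im_hasDerivAt {f : ℝ → ℂ} {f' : ℂ} {t : ℝ} (hf : HasDerivAt f f' t) :
    HasDerivAt (fun s => (f s).im) f'.im t := by
  exact Complex.imCLM.hasFDerivAt.comp_hasDerivAt t hf

theorem normSq_hasDerivAt {v : ℝ → E2} {v' : E2} {t : ℝ} (hv : HasDerivAt v v' t) :
    HasDerivAt (fun s => ‖v s‖ ^ 2) (2 * (inner ℂ (v t) v' : ℂ).re) t := by
  have e : (fun s => ‖v s‖ ^ 2) = fun s => (v s 0).re ^ 2 + (v s 0).im ^ 2 +
      ((v s 1).re ^ 2 + (v s 1).im ^ 2) := by
    funext s; exact norm_sq_eq _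
  rw [e, re_inner_eq]
  have h0 := coord_hasDerivAt hv 0
  have h1 := coord_hasDerivAt hv 1
  have := (((re_hasDerivAt h0).pow 2).add ((im_hasDerivAt h0).pow 2)).add
    (((re_hasDerivAt h1).pow 2).add ((im_hasDerivAt h1).pow 2))
  refine this.congr_deriv ?_
  simp
  ring

theorem ball_flow {h : E2 → E2} (hs : ContDiffOn ℝ 1 h (ball 0 1))
    (hp : ∀ u ∈ ball (0 : E2) 1, 0 ≤ (inner ℂ u (h u) : ℂ).re) {z : E2} (hz : z ∈ ball (0 : E2) 1) :
    ∃ v : ℝ → E2, v 0 = z ∧ Continuous v ∧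
      ∀ t, 0 ≤ t → ‖v t‖ ≤ ‖z‖ ∧ HasDerivAt v (-(h (v t))) t := by
  have hz1 : ‖z‖ < 1 := by simpa using hz
  obtain ⟨r, hzr, hr1⟩ := exists_between hz1
  obtain ⟨R, hrR, hR1⟩ := exists_between hr1
  have hr0 : 0 < r := (norm_nonneg z).trans_lt hzr
  let φ : ContDiffBump (0 : E2) := ⟨r, R, hr0, hrR⟩
  let g : E2 → E2 := fun u => -(φ u • h u)
  have hgs : ContDiff ℝ 1 g := by
    rw [contDiff_iff_contDiffAt]
    intro u
    by_cases hu : u ∈ ball (0 : E2) 1
    · have h1 : ContDiffAt ℝ 1 h u := hs.contDiffAt (isOpen_ball.mem_nhds hu)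
      exact (φ.contDiffAt.smul h1).neg
    · have hU : (closedBall (0 : E2) R)ᶜ ∈ 𝓝 u := by
        apply isClosed_closedBall.isOpen_compl.mem_nhds
        intro hu'
        apply hu
        exact closedBall_subset_ball hR1 hu'
      have : g =ᶠ[𝓝 u] fun _ => 0 := by
        filter_upwards [hU] with w hw
        have hw0 : φ w = 0 := by
          apply φ.zero_of_le_dist
          have : ¬ dist w 0 ≤ R := fun hh => hw hh
          exact (not_le.1 this).le
        simp [g, hw0]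
      exact contDiffAt_const.congr_of_eventuallyEq this
  have hgc : HasCompactSupport g := by
    apply HasCompactSupport.of_support_subset_isCompact (isCompact_closedBall (0 : E2) R)
    intro w hw
    by_contra hw'
    apply hw
    have hw0 : φ w = 0 := by
      apply φ.zero_of_le_dist
      have : ¬ dist w 0 ≤ R := fun hh => hw' hh
      exact (not_le.1 this).le
    simp [g, hw0]
  obtain ⟨K, hK⟩ := hgs.lipschitzWith_of_hasCompactSupport hgc (by simp)
  obtain ⟨L, hL⟩ := hgc.exists_bound_of_continuous hgs.continuous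
  have hL0 : 0 ≤ L := (norm_nonneg _).trans (hL 0)
  obtain ⟨v, hv0, hv⟩ := flow_global (L := ⟨L, hL0⟩) hK hL z
  have hpos : ∀ u, (inner ℂ u (g u) : ℂ).re ≤ 0 := by
    intro u
    have e : (inner ℂ u (g u) : ℂ).re = -(φ u * (inner ℂ u (h u) : ℂ).re) := by
      simp only [g, inner_neg_right, Complex.neg_re]
      rw [re_inner_eq, re_inner_eq]
      simp
      ring
    rw [e]
    by_cases hu : u ∈ ball (0 : E2) 1
    · have := mul_nonneg φ.nonneg (hp u hu) (a := φ u)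
      linarith
    · have hw0 : φ u = 0 := by
        apply φ.zero_of_le_dist
        have : ¬ dist u 0 < 1 := fun hh => hu hh
        exact (hR1.trans_le (not_lt.1 this)).le
      simp [hw0]
  have hanti : Antitone fun s => ‖v s‖ ^ 2 := by
    apply antitone_of_hasDerivAt_nonpos (fun t => normSq_hasDerivAt (hv t))
    intro t
    have := hpos (v t)
    simp only [Pi.zero_apply]
    linarith
  have hcont : Continuous v := continuous_iff_continuousAt.2 fun t => (hv t).continuousAt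
  refine ⟨v, hv0, hcont, fun t ht => ?_⟩
  have hn : ‖v t‖ ≤ ‖z‖ := by
    have h1 := hanti ht
    simp only [hv0] at h1
    exact (pow_le_pow_iff_left₀ (norm_nonneg _) (norm_nonneg _) two_ne_zero).1 h1
  refine ⟨hn, ?_⟩
  have h1 : φ (v t) = 1 := by
    apply φ.one_of_mem_closedBall
    simp only [mem_closedBall, dist_zero_right]
    exact hn.trans hzr.le
  have := hv t
  simpa [g, h1] using this

end Pool.Agent.Q259.Flow
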