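import Mathlib.Analysis.Matrix.Spectrum
import Mathlib.LinearAlgebra.Matrix.Trace
import Mathlib.Tactic

set_option autoImplicit false

/-! Coordinates for real symmetric matrices. -/

namespace Pool.Agent.Q259.Spec

open Matrix Finset

variable {n : Type*} [Fintype n] [DecidableEq n] {A : Matrix n n ℝ} (hA : A.IsHermitian)

/-- the `i`-th vector of the orthonormal eigenbasis -/
noncomputable def ev (i : n) : n → ℝ := ⇑(hA.eigenvectorBasis i)

theorem mulVec_ev (i : n) : A *ᵥ ev hA i = hA.eigenvalues i • ev hA i :=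
  hA.mulVec_eigenvectorBasis i

/-- matrix of eigenvectors, as columns -/
noncomputable def U : Matrix n n ℝ := Matrix.of fun a i => ev hA i a

theorem U_eq : U hA = (hA.eigenvectorUnitary : Matrix n n ℝ) := by
  ext a i
  rfl

theorem UtU : (U hA)ᵀ * U hA = 1 := by
  rw [U_eq]
  have := (Matrix.mem_unitaryGroup_iff'.mp hA.eigenvectorUnitary.2)
  rw [Matrix.star_eq_conjTranspose, Matrix.conjTranspose_eq_transpose_of_trivial] at this
  exact this

theorem UUt : U hA * (U hA)ᵀ = 1 := by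
  rw [U_eq]
  have := (Matrix.mem_unitaryGroup_iff.mp hA.eigenvectorUnitary.2)
  rw [Matrix.star_eq_conjTranspose, Matrix.conjTranspose_eq_transpose_of_trivial] at this
  exact this

theorem ev_dot (i j : n) : ev hA i ⬝ᵥ ev hA j = if i = j then 1 else 0 := by
  have := congrFun (congrFun (UtU hA) i) j
  rw [Matrix.mul_apply] at this
  rw [Matrix.one_apply] at this
  rw [← this]
  rfl

theorem ev_complete (a b : n) : ∑ i, ev hA i a * ev hA i b = if a = b then 1 else 0 := by
  have := congrFun (congrFun (UUt hA) a) b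
  rw [Matrix.mul_apply, Matrix.one_apply] at this
  rw [← this]
  rfl

theorem A_eq : A = U hA * diagonal hA.eigenvalues * (U hA)ᵀ := by
  have h1 : A * U hA = U hA * diagonal hA.eigenvalues := by
    ext a i
    rw [Matrix.mul_diagonal]
    have := congrFun (mulVec_ev hA i) a
    simp only [Pi.smul_apply, smul_eq_mul] at this
    rw [mul_comm]
    exact this
  rw [← h1, Matrix.mul_assoc, UUt, Matrix.mul_one]

theorem trace_mul_eq (V : Matrix n n ℝ) :
    (V * A).trace = ∑ i, hA.eigenvalues i * (ev hA i ⬝ᵥ (V *ᵥ ev hA i)) := by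
  have h1 : (V * A).trace = ((U hA)ᵀ * (V * U hA) * diagonal hA.eigenvalues).trace := by
    conv_lhs => rw [A_eq hA]
    rw [← Matrix.mul_assoc, Matrix.trace_mul_comm, ← Matrix.mul_assoc, ← Matrix.mul_assoc,
      ← Matrix.mul_assoc]
  rw [h1, Matrix.trace]
  refine Finset.sum_congr rfl fun i _ => ?_
  rw [Matrix.diag_apply, Matrix.mul_diagonal, mul_comm]
  rfl

theorem trace_mul_le (V : Matrix n n ℝ) (hV : ∀ x : n → ℝ, |x ⬝ᵥ (V *ᵥ x)| ≤ x ⬝ᵥ x) :
    (V * A).trace ≤ ∑ i, |hA.eigenvalues i| := by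
  rw [trace_mul_eq hA]
  refine Finset.sum_le_sum fun i _ => ?_
  have h1 := hV (ev hA i)
  rw [ev_dot hA i i, if_pos rfl] at h1
  calc hA.eigenvalues i * (ev hA i ⬝ᵥ (V *ᵥ ev hA i))
      ≤ |hA.eigenvalues i * (ev hA i ⬝ᵥ (V *ᵥ ev hA i))| := le_abs_self _
    _ = |hA.eigenvalues i| * |ev hA i ⬝ᵥ (V *ᵥ ev hA i)| := abs_mul _ _
    _ ≤ |hA.eigenvalues i| * 1 := mul_le_mul_of_nonneg_left h1 (abs_nonneg _)
    _ = _ := mul_one _

theorem apply_eq (a b : n) : A a b = ∑ i, hA.eigenvalues i * (ev hA i a * ev hA i b) := by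
  conv_lhs => rw [A_eq hA]
  rw [Matrix.mul_apply]
  refine Finset.sum_congr rfl fun i _ => ?_
  rw [Matrix.mul_diagonal, Matrix.transpose_apply]
  simp only [U, Matrix.of_apply]
  ring

/-- Parseval -/
theorem dot_eq (x y : n → ℝ) : x ⬝ᵥ y = ∑ i, (ev hA i ⬝ᵥ x) * (ev hA i ⬝ᵥ y) := by
  have h : ∀ i, (ev hA i ⬝ᵥ x) * (ev hA i ⬝ᵥ y) =
      ∑ a, ∑ b, (ev hA i a * ev hA i b) * (x a * y b) := by
    intro i
    simp only [dotProduct]
    rw [Finset.sum_mul_sum]
    refine Finset.sum_congr rfl fun a _ => Finset.sum_congr rfl fun b _ => ?_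
    ring
  simp only [h]
  rw [Finset.sum_comm]
  simp only [dotProduct]
  refine Finset.sum_congr rfl fun a _ => ?_
  rw [Finset.sum_comm]
  have : ∀ b, ∑ i, (ev hA i a * ev hA i b) * (x a * y b) =
      (if a = b then 1 else 0) * (x a * y b) := by
    intro b
    rw [← Finset.sum_mul, ev_complete]
  simp only [this]
  simp

/-- expansion of a vector in the eigenbasis -/
theorem expand (x : n → ℝ) : x = ∑ i, (ev hA i ⬝ᵥ x) • ev hA i := by
  ext a
  rw [Finset.sum_apply]
  simp only [Pi.smul_apply, smul_eq_mul, dotProduct, Finset.sum_mul]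
  rw [Finset.sum_comm]
  have : ∀ b, ∑ i, ev hA i b * x b * ev hA i a = (if a = b then 1 else 0) * x b := by
    intro b
    rw [← ev_complete hA a b, Finset.sum_mul]
    refine Finset.sum_congr rfl fun i _ => ?_
    ring
  simp only [this]
  simp

theorem ev_dot_mulVec (i : n) (x : n → ℝ) :
    ev hA i ⬝ᵥ (A *ᵥ x) = hA.eigenvalues i * (ev hA i ⬝ᵥ x) := by
  have hs : Aᵀ = A := by
    rw [← Matrix.conjTranspose_eq_transpose_of_trivial]; exact hA
  rw [Matrix.dotProduct_mulVec, ← Matrix.mulVec_transpose, hs, mulVec_ev, smul_dotProduct,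
    smul_eq_mul]

end Pool.Agent.Q259.Spec
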