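import Mathlib
import Pool.Agent.Q259.Spec

set_option autoImplicit false

/-! Inverse eigenvalue problem for graphs: two distinct eigenvalues. -/

namespace Pool.Agent.Q259.IEPG

open Matrix Finset Polynomial Pool.Agent.Q259.Spec

variable {V : Type} [Fintype V] [DecidableEq V]

/-- `A` belongs to `S(G)`: it is symmetric and its off-diagonal entry at `(i,j)` is nonzero exactly
when `ij` is an edge of `G`. -/
def InS (G : SimpleGraph V) (A : Matrix V V ℝ) : Prop :=
  A.IsSymm ∧ ∀ i j, i ≠ j → (A i j ≠ 0 ↔ G.Adj i j)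

/-- number of distinct real roots of the characteristic polynomial -/
noncomputable def numEig (A : Matrix V V ℝ) : ℕ := A.charpoly.roots.toFinset.card

/-- `q(G)`, the least number of distinct eigenvalues of a matrix in `S(G)`. -/
noncomputable def qInv (G : SimpleGraph V) : ℕ :=
  sInf {k | ∃ A : Matrix V V ℝ, InS G A ∧ numEig A = k}

/-- `G` achieves the multiplicity bipartition `[N - k, k]`. -/
def Achieves (G : SimpleGraph V) (k : ℕ) : Prop :=
  1 ≤ k ∧ 2 * k ≤ Fintype.card V ∧ ∃ A : Matrix V V ℝ, InS G A ∧ ∃ l μ : ℝ, l ≠ μ ∧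
    A.charpoly = (X - C l) ^ (Fintype.card V - k) * (X - C μ) ^ k

/-- `MB(G)`, the least `k` such that `G` achieves `[N - k, k]`. -/
noncomputable def MB (G : SimpleGraph V) : ℕ := sInf {k | Achieves G k}

theorem InS.herm {G : SimpleGraph V} {A : Matrix V V ℝ} (h : InS G A) : A.IsHermitian := by
  rw [Matrix.IsHermitian, Matrix.conjTranspose_eq_transpose_of_trivial]
  exact h.1

theorem card_eig_eq {A : Matrix V V ℝ} (hA : A.IsHermitian) (l : ℝ) :
    (univ.filter fun i => hA.eigenvalues i = l).card = A.charpoly.rootMultiplicity l := by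
  rw [← Polynomial.count_roots, hA.roots_charpoly_eq_eigenvalues, Multiset.count_map]
  rw [Finset.card_def, Finset.filter_val]
  congr 1
  refine Multiset.filter_congr fun i _ => ?_
  simp [eq_comm]

/-- `rank (A - l)` is at most the number of eigenvalues different from `l`. -/
theorem rank_le {A : Matrix V V ℝ} (hA : A.IsHermitian) (l : ℝ) :
    (A - l • (1 : Matrix V V ℝ)).rank ≤ (univ.filter fun i => hA.eigenvalues i ≠ l).card := by
  have h1 : A - l • (1 : Matrix V V ℝ) =
      U hA * diagonal (fun i => hA.eigenvalues i - l) * (U hA)ᵀ := by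
    have h2 : (diagonal (fun i => hA.eigenvalues i - l) : Matrix V V ℝ) =
        diagonal hA.eigenvalues - l • (1 : Matrix V V ℝ) := by
      ext a b
      by_cases h : a = b
      · subst h; simp
      · simp [h]
    rw [h2, Matrix.mul_sub, Matrix.sub_mul, ← A_eq hA, Matrix.mul_smul, Matrix.smul_mul,
      Matrix.mul_one, UUt]
  rw [h1]
  refine (Matrix.rank_mul_le_left _ _).trans ((Matrix.rank_mul_le_right _ _).trans ?_)
  rw [Matrix.rank_diagonal, Fintype.card_subtype]
  apply le_of_eq
  congr 1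
  ext i
  simp [sub_eq_zero]

theorem filter_ne_card {A : Matrix V V ℝ} (hA : A.IsHermitian) (l : ℝ) :
    (univ.filter fun i => hA.eigenvalues i ≠ l).card =
      Fintype.card V - A.charpoly.rootMultiplicity l := by
  rw [← card_eig_eq hA l]
  have := Finset.card_filter_add_card_filter_not (s := (univ : Finset V))
    (fun i => hA.eigenvalues i = l)
  rw [Finset.card_univ] at this
  have h : (univ.filter fun i => hA.eigenvalues i ≠ l) =
      (univ.filter fun i => ¬ hA.eigenvalues i = l) := by
    ext i; simp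
  rw [h]
  omega

/-- An induced path on four vertices in the complement graph forces rank at least three. -/
theorem rank_ge (B : Matrix V V ℝ) (p1 p2 p3 p4 : V)
    (h12 : B p1 p2 = 0) (h34 : B p3 p4 = 0) (h32 : B p3 p2 = 0)
    (h31 : B p3 p1 ≠ 0) (h14 : B p1 p4 ≠ 0) (h42 : B p4 p2 ≠ 0) : 3 ≤ B.rank := by
  -- three independent columns
  have hli : LinearIndependent ℝ ![B *ᵥ Pi.single p1 1, B *ᵥ Pi.single p4 1,
      B *ᵥ Pi.single p2 1] := by
    rw [Fintype.linearIndependent_iff]
    intro g hg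
    rw [Fin.sum_univ_three] at hg
    simp only [Matrix.cons_val_zero, Matrix.cons_val_one, Matrix.cons_val_two, Matrix.head_cons,
      Matrix.tail_cons, Matrix.mulVec_single_one] at hg
    have e : ∀ a, g 0 * B a p1 + g 1 * B a p4 + g 2 * B a p2 = 0 := by
      intro a
      have := congrFun hg a
      simpa [Matrix.col_apply] using this
    have g0 : g 0 = 0 := by
      have := e p3
      rw [h34, h32, mul_zero, mul_zero, add_zero, add_zero] at this
      exact (mul_eq_zero.mp this).resolve_right h31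
    have g1 : g 1 = 0 := by
      have := e p1
      rw [h12, g0, zero_mul, mul_zero, add_zero, zero_add] at this
      exact (mul_eq_zero.mp this).resolve_right h14
    have g2 : g 2 = 0 := by
      have := e p4
      rw [g0, g1, zero_mul, zero_mul, zero_add, zero_add] at this
      exact (mul_eq_zero.mp this).resolve_right h42
    intro i
    fin_cases i
    · exact g0
    · exact g1
    · exact g2
  have hmem : ∀ i, (![B *ᵥ Pi.single p1 1, B *ᵥ Pi.single p4 1, B *ᵥ Pi.single p2 1] :
      Fin 3 → V → ℝ) i ∈ LinearMap.range B.mulVecLin := by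
    intro i
    fin_cases i
    · exact ⟨Pi.single p1 1, rfl⟩
    · exact ⟨Pi.single p4 1, rfl⟩
    · exact ⟨Pi.single p2 1, rfl⟩
  have hli2 : LinearIndependent ℝ (fun i : Fin 3 => (⟨_, hmem i⟩ : LinearMap.range B.mulVecLin)) :=
    LinearIndependent.of_comp (LinearMap.range B.mulVecLin).subtype hli
  have := hli2.fintype_card_le_finrank
  simpa [Matrix.rank] using this

/-- If the complement of `T` has an induced path on four vertices then `Tᶜ` does not achieve
`[N - k, k]` with `k ≤ 2`. -/
theorem three_le {T : SimpleGraph V} (p1 p2 p3 p4 : V) (h12 : T.Adj p1 p2) (h23 : T.Adj p2 p3)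
    (h34 : T.Adj p3 p4) (n13 : ¬ T.Adj p1 p3) (n14 : ¬ T.Adj p1 p4) (n24 : ¬ T.Adj p2 p4)
    (e13 : p1 ≠ p3) (e14 : p1 ≠ p4) (e24 : p2 ≠ p4) {k : ℕ} (h : Achieves Tᶜ k) : 3 ≤ k := by
  obtain ⟨hk1, hk2, A, hA, l, μ, hlμ, hchar⟩ := h
  have hmult : A.charpoly.rootMultiplicity l = Fintype.card V - k := by
    rw [hchar, Polynomial.rootMultiplicity_mul, Polynomial.rootMultiplicity_X_sub_C_pow]
    · rw [Polynomial.rootMultiplicity_eq_zero, add_zero]
      rw [Polynomial.IsRoot, Polynomial.eval_pow, Polynomial.eval_sub, Polynomial.eval_X,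
        Polynomial.eval_C]
      exact pow_ne_zero _ (sub_ne_zero.mpr hlμ)
    · exact mul_ne_zero (pow_ne_zero _ (Polynomial.X_sub_C_ne_zero _))
        (pow_ne_zero _ (Polynomial.X_sub_C_ne_zero _))
  have h1 := rank_le hA.herm l
  rw [filter_ne_card hA.herm l, hmult] at h1
  have h2 : Fintype.card V - (Fintype.card V - k) = k := by omega
  rw [h2] at h1
  refine le_trans ?_ h1
  have hoff : ∀ i j, i ≠ j → (A - l • (1 : Matrix V V ℝ)) i j = A i j := by
    intro i j hij
    simp [hij]
  have hz : ∀ i j, T.Adj i j → (A - l • (1 : Matrix V V ℝ)) i j = 0 := by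
    intro i j hij
    rw [hoff i j hij.ne]
    by_contra hne
    have := (hA.2 i j hij.ne).mp hne
    rw [SimpleGraph.compl_adj] at this
    exact this.2 hij
  have hnz : ∀ i j, i ≠ j → ¬ T.Adj i j → (A - l • (1 : Matrix V V ℝ)) i j ≠ 0 := by
    intro i j hij hn
    rw [hoff i j hij]
    exact (hA.2 i j hij).mpr ((SimpleGraph.compl_adj _ _ _).mpr ⟨hij, hn⟩)
  refine rank_ge _ p1 p2 p3 p4 (hz _ _ h12) (hz _ _ h34) (hz _ _ h23.symm) ?_ ?_ ?_
  · exact hnz _ _ (Ne.symm e13) (fun h => n13 h.symm)
  · exact hnz _ _ e14 n14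
  · exact hnz _ _ (Ne.symm e24) (fun h => n24 h.symm)

/-- a graph with an edge has `q ≥ 2` -/
theorem two_le_numEig {G : SimpleGraph V} {a b : V} (hab : G.Adj a b) {A : Matrix V V ℝ}
    (hA : InS G A) : 2 ≤ numEig A := by
  by_contra hcon
  push Not at hcon
  have hH := hA.herm
  have hall : ∀ i j, hH.eigenvalues i = hH.eigenvalues j := by
    intro i j
    unfold numEig at hcon
    have h1 : A.charpoly.roots.toFinset.card ≤ 1 := by omega
    rw [Finset.card_le_one] at h1
    have hm : ∀ i, hH.eigenvalues i ∈ A.charpoly.roots.toFinset := by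
      intro i
      rw [Multiset.mem_toFinset, hH.roots_charpoly_eq_eigenvalues]
      exact Multiset.mem_map.mpr ⟨i, Finset.mem_univ i, rfl⟩
    exact h1 _ (hm i) _ (hm j)
  have h2 : A a b = 0 := by
    rw [apply_eq hH a b]
    have : ∀ i, hH.eigenvalues i * (ev hH i a * ev hH i b) =
        hH.eigenvalues a * (ev hH i a * ev hH i b) := fun i => by rw [hall i a]
    simp only [this]
    rw [← Finset.mul_sum, ev_complete, if_neg hab.ne, mul_zero]
  exact (hA.2 a b hab.ne).mpr hab h2

/-- A tight frame in `ℝ³` with the right orthogonality pattern. -/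
theorem of_frame {G : SimpleGraph V} (v : V → Fin 3 → ℝ) (c : ℝ) (hc : 0 < c)
    (hframe : ∀ a b, ∑ i, v i a * v i b = if a = b then c else 0)
    (hpat : ∀ i j, i ≠ j → (v i ⬝ᵥ v j ≠ 0 ↔ G.Adj i j)) (hcard : 6 ≤ Fintype.card V) :
    ∃ A : Matrix V V ℝ, InS G A ∧
      A.charpoly = (X - C 0) ^ (Fintype.card V - 3) * (X - C c) ^ 3 := by
  set M : Matrix V (Fin 3) ℝ := Matrix.of v with hM
  refine ⟨M * Mᵀ, ⟨?_, ?_⟩, ?_⟩
  · rw [Matrix.IsSymm, Matrix.transpose_mul, Matrix.transpose_transpose]
  · intro i j hij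
    rw [← hpat i j hij, Matrix.mul_apply]
    rfl
  · have h1 : Mᵀ * M = c • (1 : Matrix (Fin 3) (Fin 3) ℝ) := by
      ext a b
      rw [Matrix.mul_apply, Matrix.smul_apply, Matrix.one_apply, smul_eq_mul]
      have := hframe a b
      simp only [Matrix.transpose_apply, hM, Matrix.of_apply]
      rw [this]
      split_ifs <;> simp
    rw [Matrix.charpoly_mul_comm_of_le M Mᵀ (by rw [Fintype.card_fin]; omega), h1]
    have h2 : (c • (1 : Matrix (Fin 3) (Fin 3) ℝ)).charpoly = (X - C c) ^ 3 := by
      have : (c • (1 : Matrix (Fin 3) (Fin 3) ℝ)) = Matrix.diagonal (fun _ => c) := by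
        ext a b
        by_cases h : a = b
        · subst h; simp
        · simp [h]
      rw [this, Matrix.charpoly_diagonal]
      simp
    rw [h2, Fintype.card_fin, C_0, sub_zero]

/-- Combination: `q = 2` and `MB = 3`. -/
theorem concl {T : SimpleGraph V} (p1 p2 p3 p4 : V) (h12 : T.Adj p1 p2) (h23 : T.Adj p2 p3)
    (h34 : T.Adj p3 p4) (n13 : ¬ T.Adj p1 p3) (n14 : ¬ T.Adj p1 p4) (n24 : ¬ T.Adj p2 p4)
    (e13 : p1 ≠ p3) (e14 : p1 ≠ p4) (e24 : p2 ≠ p4) (v : V → Fin 3 → ℝ) (c : ℝ) (hc : 0 < c)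
    (hframe : ∀ a b, ∑ i, v i a * v i b = if a = b then c else 0)
    (hpat : ∀ i j, i ≠ j → (v i ⬝ᵥ v j = 0 ↔ T.Adj i j)) (hcard : 6 ≤ Fintype.card V) :
    qInv Tᶜ = 2 ∧ MB Tᶜ = 3 := by
  have hedge : Tᶜ.Adj p1 p3 := (SimpleGraph.compl_adj _ _ _).mpr ⟨e13, n13⟩
  obtain ⟨A, hA, hchar⟩ := of_frame (G := Tᶜ) v c hc hframe (by
    intro i j hij
    rw [SimpleGraph.compl_adj, ← hpat i j hij]
    exact ⟨fun h => ⟨hij, h⟩, fun h => h.2⟩) hcard
  constructor
  · have hnum : numEig A = 2 := by
      apply le_antisymm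
      · unfold numEig
        rw [hchar, Polynomial.roots_mul, Polynomial.roots_pow, Polynomial.roots_pow,
          Polynomial.roots_X_sub_C, Polynomial.roots_X_sub_C]
        · refine (Finset.card_le_card (t := {0, c}) ?_).trans Finset.card_le_two
          intro x hx
          rw [Multiset.mem_toFinset, Multiset.mem_add] at hx
          rw [Finset.mem_insert, Finset.mem_singleton]
          rcases hx with h | h
          · left; exact Multiset.mem_singleton.mp (Multiset.mem_of_mem_nsmul h)
          · right; exact Multiset.mem_singleton.mp (Multiset.mem_of_mem_nsmul h)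
        · exact mul_ne_zero (pow_ne_zero _ (Polynomial.X_sub_C_ne_zero _))
            (pow_ne_zero _ (Polynomial.X_sub_C_ne_zero _))
      · exact two_le_numEig hedge hA
    apply le_antisymm
    · exact Nat.sInf_le ⟨A, hA, hnum⟩
    · refine le_csInf ⟨2, A, hA, hnum⟩ ?_
      rintro k ⟨B, hB, rfl⟩
      exact two_le_numEig hedge hB
  · have hach : Achieves Tᶜ 3 := ⟨by norm_num, by omega, A, hA, 0, c, hc.ne, hchar⟩
    apply le_antisymm
    · exact Nat.sInf_le hach
    · refine le_csInf ⟨3, hach⟩ ?_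
      intro k hk
      exact three_le p1 p2 p3 p4 h12 h23 h34 n13 n14 n24 e13 e14 e24 hk

end Pool.Agent.Q259.IEPG
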