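import Mathlib

set_option autoImplicit false

/-! Determinant-maximising completions: the optimality inequality. -/

namespace Pool.Agent.Q259.MaxDet

open Matrix Finset

variable {V : Type} [Fintype V] [DecidableEq V]

/-- The set `𝒜(G, x)`: positive definite matrices with unit diagonal and entries `x` at the
edges. -/
structure Adm (G : SimpleGraph V) (x : ℝ) (M : Matrix V V ℝ) : Prop where
  posDef : M.PosDef
  diag : ∀ v, M v v = 1
  edge : ∀ u v, G.Adj u v → M u v = x

/-- `A` is a matrix in `𝒜(G, x)` of maximal determinant. -/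
def IsMaxDet (G : SimpleGraph V) (x : ℝ) (A : Matrix V V ℝ) : Prop :=
  Adm G x A ∧ ∀ M : Matrix V V ℝ, Adm G x M → M.det ≤ A.det

variable {G : SimpleGraph V} {x : ℝ}

omit [DecidableEq V] in
theorem posDef_comb {A B : Matrix V V ℝ} (hA : A.PosDef) (hB : B.PosDef) {s : ℝ} (h0 : 0 ≤ s)
    (h1 : s ≤ 1) : (A + s • (B - A)).PosDef := by
  have h2 : A + s • (B - A) = (1 - s) • A + s • B := by
    rw [smul_sub, sub_smul, one_smul]; abel
  rw [h2]
  rcases eq_or_lt_of_le h0 with h | h
  · subst h
    simpa using hA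
  · rcases eq_or_lt_of_le h1 with h' | h'
    · subst h'
      simpa using hB
    · exact (hA.smul (sub_pos.2 h')).add (hB.smul h)

theorem adm_comb {A B : Matrix V V ℝ} (hA : Adm G x A) (hB : Adm G x B) {s : ℝ} (h0 : 0 ≤ s)
    (h1 : s ≤ 1) : Adm G x (A + s • (B - A)) := by
  refine ⟨posDef_comb hA.posDef hB.posDef h0 h1, fun v => ?_, fun u v h => ?_⟩
  · rw [Matrix.add_apply, Matrix.smul_apply, Matrix.sub_apply, hA.diag, hB.diag]; simp
  · rw [Matrix.add_apply, Matrix.smul_apply, Matrix.sub_apply, hA.edge u v h, hB.edge u v h]; simp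

/-- The first order optimality condition. -/
theorem trace_le {A B : Matrix V V ℝ} (hA : IsMaxDet G x A) (hB : Adm G x B) :
    (A⁻¹ * B).trace ≤ Fintype.card V := by
  by_contra hlt
  rw [not_le] at hlt
  set N : Matrix V V ℝ := A⁻¹ * B - 1 with hN
  have htr : 0 < N.trace := by
    rw [hN, Matrix.trace_sub, Matrix.trace_one]
    linarith
  have hdet : IsUnit A.det := (Matrix.isUnit_iff_isUnit_det _).1 hA.1.posDef.isUnit
  have hAA : A * A⁻¹ = 1 := Matrix.mul_nonsing_inv _ hdet
  have hfac : ∀ s : ℝ, A + s • (B - A) = A * (1 + s • N) := by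
    intro s
    rw [Matrix.mul_add, Matrix.mul_one, Matrix.mul_smul, hN, Matrix.mul_sub, Matrix.mul_one,
      ← Matrix.mul_assoc, hAA, Matrix.one_mul]
  have hpos : 0 < A.det := hA.1.posDef.det_pos
  have hle : ∀ s : ℝ, 0 ≤ s → s ≤ 1 → (1 + s • N).det ≤ 1 := by
    intro s h0 h1
    have h2 := hA.2 _ (adm_comb hA.1 hB h0 h1)
    rw [hfac, Matrix.det_mul] at h2
    by_contra h3
    rw [not_le] at h3
    nlinarith
  set P : Polynomial ℝ :=
    (det (1 + (Polynomial.X : Polynomial ℝ) • N.map Polynomial.C)).divX.divX with hP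
  have hexp : ∀ s : ℝ, (1 + s • N).det = 1 + N.trace * s + P.eval s * s ^ 2 := fun s =>
    Matrix.det_one_add_smul s N
  have hcont : Filter.Tendsto (fun s : ℝ => N.trace + P.eval s * s) (nhdsWithin 0 (Set.Ioi 0))
      (nhds (N.trace + P.eval 0 * 0)) := by
    have : Continuous (fun s : ℝ => N.trace + P.eval s * s) :=
      continuous_const.add (P.continuous.mul continuous_id)
    exact (this.tendsto 0).mono_left nhdsWithin_le_nhds
  rw [mul_zero, add_zero] at hcont
  have hev : ∀ᶠ s in nhdsWithin (0 : ℝ) (Set.Ioi 0), 0 < N.trace + P.eval s * s :=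
    hcont.eventually (lt_mem_nhds htr)
  have hev2 : ∀ᶠ s in nhdsWithin (0 : ℝ) (Set.Ioi 0), s ∈ Set.Ioo (0 : ℝ) 1 :=
    Ioo_mem_nhdsGT one_pos
  obtain ⟨s, hs1, hs2⟩ := (hev.and hev2).exists
  have h4 := hle s hs2.1.le hs2.2.le
  rw [hexp] at h4
  have h5 : 0 < s * (N.trace + P.eval s * s) := mul_pos hs2.1 hs1
  nlinarith

theorem trace_mul_nonneg {A B : Matrix V V ℝ} (hA : A.PosSemidef) (hB : B.PosSemidef) :
    0 ≤ (A * B).trace := by
  have h1 := (hA.hadamard hB).dotProduct_mulVec_nonneg (fun _ => 1)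
  have h2 : star (fun _ : V => (1 : ℝ)) ⬝ᵥ ((A ⊙ B) *ᵥ fun _ => 1) = (A * B).trace := by
    unfold Matrix.trace dotProduct Matrix.mulVec
    apply Finset.sum_congr rfl
    intro i _
    rw [Matrix.diag_apply, Matrix.mul_apply]
    simp only [Pi.star_apply, star_trivial, one_mul, dotProduct, mul_one, Matrix.hadamard_apply]
    apply Finset.sum_congr rfl
    intro j _
    have hBs : B j i = B i j := by
      have := hB.1.apply i j
      simpa using this
    rw [hBs]
  rw [h2] at h1
  exact h1

/-- The comparison of the maximiser `A` with another matrix `B` of `𝒜(G, x)` with inverse `K`. -/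
theorem compare {A B K : Matrix V V ℝ} (hA : IsMaxDet G x A) (hB : Adm G x B) (hK : B * K = 1) :
    0 ≤ ∑ v, ∑ w, K v w * (A w v - B w v) := by
  have hKB : K * B = 1 := mul_eq_one_comm.1 hK
  have hKinv : B⁻¹ = K := Matrix.inv_eq_right_inv hK
  have hdet : IsUnit A.det := (Matrix.isUnit_iff_isUnit_det _).1 hA.1.posDef.isUnit
  have hAA : A * A⁻¹ = 1 := Matrix.mul_nonsing_inv _ hdet
  have hAA' : A⁻¹ * A = 1 := Matrix.nonsing_inv_mul _ hdet
  have hKpos : K.PosDef := by
    rw [← hKinv]
    exact hB.posDef.inv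
  have hApos : (A⁻¹).PosDef := hA.1.posDef.inv
  have hD : ((B - A) * A⁻¹ * (B - A)).PosSemidef := by
    have h1 := hApos.posSemidef.mul_mul_conjTranspose_same (B - A)
    have h2 : (B - A)ᴴ = B - A := by
      rw [Matrix.conjTranspose_sub, hB.posDef.1, hA.1.posDef.1]
    rwa [h2] at h1
  have h3 := trace_mul_nonneg hD hKpos.posSemidef
  have h4 : (B - A) * A⁻¹ * (B - A) * K = B * A⁻¹ + A * K - 1 - 1 := by
    have e1 : (B - A) * A⁻¹ = B * A⁻¹ - 1 := by rw [Matrix.sub_mul, hAA]
    have e2 : (B - A) * K = 1 - A * K := by rw [Matrix.sub_mul, hK]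
    rw [Matrix.mul_assoc ((B - A) * A⁻¹) (B - A) K, e1, e2, Matrix.sub_mul, Matrix.mul_sub,
      Matrix.mul_one, Matrix.one_mul, ← Matrix.mul_assoc, Matrix.mul_assoc B A⁻¹ A, hAA',
      Matrix.mul_one, hK]
    abel
  rw [h4, Matrix.trace_sub, Matrix.trace_sub, Matrix.trace_add, Matrix.trace_one,
    Matrix.trace_mul_comm B A⁻¹] at h3
  have h5 := trace_le hA hB
  have h6 : (Fintype.card V : ℝ) ≤ (A * K).trace := by linarith
  have h7 : ∑ v, ∑ w, K v w * (A w v - B w v) = (K * A).trace - (K * B).trace := by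
    unfold Matrix.trace
    rw [← Finset.sum_sub_distrib]
    apply Finset.sum_congr rfl
    intro v _
    rw [Matrix.diag_apply, Matrix.diag_apply, Matrix.mul_apply, Matrix.mul_apply,
      ← Finset.sum_sub_distrib]
    apply Finset.sum_congr rfl
    intro w _
    ring
  rw [h7, hKB, Matrix.trace_one, Matrix.trace_mul_comm K A]
  linarith

theorem abs_le_one {A : Matrix V V ℝ} (hA : A.PosSemidef) (h1 : ∀ v, A v v = 1) (u v : V) :
    |A u v| ≤ 1 := by
  by_cases huv : u = v
  · subst huv; rw [h1]; simp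
  have hs : A v u = A u v := by
    have := hA.1.apply u v
    simpa using this
  have key : ∀ t : ℝ, 0 ≤ 1 + 2 * t * A u v + t ^ 2 := by
    intro t
    have h2 := hA.dotProduct_mulVec_nonneg (Pi.single u 1 + t • Pi.single v 1)
    have h3 : star (Pi.single u 1 + t • Pi.single v 1 : V → ℝ) ⬝ᵥ
        (A *ᵥ (Pi.single u 1 + t • Pi.single v 1)) = 1 + 2 * t * A u v + t ^ 2 := by
      rw [star_trivial, Matrix.mulVec_add, Matrix.mulVec_smul, add_dotProduct, dotProduct_add,
        dotProduct_add, smul_dotProduct, smul_dotProduct, dotProduct_smul, dotProduct_smul,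
        Matrix.mulVec_single_one, Matrix.mulVec_single_one, single_one_dotProduct,
        single_one_dotProduct, single_one_dotProduct, single_one_dotProduct]
      simp only [Matrix.col_apply, h1, hs, smul_eq_mul]
      ring
    rw [h3] at h2
    exact h2
  have k1 := key 1
  have k2 := key (-1)
  rw [abs_le]
  constructor <;> linarith

omit [DecidableEq V] in
theorem convexMat_posDef [DecidableEq V] (h0 : 0 ≤ x) (h1 : x < 1) :
    ((1 - x) • (1 : Matrix V V ℝ) + x • Matrix.of (fun _ _ => (1 : ℝ))).PosDef := by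
  refine (PosDef.one.smul (sub_pos.2 h1)).add_posSemidef ?_
  have h2 : (Matrix.of (fun _ _ => (1 : ℝ)) : Matrix V V ℝ).PosSemidef := by
    have := posSemidef_vecMulVec_self_star (fun _ : V => (1 : ℝ))
    convert this using 1
    ext i j
    simp [Matrix.vecMulVec]
  exact h2.smul h0

/-- A maximiser exists. -/
theorem exists_max (h0 : 0 ≤ x) (h1 : x < 1) : ∃ A, IsMaxDet G x A := by
  classical
  set B : Matrix V V ℝ := (1 - x) • (1 : Matrix V V ℝ) + x • Matrix.of (fun _ _ => (1 : ℝ)) with hB
  have hBadm : Adm G x B := by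
    refine ⟨convexMat_posDef h0 h1, fun v => ?_, fun u v h => ?_⟩
    · rw [hB]; simp
    · rw [hB]
      simp [Matrix.one_apply, h.ne]
  set S : Set (Matrix V V ℝ) := {M | (∀ u v, M v u = M u v) ∧ (∀ y : V → ℝ, 0 ≤ y ⬝ᵥ (M *ᵥ y)) ∧
    (∀ v, M v v = 1) ∧ ∀ u v, G.Adj u v → M u v = x} with hS
  have hSpsd : ∀ M ∈ S, M.PosSemidef := by
    rintro M ⟨a, b, -, -⟩
    refine PosSemidef.of_dotProduct_mulVec_nonneg ?_ ?_
    · ext u v
      simp only [Matrix.conjTranspose_apply, star_trivial]
      exact a u v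
    · intro y
      rw [star_trivial]
      exact b y
  have hent : ∀ u v : V, Continuous (fun M : Matrix V V ℝ => M u v) := fun u v =>
    (continuous_apply v).comp (continuous_apply u)
  have hclosed : IsClosed S := by
    have c1 : IsClosed {M : Matrix V V ℝ | ∀ u v, M v u = M u v} := by
      simp only [Set.setOf_forall]
      exact isClosed_iInter fun u => isClosed_iInter fun v => isClosed_eq (hent v u) (hent u v)
    have c2 : IsClosed {M : Matrix V V ℝ | ∀ y : V → ℝ, 0 ≤ y ⬝ᵥ (M *ᵥ y)} := by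
      simp only [Set.setOf_forall]
      refine isClosed_iInter fun y => isClosed_le continuous_const ?_
      unfold dotProduct Matrix.mulVec dotProduct
      exact continuous_finset_sum _ fun u _ => continuous_const.mul
        (continuous_finset_sum _ fun v _ => (hent u v).mul continuous_const)
    have c3 : IsClosed {M : Matrix V V ℝ | ∀ v, M v v = 1} := by
      simp only [Set.setOf_forall]
      exact isClosed_iInter fun v => isClosed_eq (hent v v) continuous_const
    have c4 : IsClosed {M : Matrix V V ℝ | ∀ u v, G.Adj u v → M u v = x} := by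
      simp only [Set.setOf_forall]
      exact isClosed_iInter fun u => isClosed_iInter fun v => isClosed_iInter fun _ =>
        isClosed_eq (hent u v) continuous_const
    exact c1.inter (c2.inter (c3.inter c4))
  have hcompact : IsCompact S := by
    refine IsCompact.of_isClosed_subset (s := Set.pi Set.univ fun _ : V => Set.pi Set.univ
      fun _ : V => Set.Icc (-1 : ℝ) 1) (isCompact_univ_pi fun _ => isCompact_univ_pi fun _ =>
        isCompact_Icc) hclosed ?_
    intro M hM u _ v _
    have := abs_le_one (hSpsd M hM) hM.2.2.1 u v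
    exact abs_le.1 this
  have hBS : ∀ M, Adm G x M → M ∈ S := by
    intro M hM
    refine ⟨fun u v => ?_, fun y => ?_, hM.diag, hM.edge⟩
    · have := hM.posDef.1.apply u v
      simpa using this
    · have := hM.posDef.posSemidef.dotProduct_mulVec_nonneg y
      rwa [star_trivial] at this
  obtain ⟨A, hAS, hAmax⟩ := hcompact.exists_isMaxOn ⟨B, hBS B hBadm⟩
    (Continuous.matrix_det continuous_id).continuousOn
  have hdet : B.det ≤ A.det := hAmax (hBS B hBadm)
  have hpos : 0 < A.det := lt_of_lt_of_le hBadm.posDef.det_pos hdet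
  refine ⟨A, ⟨?_, hAS.2.2.1, hAS.2.2.2⟩, fun M hM => hAmax (hBS M hM)⟩
  exact ((hSpsd A hAS).posDef_iff_det_ne_zero).2 hpos.ne'

end Pool.Agent.Q259.MaxDet
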