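import Mathlib

set_option autoImplicit false

/-! Counting labelled graphs: extension properties hold for almost every graph. -/

namespace Pool.Agent.Q259.RandGraph

open Finset Filter Topology

variable {V : Type} [Fintype V]

/-- toggle the edge `ab` -/
def tog (a b : V) (hab : a ≠ b) (G : SimpleGraph V) : SimpleGraph V where
  Adj x y := (G.Adj x y ∧ ¬ s(x, y) = s(a, b)) ∨ (¬ G.Adj x y ∧ s(x, y) = s(a, b))
  symm := ⟨by
    intro x y h
    rw [G.adj_comm, Sym2.eq_swap]
    exact h⟩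
  loopless := ⟨by
    intro x h
    rcases h with ⟨h, -⟩ | ⟨-, h⟩
    · exact G.irrefl h
    · rw [Sym2.eq_iff] at h
      rcases h with ⟨h1, h2⟩ | ⟨h1, h2⟩
      · exact hab (h1.symm.trans h2)
      · exact hab (h2.symm.trans h1)⟩

omit [Fintype V] in
theorem tog_adj (a b : V) (hab : a ≠ b) (G : SimpleGraph V) (x y : V) :
    (tog a b hab G).Adj x y ↔
      ((G.Adj x y ∧ ¬ s(x, y) = s(a, b)) ∨ (¬ G.Adj x y ∧ s(x, y) = s(a, b))) := Iff.rfl

omit [Fintype V] in
theorem tog_tog (a b : V) (hab : a ≠ b) (G : SimpleGraph V) :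
    tog a b hab (tog a b hab G) = G := by
  ext x y
  rw [tog_adj, tog_adj]
  tauto

omit [Fintype V] in
theorem tog_self (a b : V) (hab : a ≠ b) (G : SimpleGraph V) :
    (tog a b hab G).Adj a b ↔ ¬ G.Adj a b := by
  rw [tog_adj]
  tauto

omit [Fintype V] in
theorem tog_other (a b : V) (hab : a ≠ b) (G : SimpleGraph V) (x y : V)
    (h : s(x, y) ≠ s(a, b)) : (tog a b hab G).Adj x y ↔ G.Adj x y := by
  rw [tog_adj]
  tauto

theorem split_card {α : Type} [Finite α] (P Q : α → Prop) :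
    {G | P G}.ncard = {G | P G ∧ Q G}.ncard + {G | P G ∧ ¬ Q G}.ncard := by
  have h := Set.ncard_inter_add_ncard_sdiff_eq_ncard {G | P G} {G | Q G} (Set.toFinite _)
  rw [← h]
  rfl

/-- Half of the graphs in a toggle-invariant family have (do not have) the edge. -/
theorem half (a b : V) (hab : a ≠ b) (P : SimpleGraph V → Prop)
    (hP : ∀ G, P (tog a b hab G) ↔ P G) (s : Prop) :
    2 * {G : SimpleGraph V | P G ∧ (G.Adj a b ↔ s)}.ncard = {G : SimpleGraph V | P G}.ncard := by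
  have h1 : {G : SimpleGraph V | P G ∧ ¬ (G.Adj a b ↔ s)} =
      tog a b hab '' {G : SimpleGraph V | P G ∧ (G.Adj a b ↔ s)} := by
    ext G
    constructor
    · rintro ⟨h1, h2⟩
      refine ⟨tog a b hab G, ⟨(hP G).mpr h1, ?_⟩, tog_tog a b hab G⟩
      rw [tog_self]
      tauto
    · rintro ⟨G', ⟨h1, h2⟩, rfl⟩
      refine ⟨(hP G').mpr h1, ?_⟩
      rw [tog_self]
      tauto
  have hinj : Function.Injective (tog a b hab) := by
    intro G G' h
    have := congrArg (tog a b hab) h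
    rwa [tog_tog, tog_tog] at this
  have h2 := split_card (fun G : SimpleGraph V => P G) (fun G => (G.Adj a b ↔ s))
  rw [h1, Set.ncard_image_of_injective _ hinj] at h2
  omega

/-- the pattern at `v` -/
def Pat (a b c : V) (s1 s2 s3 : Prop) (v : V) (G : SimpleGraph V) : Prop :=
  (G.Adj v a ↔ s1) ∧ (G.Adj v b ↔ s2) ∧ (G.Adj v c ↔ s3)

theorem eighth (a b c v : V) (hab : a ≠ b) (hac : a ≠ c) (hbc : b ≠ c) (hva : v ≠ a)
    (hvb : v ≠ b) (hvc : v ≠ c) (P : SimpleGraph V → Prop)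
    (h1 : ∀ G, P (tog v a hva G) ↔ P G) (h2 : ∀ G, P (tog v b hvb G) ↔ P G)
    (h3 : ∀ G, P (tog v c hvc G) ↔ P G) (s1 s2 s3 : Prop) :
    8 * {G : SimpleGraph V | P G ∧ Pat a b c s1 s2 s3 v G}.ncard =
      {G : SimpleGraph V | P G}.ncard := by
  have e1 := half v a hva P h1 s1
  have n1 : s(v, a) ≠ s(v, b) := by
    intro h; rw [Sym2.eq_iff] at h; rcases h with h | h
    · exact hab h.2
    · exact hvb h.1
  have n2 : s(v, a) ≠ s(v, c) := by
    intro h; rw [Sym2.eq_iff] at h; rcases h with h | h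
    · exact hac h.2
    · exact hvc h.1
  have n3 : s(v, b) ≠ s(v, c) := by
    intro h; rw [Sym2.eq_iff] at h; rcases h with h | h
    · exact hbc h.2
    · exact hvc h.1
  have e2 := half v b hvb (fun G => P G ∧ (G.Adj v a ↔ s1)) (by
    intro G
    rw [h2, tog_other v b hvb G v a n1]) s2
  have e3 := half v c hvc (fun G => (P G ∧ (G.Adj v a ↔ s1)) ∧ (G.Adj v b ↔ s2)) (by
    intro G
    rw [h3, tog_other v c hvc G v a n2, tog_other v c hvc G v b n3]) s3
  have e4 : {G : SimpleGraph V | P G ∧ Pat a b c s1 s2 s3 v G} =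
      {G : SimpleGraph V | ((P G ∧ (G.Adj v a ↔ s1)) ∧ (G.Adj v b ↔ s2)) ∧ (G.Adj v c ↔ s3)} := by
    ext G
    simp only [Set.mem_ofPred_eq, Pat]
    tauto
  rw [e4]
  omega

theorem bad_card (a b c : V) (hab : a ≠ b) (hac : a ≠ c) (hbc : b ≠ c) (s1 s2 s3 : Prop)
    (S : Finset V) (ha : a ∉ S) (hb : b ∉ S) (hc : c ∉ S) :
    8 ^ S.card * {G : SimpleGraph V | ∀ v ∈ S, ¬ Pat a b c s1 s2 s3 v G}.ncard =
      7 ^ S.card * Nat.card (SimpleGraph V) := by
  classical
  induction S using Finset.induction_on with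
  | empty => simp [Set.ncard_univ]
  | insert v S hv ih =>
    rw [Finset.mem_insert, not_or] at ha hb hc
    have ih' := ih ha.2 hb.2 hc.2
    rw [Finset.card_insert_of_notMem hv]
    have hva : v ≠ a := Ne.symm ha.1
    have hvb : v ≠ b := Ne.symm hb.1
    have hvc : v ≠ c := Ne.symm hc.1
    have inv : ∀ (x : V) (hvx : v ≠ x), x ∉ S → ∀ G : SimpleGraph V,
        ((∀ u ∈ S, ¬ Pat a b c s1 s2 s3 u (tog v x hvx G)) ↔
          (∀ u ∈ S, ¬ Pat a b c s1 s2 s3 u G)) := by
      intro x hvx hxS G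
      refine forall₂_congr fun u hu => ?_
      have huv : u ≠ v := fun h => hv (h ▸ hu)
      have hux : u ≠ x := fun h => hxS (h ▸ hu)
      have key : ∀ y, s(u, y) ≠ s(v, x) := by
        intro y h
        rw [Sym2.eq_iff] at h
        rcases h with h | h
        · exact huv h.1
        · exact hux h.1
      unfold Pat
      rw [tog_other v x hvx G u a (key a), tog_other v x hvx G u b (key b),
        tog_other v x hvx G u c (key c)]
    have e := eighth a b c v hab hac hbc hva hvb hvc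
      (fun G => ∀ u ∈ S, ¬ Pat a b c s1 s2 s3 u G) (inv a hva ha.2) (inv b hvb hb.2)
      (inv c hvc hc.2) s1 s2 s3
    have e2 := split_card (fun G : SimpleGraph V => ∀ u ∈ S, ¬ Pat a b c s1 s2 s3 u G)
      (fun G => Pat a b c s1 s2 s3 v G)
    have e3 : {G : SimpleGraph V | ∀ u ∈ insert v S, ¬ Pat a b c s1 s2 s3 u G} =
        {G : SimpleGraph V | (∀ u ∈ S, ¬ Pat a b c s1 s2 s3 u G) ∧
          ¬ Pat a b c s1 s2 s3 v G} := by
      ext G
      simp only [Set.mem_ofPred_eq, Finset.mem_insert, forall_eq_or_imp]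
      tauto
    rw [e3]
    set A := {G : SimpleGraph V | ∀ u ∈ S, ¬ Pat a b c s1 s2 s3 u G}.ncard
    set B := {G : SimpleGraph V | (∀ u ∈ S, ¬ Pat a b c s1 s2 s3 u G) ∧
          Pat a b c s1 s2 s3 v G}.ncard
    set C := {G : SimpleGraph V | (∀ u ∈ S, ¬ Pat a b c s1 s2 s3 u G) ∧
          ¬ Pat a b c s1 s2 s3 v G}.ncard
    have h7 : 8 * C = 7 * A := by omega
    calc 8 ^ (S.card + 1) * C = 8 ^ S.card * (8 * C) := by ring
      _ = 7 * (8 ^ S.card * A) := by rw [h7]; ring
      _ = 7 ^ (S.card + 1) * Nat.card (SimpleGraph V) := by rw [ih']; ring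

/-- the extension property -/
def ExtP (G : SimpleGraph V) (s1 s2 s3 : Prop) : Prop :=
  ∀ a b c : V, a ≠ b → a ≠ c → b ≠ c → ∃ v, v ≠ a ∧ v ≠ b ∧ v ≠ c ∧ Pat a b c s1 s2 s3 v G

theorem fail_card (s1 s2 s3 : Prop) :
    ({G : SimpleGraph V | ¬ ExtP G s1 s2 s3}.ncard : ℝ) ≤
      (Fintype.card V : ℝ) ^ 3 * ((7 / 8 : ℝ) ^ (Fintype.card V - 3) *
        Nat.card (SimpleGraph V)) := by
  classical
  -- union bound
  set T : Finset (V × V × V) := univ.filter fun t => t.1 ≠ t.2.1 ∧ t.1 ≠ t.2.2 ∧ t.2.1 ≠ t.2.2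
    with hT
  set Bd : V × V × V → Set (SimpleGraph V) := fun t => {G : SimpleGraph V |
        ∀ v ∈ (univ \ {t.1, t.2.1, t.2.2} : Finset V), ¬ Pat t.1 t.2.1 t.2.2 s1 s2 s3 v G}
    with hBd
  have h1 : {G : SimpleGraph V | ¬ ExtP G s1 s2 s3} ⊆ ⋃ t ∈ T, Bd t := by
    intro G hG
    have hG' : ¬ ExtP G s1 s2 s3 := hG
    unfold ExtP at hG'
    push Not at hG'
    obtain ⟨a, b, c, hab, hac, hbc, h⟩ := hG'
    rw [Set.mem_iUnion₂]
    refine ⟨(a, b, c), ?_, ?_⟩
    · simp [hT, hab, hac, hbc]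
    · intro v hv
      rw [Finset.mem_sdiff, Finset.mem_insert, Finset.mem_insert, Finset.mem_singleton,
        not_or, not_or] at hv
      exact h v hv.2.1 hv.2.2.1 hv.2.2.2
  have h2 : ∀ t ∈ T, ((Bd t).ncard : ℝ) =
      (7 / 8 : ℝ) ^ (Fintype.card V - 3) * Nat.card (SimpleGraph V) := by
    rintro ⟨a, b, c⟩ ht
    simp only [hT, Finset.mem_filter, Finset.mem_univ, true_and] at ht
    obtain ⟨hab, hac, hbc⟩ := ht
    have h3 := bad_card a b c hab hac hbc s1 s2 s3 (univ \ {a, b, c}) (by simp) (by simp) (by simp)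
    have h4 : (univ \ {a, b, c} : Finset V).card = Fintype.card V - 3 := by
      rw [Finset.card_sdiff, Finset.inter_univ, Finset.card_univ]
      congr 1
      rw [Finset.card_eq_three]
      exact ⟨a, b, c, hab, hac, hbc, rfl⟩
    rw [h4] at h3
    have h5 : ((8 : ℝ) ^ (Fintype.card V - 3)) * ((Bd (a, b, c)).ncard : ℝ) =
        (7 : ℝ) ^ (Fintype.card V - 3) * (Nat.card (SimpleGraph V) : ℝ) := by
      exact_mod_cast h3
    rw [div_pow]
    field_simp
    linarith
  have h3 : ∀ T' : Finset (V × V × V), T' ⊆ T → ((⋃ t ∈ T', Bd t).ncard : ℝ) ≤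
      ∑ t ∈ T', ((Bd t).ncard : ℝ) := by
    intro T'
    induction T' using Finset.induction_on with
    | empty => intro _; simp
    | insert t T' ht ih =>
      intro hsub
      rw [Finset.set_biUnion_insert, Finset.sum_insert ht]
      have := Set.ncard_union_le (Bd t) (⋃ t ∈ T', Bd t)
      have h4 := ih ((Finset.subset_insert _ _).trans hsub)
      have h5 : ((Bd t ∪ ⋃ t ∈ T', Bd t).ncard : ℝ) ≤ ((Bd t).ncard : ℝ) +
        ((⋃ t ∈ T', Bd t).ncard : ℝ) := by exact_mod_cast this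
      linarith
  calc ({G : SimpleGraph V | ¬ ExtP G s1 s2 s3}.ncard : ℝ)
      ≤ ((⋃ t ∈ T, Bd t).ncard : ℝ) := by
        exact_mod_cast Set.ncard_le_ncard h1 (Set.toFinite _)
    _ ≤ ∑ t ∈ T, ((Bd t).ncard : ℝ) := h3 T (Finset.Subset.refl _)
    _ = T.card * ((7 / 8 : ℝ) ^ (Fintype.card V - 3) * Nat.card (SimpleGraph V)) := by
        rw [Finset.sum_congr rfl h2, Finset.sum_const, nsmul_eq_mul]
    _ ≤ _ := by
        refine mul_le_mul_of_nonneg_right ?_ (by positivity)
        have h6 : T.card ≤ Fintype.card V ^ 3 := by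
          refine (Finset.card_le_univ T).trans ?_
          rw [Fintype.card_prod, Fintype.card_prod]
          apply le_of_eq
          ring
        exact_mod_cast h6

/-- The proportion of the labelled graphs on `n` vertices with a property. -/
noncomputable def prop (P : ∀ n : ℕ, SimpleGraph (Fin n) → Prop) (n : ℕ) : ℝ :=
  (Nat.card {G : SimpleGraph (Fin n) // P n G} : ℝ) / Nat.card (SimpleGraph (Fin n))

theorem card_pos (n : ℕ) : (0 : ℝ) < Nat.card (SimpleGraph (Fin n)) := by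
  have : 0 < Nat.card (SimpleGraph (Fin n)) := Nat.card_pos
  exact_mod_cast this

theorem prop_le_one (P : ∀ n : ℕ, SimpleGraph (Fin n) → Prop) (n : ℕ) : prop P n ≤ 1 := by
  unfold prop
  rw [div_le_one (card_pos n)]
  exact_mod_cast Finite.card_subtype_le _

/-- extension properties hold for almost every graph -/
theorem tendsto_of_ext (P : ∀ n : ℕ, SimpleGraph (Fin n) → Prop)
    (hP : ∀ n, 3 ≤ n → ∀ G : SimpleGraph (Fin n), ExtP G True False False →
      ExtP G True True False → P n G) :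
    Tendsto (prop P) atTop (𝓝 1) := by
  have hlow : ∀ n : ℕ, 3 ≤ n → 1 - 2 * ((8 / 7 : ℝ) ^ 3 * ((n : ℝ) ^ 3 * (7 / 8 : ℝ) ^ n)) ≤
      prop P n := by
    intro n hn
    have h1 := fail_card (V := Fin n) True False False
    have h2 := fail_card (V := Fin n) True True False
    rw [Fintype.card_fin] at h1 h2
    have h3 : {G : SimpleGraph (Fin n) | ¬ P n G} ⊆
        {G : SimpleGraph (Fin n) | ¬ ExtP G True False False} ∪
        {G : SimpleGraph (Fin n) | ¬ ExtP G True True False} := by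
      intro G hG
      by_contra hcon
      rw [Set.mem_union, not_or] at hcon
      exact hG (hP n hn G (not_not.mp hcon.1) (not_not.mp hcon.2))
    have h4 : ({G : SimpleGraph (Fin n) | ¬ P n G}.ncard : ℝ) ≤
        ({G : SimpleGraph (Fin n) | ¬ ExtP G True False False}.ncard : ℝ) +
        ({G : SimpleGraph (Fin n) | ¬ ExtP G True True False}.ncard : ℝ) := by
      exact_mod_cast (Set.ncard_le_ncard h3 (Set.toFinite _)).trans (Set.ncard_union_le _ _)
    have h5 : (Nat.card (SimpleGraph (Fin n)) : ℝ) =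
        (Nat.card {G : SimpleGraph (Fin n) // P n G} : ℝ) +
        ({G : SimpleGraph (Fin n) | ¬ P n G}.ncard : ℝ) := by
      have := split_card (fun _ : SimpleGraph (Fin n) => True) (fun G => P n G)
      simp only [true_and] at this
      have h6 : {G : SimpleGraph (Fin n) | True} = Set.univ := rfl
      rw [h6, Set.ncard_univ] at this
      have h7 : Nat.card {G : SimpleGraph (Fin n) // P n G} =
          {G : SimpleGraph (Fin n) | P n G}.ncard := rfl
      rw [h7]
      exact_mod_cast this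
    have h6 : (7 / 8 : ℝ) ^ (n - 3) = (8 / 7 : ℝ) ^ 3 * (7 / 8 : ℝ) ^ n := by
      obtain ⟨k, rfl⟩ : ∃ k, n = k + 3 := ⟨n - 3, by omega⟩
      rw [Nat.add_sub_cancel, pow_add]
      norm_num
      ring
    rw [h6] at h1 h2
    unfold prop
    rw [le_div_iff₀ (card_pos n)]
    set N : ℝ := (Nat.card (SimpleGraph (Fin n)) : ℝ)
    nlinarith [h1, h2, h4, h5]
  have hlim : Tendsto (fun n : ℕ => 1 - 2 * ((8 / 7 : ℝ) ^ 3 * ((n : ℝ) ^ 3 * (7 / 8 : ℝ) ^ n)))
      atTop (𝓝 1) := by
    have h := tendsto_pow_const_mul_const_pow_of_abs_lt_one 3 (r := (7 / 8 : ℝ))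
      (by rw [abs_of_pos] <;> norm_num)
    have h2 := ((h.const_mul ((8 / 7 : ℝ) ^ 3)).const_mul 2).const_sub 1
    simpa using h2
  refine tendsto_of_tendsto_of_tendsto_of_le_of_le' hlim tendsto_const_nhds ?_ ?_
  · filter_upwards [eventually_ge_atTop 3] with n hn using hlow n hn
  · exact Eventually.of_forall (prop_le_one P)

end Pool.Agent.Q259.RandGraph
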