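import Mathlib.Analysis.Fourier.ZMod
import Mathlib.Tactic

set_option autoImplicit false

namespace Pool.Agent.Q259.Wirtinger

open Finset ZMod
open scoped ZMod

variable {N : ℕ} [NeZero N]

theorem stdAddChar_conj (j : ZMod N) :
    (starRingEnd ℂ) (stdAddChar j : ℂ) = stdAddChar (-j) := by
  rw [AddChar.map_neg_eq_inv]
  rw [stdAddChar_apply]
  rw [← Circle.coe_inv_eq_conj]
  simp

theorem parseval (Φ : ZMod N → ℂ) :
    ∑ k, ZMod.dft Φ k * (starRingEnd ℂ) (ZMod.dft Φ k) =
      (N : ℂ) * ∑ j, Φ j * (starRingEnd ℂ) (Φ j) := by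
  have h1 : ∀ k, (starRingEnd ℂ) (ZMod.dft Φ k) =
      ∑ j, (stdAddChar (j * k) : ℂ) * (starRingEnd ℂ) (Φ j) := by
    intro k
    rw [dft_apply, map_sum]
    refine Finset.sum_congr rfl fun j _ => ?_
    rw [smul_eq_mul, map_mul, stdAddChar_conj, neg_neg]
  have h2 : ∀ j, ∑ k, (stdAddChar (j * k) : ℂ) * ZMod.dft Φ k = (N : ℂ) * Φ j := by
    intro j
    have := congrFun (dft_dft Φ) (-j)
    rw [dft_apply] at this
    simp only [neg_neg, smul_eq_mul] at this
    rw [← this]
    refine Finset.sum_congr rfl fun k _ => ?_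
    congr 2
    ring_nf
  calc ∑ k, ZMod.dft Φ k * (starRingEnd ℂ) (ZMod.dft Φ k)
      = ∑ k, ∑ j, ZMod.dft Φ k * ((stdAddChar (j * k) : ℂ) * (starRingEnd ℂ) (Φ j)) := by
        refine Finset.sum_congr rfl fun k _ => ?_
        rw [h1, Finset.mul_sum]
    _ = ∑ j, (starRingEnd ℂ) (Φ j) * ∑ k, (stdAddChar (j * k) : ℂ) * ZMod.dft Φ k := by
        rw [Finset.sum_comm]
        refine Finset.sum_congr rfl fun j _ => ?_
        rw [Finset.mul_sum]
        refine Finset.sum_congr rfl fun k _ => ?_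
        ring
    _ = _ := by
        rw [Finset.mul_sum]
        refine Finset.sum_congr rfl fun j _ => ?_
        rw [h2]
        ring

theorem dft_shift (Φ : ZMod N → ℂ) (k : ZMod N) :
    ZMod.dft (fun j => Φ (j + 1)) k = (stdAddChar k : ℂ) * ZMod.dft Φ k := by
  rw [dft_apply, dft_apply, Finset.mul_sum]
  refine Fintype.sum_equiv (Equiv.addRight (1 : ZMod N)) _ _ fun j => ?_
  simp only [Equiv.coe_addRight, smul_eq_mul]
  rw [← mul_assoc, ← AddChar.map_add_eq_mul]
  congr 3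
  ring

theorem normSq_char_sub_one {k : ZMod N} (hk : k ≠ 0) :
    2 - 2 * Real.cos (2 * Real.pi / N) ≤ Complex.normSq ((stdAddChar k : ℂ) - 1) := by
  have hN : 0 < (N : ℝ) := by exact_mod_cast Nat.pos_of_ne_zero (NeZero.ne N)
  have h1 : (stdAddChar k : ℂ) = Complex.exp (((2 * Real.pi * k.val / N : ℝ) : ℂ) * Complex.I) := by
    rw [stdAddChar_apply, toCircle_apply]
    congr 1
    push_cast
    ring
  rw [h1, Complex.exp_mul_I]
  set x : ℝ := 2 * Real.pi * k.val / N with hx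
  have h2 : Complex.normSq (Complex.cos (x : ℂ) + Complex.sin (x : ℂ) * Complex.I - 1) =
      2 - 2 * Real.cos x := by
    have e : Complex.cos (x : ℂ) + Complex.sin (x : ℂ) * Complex.I - 1 =
        ((Real.cos x - 1 : ℝ) : ℂ) + ((Real.sin x : ℝ) : ℂ) * Complex.I := by
      push_cast
      ring
    rw [e, Complex.normSq_add_mul_I]
    have := Real.sin_sq_add_cos_sq x
    nlinarith
  rw [h2]
  have hk1 : 1 ≤ k.val := Nat.one_le_iff_ne_zero.mpr (by
    intro h; exact hk ((ZMod.val_eq_zero k).mp h))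
  have hk2 : k.val + 1 ≤ N := ZMod.val_lt k
  have hk1' : (1 : ℝ) ≤ k.val := by exact_mod_cast hk1
  have hk2' : (k.val : ℝ) + 1 ≤ N := by exact_mod_cast hk2
  have hpi := Real.pi_pos
  have key : Real.cos x ≤ Real.cos (2 * Real.pi / N) := by
    rcases le_total x Real.pi with hle | hle
    · apply Real.cos_le_cos_of_nonneg_of_le_pi (by positivity) hle
      rw [hx, div_le_div_iff_of_pos_right hN]
      nlinarith
    · rw [← Real.cos_two_pi_sub x]
      apply Real.cos_le_cos_of_nonneg_of_le_pi (by positivity) (by linarith)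
      rw [hx, le_sub_iff_add_le, ← add_div, div_le_iff₀ hN]
      nlinarith
  linarith

/-- Discrete Wirtinger inequality on `ℤ/N`. -/
theorem wirtinger (g : ZMod N → ℝ) (hg : ∑ j, g j = 0) :
    (2 - 2 * Real.cos (2 * Real.pi / N)) * ∑ j, g j ^ 2 ≤ ∑ j, (g (j + 1) - g j) ^ 2 := by
  have hN : 0 < (N : ℝ) := by exact_mod_cast Nat.pos_of_ne_zero (NeZero.ne N)
  let Φ : ZMod N → ℂ := fun j => (g j : ℂ)
  let Ψ : ZMod N → ℂ := fun j => (g (j + 1) - g j : ℝ)
  have hP : ∀ h : ZMod N → ℝ, ∑ k, Complex.normSq (ZMod.dft (fun j => (h j : ℂ)) k) =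
      N * ∑ j, h j ^ 2 := by
    intro h
    have := parseval (fun j => (h j : ℂ))
    have h3 : ((∑ k, Complex.normSq (ZMod.dft (fun j => (h j : ℂ)) k) : ℝ) : ℂ) =
        ((N * ∑ j, h j ^ 2 : ℝ) : ℂ) := by
      push_cast
      have e : ∑ k, (Complex.normSq (ZMod.dft (fun j => (h j : ℂ)) k) : ℂ) =
          ∑ k, ZMod.dft (fun j => (h j : ℂ)) k *
            (starRingEnd ℂ) (ZMod.dft (fun j => (h j : ℂ)) k) :=
        Finset.sum_congr rfl fun k _ => (Complex.mul_conj _).symm
      rw [e, this]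
      congr 1
      refine Finset.sum_congr rfl fun j _ => ?_
      rw [Complex.conj_ofReal]
      ring
    exact_mod_cast h3
  have h1 := hP g
  have h2 := hP (fun j => g (j + 1) - g j)
  have h3 : ∀ k, ZMod.dft (fun j => ((g (j + 1) - g j : ℝ) : ℂ)) k =
      ((stdAddChar k : ℂ) - 1) * ZMod.dft Φ k := by
    intro k
    have e : (fun j => ((g (j + 1) - g j : ℝ) : ℂ)) = (fun j => Φ (j + 1)) - Φ := by
      funext j
      simp [Φ]
    rw [e, map_sub, Pi.sub_apply, dft_shift]
    ring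
  have h0 : ZMod.dft Φ 0 = 0 := by
    rw [dft_apply_zero]
    simp only [Φ]
    rw [← Complex.ofReal_sum, hg, Complex.ofReal_zero]
  have h4 : (2 - 2 * Real.cos (2 * Real.pi / N)) * (N * ∑ j, g j ^ 2) ≤
      N * ∑ j, (g (j + 1) - g j) ^ 2 := by
    rw [← h1, ← h2, Finset.mul_sum]
    refine Finset.sum_le_sum fun k _ => ?_
    rw [h3, Complex.normSq_mul]
    by_cases hk : k = 0
    · subst hk
      change _ * Complex.normSq (ZMod.dft Φ 0) ≤ _
      rw [h0]
      simp
    · exact mul_le_mul_of_nonneg_right (normSq_char_sub_one hk) (Complex.normSq_nonneg _)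
  have h5 : N * ((2 - 2 * Real.cos (2 * Real.pi / N)) * ∑ j, g j ^ 2) ≤
      N * ∑ j, (g (j + 1) - g j) ^ 2 := by linarith
  exact le_of_mul_le_mul_left h5 hN

/-- Discrete Wirtinger inequality for a closed sequence. -/
theorem wirtinger_range (L : ℕ) (hL : 1 ≤ L) (g : ℕ → ℝ) (hper : g L = g 0)
    (hg : ∑ i ∈ range L, g i = 0) :
    (2 - 2 * Real.cos (2 * Real.pi / L)) * ∑ i ∈ range L, g i ^ 2 ≤
      ∑ i ∈ range L, (g (i + 1) - g i) ^ 2 := by
  haveI : NeZero L := ⟨by omega⟩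
  have conv : ∀ F : ℕ → ℝ, ∑ j : ZMod L, F j.val = ∑ i ∈ range L, F i := by
    intro F
    refine Finset.sum_bij (fun (j : ZMod L) _ => j.val) ?_ ?_ ?_ ?_
    · intro j _; exact Finset.mem_range.mpr (ZMod.val_lt j)
    · intro a _ b _ hab; exact ZMod.val_injective L hab
    · intro i hi
      refine ⟨(i : ZMod L), Finset.mem_univ _, ?_⟩
      exact ZMod.val_cast_of_lt (Finset.mem_range.mp hi)
    · intro j _; rfl
  have h1 := wirtinger (N := L) (fun j => g j.val) (by rw [conv g]; exact hg)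
  have h2 : ∀ j : ZMod L, g (j + 1).val = g (j.val + 1) := by
    intro j
    rcases Nat.lt_or_ge (j.val + 1) L with h | h
    · rcases Nat.lt_or_ge 1 L with h' | h'
      · haveI : Fact (1 < L) := ⟨h'⟩
        rw [ZMod.val_add, ZMod.val_one, Nat.mod_eq_of_lt h]
      · omega
    · have h3 : j.val + 1 = L := by have := ZMod.val_lt j; omega
      have h4 : j + 1 = 0 := by
        have : ((j.val + 1 : ℕ) : ZMod L) = 0 := by rw [h3]; simp
        rw [← this]
        push_cast
        rw [ZMod.natCast_zmod_val]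
      rw [h4, h3, hper, ZMod.val_zero]
  simp only [h2] at h1
  rw [conv (fun i => g i ^ 2), conv (fun i => (g (i + 1) - g i) ^ 2)] at h1
  exact h1

end Pool.Agent.Q259.Wirtinger
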