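import Pool.Agent.Q259.EulerTour
import Pool.Agent.Q259.Wirtinger
import Mathlib.Analysis.SpecialFunctions.Trigonometric.Bounds
import Mathlib.Tactic

set_option autoImplicit false

namespace Pool.Agent.Q259.RelaxTime

open SimpleGraph Finset

variable {V : Type*} [Fintype V] [DecidableEq V] (G : SimpleGraph V) [DecidableRel G.Adj]

/-- The sharp Poincare inequality on a connected graph with `m` edges. -/
theorem poincare (hG : G.Connected) (hm : 1 ≤ G.edgeFinset.card) (f : V → ℝ)
    (hf : ∑ v, (G.degree v : ℝ) * f v = 0) :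
    (2 - 2 * Real.cos (Real.pi / G.edgeFinset.card)) * ∑ v, (G.degree v : ℝ) * f v ^ 2 ≤
      ∑ u, ∑ v, (if G.Adj u v then (f u - f v) ^ 2 else 0) := by
  classical
  obtain ⟨r⟩ := hG.nonempty
  obtain ⟨p, hp1, hp2⟩ := EulerTour.exists_tour G hG r
  have hsum : ∀ F : G.Dart → ℝ, (p.darts.map F).sum = ∑ d, F d := by
    intro F
    have e : p.darts.toFinset = Finset.univ := by
      ext d; simp [hp2 d]
    rw [← e, List.sum_toFinset _ hp1]
  have hL : p.length = 2 * G.edgeFinset.card := by
    rw [← G.dart_card_eq_twice_card_edges, ← Walk.length_darts,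
      ← List.toFinset_card_of_nodup hp1]
    have e : p.darts.toFinset = Finset.univ := by
      ext d; simp [hp2 d]
    rw [e]
    rfl
  have h1 : ∑ i ∈ range p.length, f (p.getVert i) = 0 := by
    have := EulerTour.sum_range_getVert G (fun a _ => f a) p
    rw [this, hsum (fun d => f d.fst), EulerTour.sum_darts_fst, hf]
  have h2 : ∑ i ∈ range p.length, f (p.getVert i) ^ 2 = ∑ v, (G.degree v : ℝ) * f v ^ 2 := by
    have := EulerTour.sum_range_getVert G (fun a _ => f a ^ 2) p
    rw [this, hsum (fun d => f d.fst ^ 2), EulerTour.sum_darts_fst G (fun v => f v ^ 2)]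
  have h3 : ∑ i ∈ range p.length, (f (p.getVert (i + 1)) - f (p.getVert i)) ^ 2 =
      ∑ u, ∑ v, (if G.Adj u v then (f u - f v) ^ 2 else 0) := by
    have := EulerTour.sum_range_getVert G (fun a b => (f b - f a) ^ 2) p
    rw [this, hsum (fun d => (f d.snd - f d.fst) ^ 2),
      EulerTour.sum_darts_double G (fun a b => (f b - f a) ^ 2)]
    refine Finset.sum_congr rfl fun u _ => Finset.sum_congr rfl fun v _ => ?_
    split_ifs
    · ring
    · rfl
  have h4 := Wirtinger.wirtinger_range p.length (by omega) (fun i => f (p.getVert i))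
    (by simp) h1
  rw [h2, h3, hL] at h4
  have e : (2 * Real.pi / ((2 * G.edgeFinset.card : ℕ) : ℝ)) = Real.pi / G.edgeFinset.card := by
    push_cast
    rw [mul_div_mul_left _ _ (by norm_num)]
  rw [e] at h4
  exact h4

theorem sum_degree_real : ∑ v, (G.degree v : ℝ) = 2 * (G.edgeFinset.card : ℝ) := by
  have := G.sum_degrees_eq_twice_card_edges
  exact_mod_cast this

end Pool.Agent.Q259.RelaxTime
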