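import Mathlib
import Pool.Agent.Q259.Spec

set_option autoImplicit false

/-! The largest eigenvalue of a real symmetric matrix. -/

namespace Pool.Agent.Q259.Spec

open Matrix Finset

variable {V : Type*} [Fintype V] [DecidableEq V]

/-- The largest eigenvalue of a real square matrix (supremum of the set of real eigenvalues). -/
noncomputable def lamMax (A : Matrix V V ℝ) : ℝ :=
  sSup {μ : ℝ | ∃ v : V → ℝ, v ≠ 0 ∧ A *ᵥ v = μ • v}

theorem ev_ne_zero {A : Matrix V V ℝ} (hA : A.IsHermitian) (i : V) : ev hA i ≠ 0 := by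
  intro h
  have h1 := ev_dot hA i i
  rw [h, if_pos rfl, zero_dotProduct] at h1
  exact zero_ne_one h1

theorem eig_set_eq {A : Matrix V V ℝ} (hA : A.IsHermitian) :
    {μ : ℝ | ∃ v : V → ℝ, v ≠ 0 ∧ A *ᵥ v = μ • v} = Set.range hA.eigenvalues := by
  ext μ
  constructor
  · rintro ⟨v, hv, h⟩
    by_contra hne
    apply hv
    rw [expand hA v]
    refine Finset.sum_eq_zero fun i _ => ?_
    have h1 := ev_dot_mulVec hA i v
    rw [h, dotProduct_smul, smul_eq_mul] at h1
    have h2 : (μ - hA.eigenvalues i) * (ev hA i ⬝ᵥ v) = 0 := by linarith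
    rcases mul_eq_zero.mp h2 with h3 | h3
    · exact absurd ⟨i, by linarith⟩ hne
    · rw [h3, zero_smul]
  · rintro ⟨i, rfl⟩
    exact ⟨ev hA i, ev_ne_zero hA i, mulVec_ev hA i⟩

theorem eig_bdd {A : Matrix V V ℝ} (hA : A.IsHermitian) :
    BddAbove {μ : ℝ | ∃ v : V → ℝ, v ≠ 0 ∧ A *ᵥ v = μ • v} := by
  rw [eig_set_eq hA]
  exact (Set.finite_range _).bddAbove

theorem le_lamMax {A : Matrix V V ℝ} (hA : A.IsHermitian) (i : V) :
    hA.eigenvalues i ≤ lamMax A :=
  le_csSup (eig_bdd hA) ⟨ev hA i, ev_ne_zero hA i, mulVec_ev hA i⟩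

/-- the Rayleigh bound -/
theorem rayleigh_le {A : Matrix V V ℝ} (hA : A.IsHermitian) (x : V → ℝ) :
    x ⬝ᵥ (A *ᵥ x) ≤ lamMax A * (x ⬝ᵥ x) := by
  rw [dot_eq hA x (A *ᵥ x), dot_eq hA x x, Finset.mul_sum]
  refine Finset.sum_le_sum fun i _ => ?_
  rw [ev_dot_mulVec]
  have h1 := le_lamMax hA i
  have h2 : 0 ≤ (ev hA i ⬝ᵥ x) * (ev hA i ⬝ᵥ x) := mul_self_nonneg _
  nlinarith

/-- the Collatz bound: a nonnegative matrix with `A x ≤ μ x` for a positive `x` has all
its real eigenvalues at most `μ`. -/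
theorem collatz [Nonempty V] {A : Matrix V V ℝ} (hA : A.IsHermitian) (hpos : ∀ a b, 0 ≤ A a b)
    (x : V → ℝ) (hx : ∀ v, 0 < x v) (μ : ℝ) (h : ∀ v, (A *ᵥ x) v ≤ μ * x v) :
    lamMax A ≤ μ := by
  refine csSup_le ?_ ?_
  · rw [eig_set_eq hA]; exact Set.range_nonempty _
  · rintro θ ⟨v, hv, hv2⟩
    obtain ⟨u, -, hu⟩ := Finset.exists_max_image (univ : Finset V) (fun w => |v w| / x w)
      univ_nonempty
    set r := |v u| / x u with hr
    have hru : |v u| = r * x u := by rw [hr]; have := hx u; field_simp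
    have hle : ∀ w, |v w| ≤ r * x w := by
      intro w
      have := hu w (Finset.mem_univ w)
      rwa [div_le_iff₀ (hx w)] at this
    have hr0 : 0 < r := by
      rcases lt_or_eq_of_le (show 0 ≤ r by rw [hr]; have := hx u; positivity) with h1 | h1
      · exact h1
      · exfalso
        apply hv
        funext w
        have h2 := hle w
        rw [← h1, zero_mul] at h2
        exact abs_nonpos_iff.mp h2
    have h1 : θ * v u = ∑ w, A u w * v w := by
      have := congrFun hv2 u
      simp only [Pi.smul_apply, smul_eq_mul] at this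
      exact this.symm
    have h2 : |θ| * |v u| ≤ r * (μ * x u) := by
      rw [← abs_mul, h1]
      calc |∑ w, A u w * v w| ≤ ∑ w, |A u w * v w| := Finset.abs_sum_le_sum_abs _ _
        _ ≤ ∑ w, r * (A u w * x w) := by
            refine Finset.sum_le_sum fun w _ => ?_
            rw [abs_mul, abs_of_nonneg (hpos u w)]
            have := mul_le_mul_of_nonneg_left (hle w) (hpos u w)
            linarith
        _ = r * (A *ᵥ x) u := by rw [← Finset.mul_sum]; rfl
        _ ≤ r * (μ * x u) := mul_le_mul_of_nonneg_left (h u) hr0.le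
    rw [hru] at h2
    have h3 : 0 < r * x u := mul_pos hr0 (hx u)
    have h4 : |θ| ≤ μ := by
      by_contra hcon
      push Not at hcon
      nlinarith
    exact (le_abs_self θ).trans h4

/-- The Laplacian of a weight matrix: diagonal of the row sums minus the matrix. -/
def wLap (W : Matrix V V ℝ) : Matrix V V ℝ :=
  Matrix.diagonal (fun v => ∑ u, W v u) - W

/-- the quadratic form of the Laplacian -/
theorem wLap_form (W : Matrix V V ℝ) (hs : ∀ a b, W a b = W b a) (x : V → ℝ) :
    x ⬝ᵥ (wLap W *ᵥ x) = (∑ a, ∑ b, W a b * (x a - x b) ^ 2) / 2 := by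
  have h1 : x ⬝ᵥ (wLap W *ᵥ x) = ∑ a, ∑ b, W a b * (x a * x a) - ∑ a, ∑ b, W a b * (x a * x b) := by
    rw [wLap, Matrix.sub_mulVec, dotProduct_sub]
    congr 1
    · simp only [dotProduct, Matrix.mulVec_diagonal, Finset.mul_sum, Finset.sum_mul]
      refine Finset.sum_congr rfl fun a _ => Finset.sum_congr rfl fun b _ => by ring
    · simp only [dotProduct, Matrix.mulVec, Finset.mul_sum]
      refine Finset.sum_congr rfl fun a _ => Finset.sum_congr rfl fun b _ => by ring
  have h2 : ∑ a, ∑ b, W a b * (x b * x b) = ∑ a, ∑ b, W a b * (x a * x a) := by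
    rw [Finset.sum_comm]
    refine Finset.sum_congr rfl fun a _ => Finset.sum_congr rfl fun b _ => by rw [hs]
  have h3 : ∑ a, ∑ b, W a b * (x a - x b) ^ 2 = ∑ a, ∑ b, W a b * (x a * x a) +
      ∑ a, ∑ b, W a b * (x b * x b) - 2 * ∑ a, ∑ b, W a b * (x a * x b) := by
    rw [Finset.mul_sum, ← Finset.sum_add_distrib, ← Finset.sum_sub_distrib]
    refine Finset.sum_congr rfl fun a _ => ?_
    rw [Finset.mul_sum, ← Finset.sum_add_distrib, ← Finset.sum_sub_distrib]
    refine Finset.sum_congr rfl fun b _ => by ring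
  rw [h1, h3, h2]
  ring

end Pool.Agent.Q259.Spec
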