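import Mathlib
import Pool.Agent.Q259.Spec2

set_option autoImplicit false

/-! The Ricci matrix of a tree: definitions and bounds for the largest eigenvalue. -/

namespace Pool.Agent.Q259.Ricci

open Matrix Finset Pool.Agent.Q259.Spec
open scoped Classical

section general

variable {V : Type} [Fintype V] (G : SimpleGraph V)

/-- The degree of `x`, as a real number. -/
noncomputable def dg (x : V) : ℝ := ((G.neighborSet x).ncard : ℝ)

/-- The Ricci matrix: the entry at `(e, e)` is minus the sum of `1 / d_x` over the two ends `x` of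
`e`, the entry at `(e, e')` with `e ≠ e'` is `1 / d_x` if `e` and `e'` meet in `x` and zero if `e`
and `e'` are disjoint. -/
noncomputable def ricci : Matrix G.edgeSet G.edgeSet ℝ := fun e e' =>
  if e = e' then - ∑ x : V, (if x ∈ (e : Sym2 V) then 1 / dg G x else 0)
  else ∑ x : V, (if x ∈ (e : Sym2 V) ∧ x ∈ (e' : Sym2 V) then 1 / dg G x else 0)

/-- The largest eigenvalue of the Ricci matrix. -/
noncomputable def lam : ℝ :=
  sSup {μ : ℝ | ∃ f : G.edgeSet → ℝ, f ≠ 0 ∧ ricci G *ᵥ f = μ • f}

/-- Attaching a leaf at `v`: the new vertex `none` is joined to `v` only. -/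
def attachLeaf (G : SimpleGraph V) (v : V) : SimpleGraph (Option V) where
  Adj
    | some x, some y => G.Adj x y
    | some x, none => x = v
    | none, some y => y = v
    | none, none => False
  symm := ⟨by
    rintro (_ | x) (_ | y) h
    · exact h
    · exact h
    · exact h
    · exact SimpleGraph.Adj.symm (G := G) h⟩
  loopless := ⟨by
    rintro (_ | x) h
    · exact h
    · exact G.loopless.irrefl x h⟩

variable {G}

theorem lam_eq : lam G = lamMax (ricci G) := rfl

theorem ricci_herm : (ricci G).IsHermitian := by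
  ext e e'
  simp only [Matrix.conjTranspose_apply, star_trivial]
  unfold ricci
  by_cases h : e = e'
  · subst h; rfl
  · rw [if_neg h, if_neg (Ne.symm h)]
    apply Finset.sum_congr rfl
    intro x _
    simp only [and_comm]

theorem dg_nonneg (x : V) : 0 ≤ dg G x := Nat.cast_nonneg _

/-- The sum of `f` over the edges at `x`. -/
noncomputable def FF (G : SimpleGraph V) (f : Sym2 V → ℝ) (x : V) : ℝ :=
  ∑ z : V, if G.Adj x z then f s(x, z) else 0

theorem dg_eq (x : V) : dg G x = FF G (fun _ => 1) x := by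
  unfold dg FF
  rw [← Finset.sum_filter, Finset.sum_const, nsmul_eq_mul, mul_one]
  congr 1
  rw [Set.ncard_eq_toFinset_card']
  congr 1
  ext z
  simp

theorem degree_eq (x : V) : (G.degree x : ℝ) = dg G x := by
  unfold dg
  rw [← SimpleGraph.card_neighborFinset_eq_degree]
  congr 1
  rw [Set.ncard_eq_toFinset_card']
  congr 1

theorem incidence_sum (f : Sym2 V → ℝ) (x : V) :
    ∑ e' : G.edgeSet, (if x ∈ (e' : Sym2 V) then f e' else 0) = FF G f x := by
  unfold FF
  rw [← Finset.sum_filter, ← Finset.sum_filter]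
  refine Finset.sum_bij' (fun (e' : G.edgeSet) he => Sym2.Mem.other
    ((Finset.mem_filter.1 he).2)) (fun z hz => ⟨s(x, z), (Finset.mem_filter.1 hz).2⟩) ?_ ?_ ?_ ?_ ?_
  · intro e' he
    rw [Finset.mem_filter]
    refine ⟨Finset.mem_univ _, ?_⟩
    have h1 := Sym2.other_spec ((Finset.mem_filter.1 he).2)
    have h2 : (e' : Sym2 V) ∈ G.edgeSet := e'.2
    rw [← h1] at h2
    exact h2
  · intro z hz
    rw [Finset.mem_filter]
    exact ⟨Finset.mem_univ _, Sym2.mem_mk_left x z⟩
  · intro e' he
    apply Subtype.ext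
    exact Sym2.other_spec ((Finset.mem_filter.1 he).2)
  · intro z hz
    have h1 := Sym2.other_spec (Sym2.mem_mk_left x z)
    exact Sym2.congr_right.1 h1
  · intro e' he
    rw [Sym2.other_spec ((Finset.mem_filter.1 he).2)]

theorem ends_sum (h : V → ℝ) {x y : V} (hxy : x ≠ y) :
    ∑ z : V, (if z ∈ s(x, y) then h z else 0) = h x + h y := by
  have h1 : ∀ z : V, (if z ∈ s(x, y) then h z else 0) =
      (if z = x then h x else 0) + (if z = y then h y else 0) := by
    intro z
    by_cases h1 : z = x
    · subst h1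
      rw [if_pos (Sym2.mem_mk_left _ _), if_pos rfl, if_neg hxy, add_zero]
    · by_cases h2 : z = y
      · subst h2
        rw [if_pos (Sym2.mem_mk_right _ _), if_neg h1, if_pos rfl, zero_add]
      · rw [if_neg (by rw [Sym2.mem_iff]; tauto), if_neg h1, if_neg h2, add_zero]
  rw [Finset.sum_congr rfl (fun z _ => h1 z), Finset.sum_add_distrib, Finset.sum_ite_eq',
    Finset.sum_ite_eq', if_pos (Finset.mem_univ _), if_pos (Finset.mem_univ _)]

theorem ricci_apply (f : Sym2 V → ℝ) {x y : V} (h : G.Adj x y) :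
    (ricci G *ᵥ fun e : G.edgeSet => f e) ⟨s(x, y), h⟩ =
      FF G f x / dg G x + FF G f y / dg G y - 2 * (1 / dg G x + 1 / dg G y) * f s(x, y) := by
  have hne : x ≠ y := h.ne
  set e : G.edgeSet := ⟨s(x, y), h⟩ with he
  have h1 : ∀ e' : G.edgeSet, ricci G e e' * f e' =
      ∑ z : V, (if z ∈ (e : Sym2 V) then (1 / dg G z) * (if z ∈ (e' : Sym2 V) then f e' else 0)
        else 0) - (if e = e' then 2 * (∑ z : V, (if z ∈ (e : Sym2 V) then 1 / dg G z else 0)) * f e
          else 0) := by
    intro e'
    unfold ricci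
    by_cases hee : e = e'
    · rw [if_pos hee, if_pos hee, ← hee]
      have h2 : ∑ z : V, (if z ∈ (e : Sym2 V) then (1 / dg G z) *
          (if z ∈ (e : Sym2 V) then f e else 0) else 0) =
          (∑ z : V, (if z ∈ (e : Sym2 V) then 1 / dg G z else 0)) * f e := by
        rw [Finset.sum_mul]
        apply Finset.sum_congr rfl
        intro z _
        split_ifs <;> ring
      rw [h2]
      ring
    · rw [if_neg hee, if_neg hee, sub_zero, Finset.sum_mul]
      apply Finset.sum_congr rfl
      intro z _
      by_cases c1 : z ∈ (e : Sym2 V)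
      · by_cases c2 : z ∈ (e' : Sym2 V)
        · rw [if_pos ⟨c1, c2⟩, if_pos c1, if_pos c2]
        · rw [if_neg (fun h => c2 h.2), if_pos c1, if_neg c2]; ring
      · rw [if_neg (fun h => c1 h.1), if_neg c1]; ring
  have h3 : (ricci G *ᵥ fun e : G.edgeSet => f e) e = ∑ e' : G.edgeSet, ricci G e e' * f e' := rfl
  rw [h3, Finset.sum_congr rfl (fun e' _ => h1 e'), Finset.sum_sub_distrib, Finset.sum_ite_eq,
    if_pos (Finset.mem_univ _), Finset.sum_comm]
  have h4 : ∀ z : V, ∑ e' : G.edgeSet, (if z ∈ (e : Sym2 V) then (1 / dg G z) *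
      (if z ∈ (e' : Sym2 V) then f e' else 0) else 0) =
      (if z ∈ s(x, y) then (1 / dg G z) * FF G f z else 0) := by
    intro z
    by_cases c1 : z ∈ s(x, y)
    · rw [if_pos c1, ← incidence_sum, Finset.mul_sum]
      apply Finset.sum_congr rfl
      intro e' _
      rw [if_pos c1]
    · rw [if_neg c1]
      apply Finset.sum_eq_zero
      intro e' _
      rw [if_neg c1]
  rw [Finset.sum_congr rfl (fun z _ => h4 z), ends_sum _ hne]
  have h5 : ∑ z : V, (if z ∈ (e : Sym2 V) then 1 / dg G z else 0) = 1 / dg G x + 1 / dg G y :=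
    ends_sum _ hne
  rw [h5]
  ring

/-- A positive supersolution bounds the largest eigenvalue from above. -/
theorem lam_le (he : G.edgeSet.Nonempty) (f : Sym2 V → ℝ) (hf : ∀ x y, G.Adj x y → 0 < f s(x, y))
    (μ : ℝ) (h : ∀ x y, G.Adj x y →
      FF G f x / dg G x + FF G f y / dg G y - 2 * (1 / dg G x + 1 / dg G y) * f s(x, y) ≤
        μ * f s(x, y)) : lam G ≤ μ := by
  have : Nonempty G.edgeSet := he.to_subtype
  set c : ℝ := ∑ e : G.edgeSet, |ricci G e e| with hc
  have hc1 : ∀ e, 0 ≤ ricci G e e + c := by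
    intro e
    have h1 : |ricci G e e| ≤ c :=
      Finset.single_le_sum (f := fun e : G.edgeSet => |ricci G e e|) (fun _ _ => abs_nonneg _)
        (Finset.mem_univ e)
    have := neg_abs_le (ricci G e e)
    linarith
  have hA : (ricci G + c • (1 : Matrix G.edgeSet G.edgeSet ℝ)).IsHermitian := by
    refine ricci_herm.add ?_
    ext e e'
    simp only [Matrix.conjTranspose_apply, Matrix.smul_apply, star_trivial, Matrix.one_apply,
      smul_eq_mul]
    simp only [eq_comm]
  have hmv : ∀ g : G.edgeSet → ℝ, (ricci G + c • (1 : Matrix G.edgeSet G.edgeSet ℝ)) *ᵥ g =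
      ricci G *ᵥ g + c • g := by
    intro g
    rw [Matrix.add_mulVec, Matrix.smul_mulVec, Matrix.one_mulVec]
  have hcol : lamMax (ricci G + c • (1 : Matrix G.edgeSet G.edgeSet ℝ)) ≤ μ + c := by
    refine collatz hA ?_ (fun e : G.edgeSet => f e) ?_ (μ + c) ?_
    · intro e e'
      rw [Matrix.add_apply, Matrix.smul_apply, Matrix.one_apply, smul_eq_mul]
      by_cases hee : e = e'
      · subst hee
        rw [if_pos rfl, mul_one]
        exact hc1 e
      · rw [if_neg hee, mul_zero, add_zero]
        unfold ricci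
        rw [if_neg hee]
        apply Finset.sum_nonneg
        intro x _
        split_ifs
        · exact div_nonneg zero_le_one (dg_nonneg x)
        · exact le_rfl
    · rintro ⟨e, hee⟩
      induction e using Sym2.ind with
      | _ x y => exact hf x y hee
    · rintro ⟨e, hee⟩
      induction e using Sym2.ind with
      | _ x y =>
        rw [hmv, Pi.add_apply, Pi.smul_apply, ricci_apply f hee, smul_eq_mul]
        have := h x y hee
        linarith
  rw [lam_eq]
  refine csSup_le ?_ ?_
  · rw [eig_set_eq ricci_herm]; exact Set.range_nonempty _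
  · rintro θ ⟨g, hg, hg2⟩
    have h1 : θ + c ≤ lamMax (ricci G + c • (1 : Matrix G.edgeSet G.edgeSet ℝ)) := by
      refine le_csSup (eig_bdd hA) ⟨g, hg, ?_⟩
      rw [hmv, hg2, add_smul]
    linarith

/-- A positive subsolution bounds the largest eigenvalue from below. -/
theorem le_lam (he : G.edgeSet.Nonempty) (f : Sym2 V → ℝ) (hf : ∀ x y, G.Adj x y → 0 < f s(x, y))
    (μ : ℝ) (h : ∀ x y, G.Adj x y → μ * f s(x, y) ≤
      FF G f x / dg G x + FF G f y / dg G y - 2 * (1 / dg G x + 1 / dg G y) * f s(x, y)) :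
    μ ≤ lam G := by
  have h1 := rayleigh_le (A := ricci G) ricci_herm (fun e : G.edgeSet => f e)
  have h2 : μ * ((fun e : G.edgeSet => f e) ⬝ᵥ (fun e : G.edgeSet => f e)) ≤
      (fun e : G.edgeSet => f e) ⬝ᵥ (ricci G *ᵥ (fun e : G.edgeSet => f e)) := by
    unfold dotProduct
    rw [Finset.mul_sum]
    apply Finset.sum_le_sum
    rintro ⟨e, hee⟩ _
    induction e using Sym2.ind with
    | _ x y =>
      rw [ricci_apply f hee]
      have h3 := h x y hee
      have h4 := hf x y hee
      have h5 := mul_le_mul_of_nonneg_left h3 h4.le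
      calc μ * (f s(x, y) * f s(x, y)) = f s(x, y) * (μ * f s(x, y)) := by ring
        _ ≤ _ := h5
  have h3 : 0 < (fun e : G.edgeSet => f e) ⬝ᵥ (fun e : G.edgeSet => f e) := by
    unfold dotProduct
    have : Nonempty G.edgeSet := he.to_subtype
    apply Finset.sum_pos _ Finset.univ_nonempty
    rintro ⟨e, hee⟩ _
    induction e using Sym2.ind with
    | _ x y => exact mul_pos (hf x y hee) (hf x y hee)
  rw [lam_eq]
  exact le_of_mul_le_mul_right (h2.trans h1) h3

end general

end Pool.Agent.Q259.Ricci
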