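import Pool.Agent.Q259.Flow

/-! Scalar inequalities for MP_2eb075_an. -/

open Set Metric Filter Topology

namespace Pool.Agent.Q259.ShearA

/-- The data `(l, x0, a)`. -/
structure Dat (l x0 a : ℝ) : Prop where
  hl1 : 1 ≤ l
  hl2 : l < 2
  x0pos : 0 < x0
  x0lt : x0 < 1
  ha : a * (x0 * (1 + x0 ^ 2)) = 2
  hx : (l - 1) * (x0 ^ 2 * (1 + x0 ^ 2)) = 1 - 3 * x0 ^ 2

theorem exists_dat {l : ℝ} (hl1 : 1 ≤ l) (hl2 : l < 2) : ∃ x0 a, Dat l x0 a := by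
  set Δ := Real.sqrt ((l + 2) ^ 2 + 4 * (l - 1)) with hΔ
  have hΔ2 : Δ ^ 2 = (l + 2) ^ 2 + 4 * (l - 1) := Real.sq_sqrt (by nlinarith)
  have hΔ0 : 0 ≤ Δ := Real.sqrt_nonneg _
  have hden : 0 < l + 2 + Δ := by linarith
  set s := 2 / (l + 2 + Δ) with hs
  have hs0 : 0 < s := by positivity
  have hs1 : s < 1 := by
    rw [hs, div_lt_one hden]
    linarith
  have hseq : (l - 1) * (s * (1 + s)) = 1 - 3 * s := by
    have e : s * (l + 2 + Δ) = 2 := div_mul_cancel₀ _ hden.ne'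
    have h4 : s * Δ = 2 - s * (l + 2) := by linarith
    have h5 : s ^ 2 * Δ ^ 2 = (2 - s * (l + 2)) ^ 2 := by rw [← h4]; ring
    rw [hΔ2] at h5
    nlinarith
  refine ⟨Real.sqrt s, 2 / (Real.sqrt s * (1 + Real.sqrt s ^ 2)), hl1, hl2, Real.sqrt_pos.2 hs0, ?_, ?_, ?_⟩
  · rw [Real.sqrt_lt' one_pos]
    simpa using hs1
  · have : 0 < Real.sqrt s := Real.sqrt_pos.2 hs0
    rw [div_mul_cancel₀]
    positivity
  · rw [Real.sq_sqrt hs0.le]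
    exact hseq

variable {l x0 a : ℝ}

theorem Dat.e1 (h : Dat l x0 a) : (l - 1) * x0 ^ 2 = 1 - 2 * a * x0 ^ 3 := by
  have hne : (1 + x0 ^ 2) ≠ 0 := by positivity
  apply mul_right_cancel₀ hne
  have h1 := h.ha
  have h2 := h.hx
  linear_combination h2 + 2 * x0 ^ 2 * h1

theorem Dat.e2 (h : Dat l x0 a) : a * x0 ^ 2 * (1 + x0 ^ 2) = 2 * x0 := by
  linear_combination x0 * h.ha

theorem Dat.one_le (h : Dat l x0 a) : 1 ≤ a := by
  have h1 := h.ha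
  have h0 := h.x0pos
  have h2 := h.x0lt
  have h3 : x0 * (1 + x0 ^ 2) ≤ 2 := by nlinarith
  have h4 : 0 < x0 * (1 + x0 ^ 2) := by positivity
  by_contra hh
  push Not at hh
  nlinarith

/-- The cubic on the unit circle. -/
theorem Dat.circle (h : Dat l x0 a) (x : ℝ) :
    x0 ^ 2 * (1 + (l - 1) * x ^ 2 - a * x + a * x ^ 3) = (x - x0) ^ 2 * (a * x0 ^ 2 * x + 1) := by
  linear_combination x ^ 2 * h.e1 - x * h.e2

theorem Dat.circle_nonneg (h : Dat l x0 a) {x : ℝ} (hx : 0 ≤ x) :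
    0 ≤ 1 + (l - 1) * x ^ 2 - a * x + a * x ^ 3 := by
  have h0 := h.x0pos
  have ha := h.one_le
  have h1 : 0 ≤ x0 ^ 2 * (1 + (l - 1) * x ^ 2 - a * x + a * x ^ 3) := by
    rw [h.circle]
    positivity
  exact nonneg_of_mul_nonneg_right h1 (by positivity)

theorem Dat.main_ineq (h : Dat l x0 a) {x w : ℝ} (hx : 0 ≤ x) (hw : 0 ≤ w) (hxw : x ^ 2 + w ≤ 1) :
    1 / 4 * ((1 - x0 ^ 2) * x - x0 * w) ^ 2 ≤ l * x ^ 2 + w - a * x * w := by
  have h0 := h.x0pos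
  have h1 := h.x0lt
  have ha := h.one_le
  have hl := h.hl1
  have hx1 : x ≤ 1 := by nlinarith
  have hx01 : x0 ^ 2 ≤ 1 := by nlinarith
  -- value at w = 0
  have hφ0 : 0 ≤ l * x ^ 2 - 1 / 4 * ((1 - x0 ^ 2) * x) ^ 2 := by
    have : (1 - x0 ^ 2) ^ 2 ≤ 1 := by nlinarith [sq_nonneg x0]
    have h2 : (1 - x0 ^ 2) ^ 2 * x ^ 2 ≤ 1 * x ^ 2 := by gcongr
    nlinarith [sq_nonneg x]
  -- value at w = 1 - x^2
  have hφW : 0 ≤ l * x ^ 2 + (1 - x ^ 2) - a * x * (1 - x ^ 2)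
      - 1 / 4 * ((1 - x0 ^ 2) * x - x0 * (1 - x ^ 2)) ^ 2 := by
    have e : x0 ^ 2 * (l * x ^ 2 + (1 - x ^ 2) - a * x * (1 - x ^ 2)
      - 1 / 4 * ((1 - x0 ^ 2) * x - x0 * (1 - x ^ 2)) ^ 2) =
        (x - x0) ^ 2 * (a * x0 ^ 2 * x + (1 - 1 / 4 * x0 ^ 2 * (1 + x0 * x) ^ 2)) := by
      linear_combination h.circle x
    have h3 : x0 ^ 2 * (1 + x0 * x) ^ 2 ≤ 1 * 2 ^ 2 := by
      gcongr
      nlinarith
    have h4 : 0 ≤ a * x0 ^ 2 * x := by positivity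
    have h5 : 0 ≤ x0 ^ 2 * (l * x ^ 2 + (1 - x ^ 2) - a * x * (1 - x ^ 2)
      - 1 / 4 * ((1 - x0 ^ 2) * x - x0 * (1 - x ^ 2)) ^ 2) := by
      rw [e]
      apply mul_nonneg (sq_nonneg _)
      linarith
    exact nonneg_of_mul_nonneg_right h5 (by positivity)
  rcases eq_or_lt_of_le (show 0 ≤ 1 - x ^ 2 by nlinarith) with hW | hW
  · have hw0 : w = 0 := by linarith
    subst hw0
    simp only [mul_zero, sub_zero, add_zero]
    linarith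
  · have key : (1 - x ^ 2) * (l * x ^ 2 + w - a * x * w - 1 / 4 * ((1 - x0 ^ 2) * x - x0 * w) ^ 2) =
        (1 - x ^ 2 - w) * (l * x ^ 2 - 1 / 4 * ((1 - x0 ^ 2) * x) ^ 2) +
        w * (l * x ^ 2 + (1 - x ^ 2) - a * x * (1 - x ^ 2)
          - 1 / 4 * ((1 - x0 ^ 2) * x - x0 * (1 - x ^ 2)) ^ 2) +
        1 / 4 * x0 ^ 2 * w * (1 - x ^ 2 - w) * (1 - x ^ 2) := by ring
    have h6 : 0 ≤ 1 - x ^ 2 - w := by linarith
    have h7 : 0 ≤ (1 - x ^ 2) * (l * x ^ 2 + w - a * x * w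
        - 1 / 4 * ((1 - x0 ^ 2) * x - x0 * w) ^ 2) := by
      rw [key]
      have := mul_nonneg h6 hφ0
      have := mul_nonneg hw hφW
      have : 0 ≤ 1 / 4 * x0 ^ 2 * w * (1 - x ^ 2 - w) * (1 - x ^ 2) := by positivity
      linarith
    have := nonneg_of_mul_nonneg_right h7 hW
    linarith

theorem Dat.pos (h : Dat l x0 a) {x w : ℝ} (hx : 0 ≤ x) (hw : 0 ≤ w) (hxw : x ^ 2 + w < 1)
    (hne : x ≠ 0 ∨ w ≠ 0) : 0 < l * x ^ 2 + w - a * x * w := by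
  have hl := h.hl1
  rcases eq_or_lt_of_le hx with hx0 | hx0
  · subst hx0
    have : w ≠ 0 := by tauto
    have : 0 < w := lt_of_le_of_ne hw (Ne.symm this)
    simpa using this
  · have hW : 0 < 1 - x ^ 2 := by linarith
    have key : (1 - x ^ 2) * (l * x ^ 2 + w - a * x * w) =
        (1 - x ^ 2 - w) * (l * x ^ 2) + w * (1 + (l - 1) * x ^ 2 - a * x + a * x ^ 3) := by ring
    have h1 := mul_nonneg hw (h.circle_nonneg hx)
    have h2 : 0 < (1 - x ^ 2 - w) * (l * x ^ 2) := by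
      apply mul_pos (by linarith)
      positivity
    have h3 : 0 < (1 - x ^ 2) * (l * x ^ 2 + w - a * x * w) := by rw [key]; linarith
    exact (mul_pos_iff_of_pos_left hW).1 h3

/-- The number `a₀` is the maximum of the admissible coefficients. -/
theorem Dat.isGreatest (h : Dat l x0 a) :
    IsGreatest {a : ℝ | 0 < a ∧ ∀ x y : ℝ, 0 ≤ x → 0 ≤ y → x ^ 2 + y ^ 2 ≤ 1 →
      0 ≤ l * x ^ 2 + y ^ 2 - a * x * y ^ 2} a := by
  have h0 := h.x0pos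
  have h1 := h.x0lt
  constructor
  · refine ⟨by linarith [h.one_le], fun x y hx hy hxy => ?_⟩
    have := h.main_ineq hx (sq_nonneg y) hxy
    nlinarith [sq_nonneg ((1 - x0 ^ 2) * x - x0 * y ^ 2)]
  · rintro b ⟨_, hb⟩
    have hx1 : x0 ^ 2 < 1 := by nlinarith
    have hy : Real.sqrt (1 - x0 ^ 2) ^ 2 = 1 - x0 ^ 2 := Real.sq_sqrt (by linarith)
    have h2 := hb x0 (Real.sqrt (1 - x0 ^ 2)) h0.le (Real.sqrt_nonneg _) (by rw [hy]; linarith)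
    rw [hy] at h2
    have h3 : l * x0 ^ 2 + (1 - x0 ^ 2) - a * x0 * (1 - x0 ^ 2) = 0 := by
      have := h.circle x0
      have h4 : x0 ^ 2 * (1 + (l - 1) * x0 ^ 2 - a * x0 + a * x0 ^ 3) = 0 := by rw [this]; ring
      have h5 := (mul_eq_zero.1 h4).resolve_left (by positivity)
      linear_combination h5
    have h6 : b * (x0 * (1 - x0 ^ 2)) ≤ a * (x0 * (1 - x0 ^ 2)) := by nlinarith
    exact le_of_mul_le_mul_right h6 (by have : 0 < 1 - x0 ^ 2 := by linarith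
                                        positivity)

/-- The complex inequality. -/
theorem Dat.complex_ineq (h : Dat l x0 a) {u v : ℂ} (huv : ‖u‖ ^ 2 + ‖v‖ ^ 2 ≤ 1) :
    1 / 4 * ‖(1 - (x0 : ℂ) ^ 2) * u - x0 * v ^ 2‖ ^ 2 ≤
      ((starRingEnd ℂ) u * (l * u - a * v ^ 2)).re + ‖v‖ ^ 2 := by
  have hm := h.main_ineq (norm_nonneg u) (sq_nonneg ‖v‖) huv
  have h0 := h.x0pos
  have h1 := h.x0lt
  have ha := h.one_le
  set T : ℝ := ((starRingEnd ℂ) u * v ^ 2).re with hT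
  have hTle : T ≤ ‖u‖ * ‖v‖ ^ 2 := by
    calc T ≤ ‖(starRingEnd ℂ) u * v ^ 2‖ := Complex.re_le_norm _
      _ = ‖u‖ * ‖v‖ ^ 2 := by rw [norm_mul, norm_pow, RCLike.norm_conj]
  have e1 : ((starRingEnd ℂ) u * (l * u - a * v ^ 2)).re = l * ‖u‖ ^ 2 - a * T := by
    rw [hT, Complex.sq_norm, Complex.normSq_apply]
    simp [pow_two]
    ring
  have e2 : ‖(1 - (x0 : ℂ) ^ 2) * u - x0 * v ^ 2‖ ^ 2 =
      (1 - x0 ^ 2) ^ 2 * ‖u‖ ^ 2 + x0 ^ 2 * (‖v‖ ^ 2) ^ 2 - 2 * (x0 * (1 - x0 ^ 2)) * T := by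
    rw [hT, Complex.sq_norm, Complex.sq_norm, Complex.sq_norm, Complex.normSq_apply,
      Complex.normSq_apply, Complex.normSq_apply]
    simp [pow_two]
    ring
  rw [e1, e2]
  have h3 : 0 ≤ (a - 1 / 2 * (x0 * (1 - x0 ^ 2))) * (‖u‖ * ‖v‖ ^ 2 - T) := by
    apply mul_nonneg
    · nlinarith [pow_pos h0 3]
    · linarith
  nlinarith

theorem Dat.complex_pos (h : Dat l x0 a) {u v : ℂ} (huv : ‖u‖ ^ 2 + ‖v‖ ^ 2 < 1)
    (hne : u ≠ 0 ∨ v ≠ 0) :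
    0 < ((starRingEnd ℂ) u * (l * u - a * v ^ 2)).re + ‖v‖ ^ 2 := by
  have ha := h.one_le
  set T : ℝ := ((starRingEnd ℂ) u * v ^ 2).re with hT
  have hTle : T ≤ ‖u‖ * ‖v‖ ^ 2 := by
    calc T ≤ ‖(starRingEnd ℂ) u * v ^ 2‖ := Complex.re_le_norm _
      _ = ‖u‖ * ‖v‖ ^ 2 := by rw [norm_mul, norm_pow, RCLike.norm_conj]
  have e1 : ((starRingEnd ℂ) u * (l * u - a * v ^ 2)).re = l * ‖u‖ ^ 2 - a * T := by
    rw [hT, Complex.sq_norm, Complex.normSq_apply]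
    simp [pow_two]
    ring
  have hp := h.pos (norm_nonneg u) (sq_nonneg ‖v‖) huv (by simpa using hne)
  rw [e1]
  nlinarith

end Pool.Agent.Q259.ShearA
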